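import Mathlib

set_option autoImplicit false

open Set Topology Filter Cardinal

namespace Pool.Agent.Helper647.CPP

/-- The well-ordered set of the countable ordinals (order type `ω₁`). -/
abbrev Om : Type := (ℵ₁ : Cardinal.{0}).ord.ToType

/-- `C_p(X)`: the continuous real-valued functions with the topology of pointwise convergence
(the subspace topology from the product `X → ℝ`). -/
abbrev Cp (X : Type) [TopologicalSpace X] : Type := {f : X → ℝ // Continuous f}

/-- `X` is `ω`-monolithic: the closure of each countable set has a countable network. -/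
def OmegaMonolithic (X : Type) [TopologicalSpace X] : Prop :=
  ∀ A : Set X, A.Countable → ∃ N : Set (Set (closure A)), N.Countable ∧
    ∀ U : Set (closure A), IsOpen U → ∀ x ∈ U, ∃ M ∈ N, x ∈ M ∧ M ⊆ U

/-- `C` is a closed unbounded subset of `ω₁`. -/
def IsClubSet (C : Set Om) : Prop :=
  (∀ a, ∃ b, a < b ∧ b ∈ C) ∧
    ∀ a, (∃ b, b < a) → (∀ b, b < a → ∃ c, (b < c ∧ c < a) ∧ c ∈ C) → a ∈ C

/-- Jensen's principle diamond. -/
def Diamond : Prop :=
  ∃ A : Om → Set Om, ∀ S C : Set Om, IsClubSet C → ∃ a ∈ C, ∀ b < a, (b ∈ S ↔ b ∈ A a)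

/-- Every subset of `ℝ^ℕ` of cardinality at most `ℵ₁` is coanalytic. -/
def SmallSetsCoanalytic : Prop :=
  ∀ Z : Set (ℕ → ℝ), #Z ≤ ℵ₁ → MeasureTheory.AnalyticSet Zᶜ

end Pool.Agent.Helper647.CPP
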