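import Mathlib
import Pool.Agent.Helper647.CPP.Defs

set_option linter.unusedVariables false
set_option linter.unusedSectionVars false

set_option linter.dupNamespace false

open Set Topology Filter Cardinal

namespace Pool.Agent.Helper647.CPP


theorem countable_Iio (a : Om) : Countable {b : Om // b < a} := by
  have h : #(Set.Iio a) < ℵ₁ := mk_Iio_toType_ord_lt a
  have h1 : ℵ₁ ≤ Order.succ (ℵ₀ : Cardinal.{0}) := succ_aleph0.ge
  exact mk_le_aleph0_iff.1 (Order.lt_succ_iff.1 (h.trans_le h1))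

theorem exists_bound (f : ℕ → Om) : ∃ a : Om, ∀ n, f n < a := by
  by_contra hc
  push Not at hc
  have h1 : (Set.univ : Set Om) ⊆ ⋃ n, Set.Iic (f n) := by
    intro a _
    obtain ⟨n, hn⟩ := hc a
    exact Set.mem_iUnion.2 ⟨n, hn⟩
  have h2 : (⋃ n, Set.Iic (f n)).Countable := by
    refine Set.countable_iUnion fun n => ?_
    have : Set.Iic (f n) = insert (f n) (Set.Iio (f n)) := by
      ext x
      simp [le_iff_eq_or_lt]
    rw [this]
    exact Set.Countable.insert _ (Set.countable_coe_iff.1 (countable_Iio _))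
  have h3 := h2.mono h1
  rw [Set.countable_univ_iff, ← mk_le_aleph0_iff] at h3
  have h4 : #Om = ℵ₁ := by simp
  rw [h4] at h3
  exact absurd h3 (not_le.2 aleph0_lt_aleph_one)

instance : NoMaxOrder Om := ⟨fun a => by
  obtain ⟨b, hb⟩ := exists_bound fun _ => a
  exact ⟨b, hb 0⟩⟩

instance : Nonempty Om := by
  have : #Om ≠ 0 := by
    rw [mk_toType, card_ord]
    exact (aleph_pos 1).ne'
  exact mk_ne_zero_iff.1 this

/-- recursion along a well-order -/
theorem exists_rec {I : Type} [LinearOrder I] [WellFoundedLT I] {T : Type}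
    (R : (a : I) → ((b : I) → b < a → T) → T → Prop) (h : ∀ a f, ∃ t, R a f t) :
    ∃ D : I → T, ∀ a, R a (fun b _ => D b) (D a) := by
  classical
  let F : (a : I) → ((b : I) → b < a → T) → T := fun a f => Classical.choose (h a f)
  have hF : ∀ a f, R a f (F a f) := fun a f => Classical.choose_spec (h a f)
  let wf : WellFounded (fun x y : I => x < y) := wellFounded_lt
  refine ⟨wf.fix F, fun a => ?_⟩
  have h1 := hF a (fun b _ => wf.fix F b)
  have h2 : wf.fix F a = F a (fun b _ => wf.fix F b) := wf.fix_eq F a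
  rw [h2]
  exact h1

/-! ### Definitions used in the statement -/

/-! ### The spaces -/

/-- Cantor space -/
abbrev Cn : Type := ℕ → Bool

/-- the restriction of `z` to `n` -/
def cut (z : Cn) (n : ℕ) : List Bool := List.ofFn (fun i : Fin n => z i)

/-- The tree of finite 0-1 sequences together with the branches in `Z`. -/
inductive Pt (Z : Set Cn) : Type
  | node : List Bool → Pt Z
  | leaf : Z → Pt Z

instance (Z : Set Cn) : TopologicalSpace (Pt Z) where
  IsOpen U := ∀ z : Z, Pt.leaf z ∈ U → ∀ᶠ n in atTop, Pt.node (cut z n) ∈ U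
  isOpen_univ := fun _ _ => Filter.Eventually.of_forall fun _ => trivial
  isOpen_inter := fun U V hU hV z hz => by
    filter_upwards [hU z hz.1, hV z hz.2] with n h1 h2 using ⟨h1, h2⟩
  isOpen_sUnion := by
    rintro 𝒰 h z ⟨U, hU, hz⟩
    filter_upwards [h U hU z hz] with n hn using ⟨U, hU, hn⟩

theorem isOpen_pt {Z : Set Cn} {U : Set (Pt Z)} :
    IsOpen U ↔ ∀ z : Z, Pt.leaf z ∈ U → ∀ᶠ n in atTop, Pt.node (cut z n) ∈ U := Iff.rfl

theorem cut_length (z : Cn) (n : ℕ) : (cut z n).length = n := by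
  simp [cut]

theorem cut_ne {z w : Cn} {i : ℕ} (h : z i ≠ w i) {n : ℕ} (hn : i < n) (m : ℕ) :
    cut z n ≠ cut w m := by
  intro h1
  have h2 := congrArg List.length h1
  rw [cut_length, cut_length] at h2
  subst h2
  unfold cut at h1
  have h3 := List.ofFn_injective h1
  exact h (congrFun h3 ⟨i, hn⟩)

theorem isClopen_node {Z : Set Cn} (t : List Bool) : IsClopen ({Pt.node t} : Set (Pt Z)) := by
  constructor
  · rw [← isOpen_compl_iff, isOpen_pt]
    intro z _
    filter_upwards [eventually_gt_atTop t.length] with n hn h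
    have h1 : (Pt.node (cut z n) : Pt Z) = Pt.node t := h
    have h2 : cut z n = t := by injection h1
    have h3 := congrArg List.length h2
    rw [cut_length] at h3
    omega
  · rw [isOpen_pt]
    intro z hz
    have h1 : (Pt.leaf z : Pt Z) = Pt.node t := hz
    cases h1

/-- basic neighbourhood of a leaf -/
def lnb {Z : Set Cn} (z : Z) : Set (Pt Z) :=
  insert (Pt.leaf z) (range fun n : ℕ => Pt.node (cut z n))

theorem leaf_mem_lnb {Z : Set Cn} {z z' : Z} (h : Pt.leaf z' ∈ lnb z) : z' = z := by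
  rcases h with h | ⟨n, h⟩
  · have h1 : (Pt.leaf z' : Pt Z) = Pt.leaf z := h
    injection h1
  · cases h

theorem isClopen_lnb {Z : Set Cn} (z : Z) : IsClopen (lnb z) := by
  constructor
  · rw [← isOpen_compl_iff, isOpen_pt]
    intro z' hz'
    have hne : z'.1 ≠ z.1 := by
      intro h
      apply hz'
      have : z' = z := Subtype.ext h
      rw [this]
      exact Or.inl rfl
    obtain ⟨i, hi⟩ := Function.ne_iff.1 hne
    filter_upwards [eventually_gt_atTop i] with n hn h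
    rcases h with h | ⟨m, h⟩
    · cases h
    · have h1 : (Pt.node (cut z m) : Pt Z) = Pt.node (cut z' n) := h
      have h2 : cut z.1 m = cut z'.1 n := by injection h1
      exact cut_ne hi hn m h2.symm
  · rw [isOpen_pt]
    intro z' hz'
    rw [leaf_mem_lnb hz']
    exact Filter.Eventually.of_forall fun n => Or.inr ⟨n, rfl⟩

theorem isCompact_lnb {Z : Set Cn} (z : Z) : IsCompact (lnb z) := by
  have h : Tendsto (fun n : ℕ => (Pt.node (cut z n) : Pt Z)) atTop (𝓝 (Pt.leaf z)) := by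
    rw [tendsto_nhds]
    intro s hs hz
    exact isOpen_pt.1 hs z hz
  exact h.isCompact_insert_range

instance t2Pt (Z : Set Cn) : T2Space (Pt Z) := by
  have key : ∀ x y : Pt Z, x ≠ y → ∃ U : Set (Pt Z), IsClopen U ∧
      ((x ∈ U ∧ y ∉ U) ∨ (y ∈ U ∧ x ∉ U)) := by
    intro x y hxy
    cases x with
    | node t => exact ⟨_, isClopen_node t, Or.inl ⟨rfl, fun h => hxy h.symm⟩⟩
    | leaf z =>
      cases y with
      | node t => exact ⟨_, isClopen_node t, Or.inr ⟨rfl, fun h => hxy h⟩⟩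
      | leaf z' =>
        refine ⟨_, isClopen_lnb z, Or.inl ⟨Or.inl rfl, fun h => hxy ?_⟩⟩
        rw [leaf_mem_lnb h]
  refine ⟨fun x y hxy => ?_⟩
  obtain ⟨U, hU, h | h⟩ := key x y hxy
  · exact ⟨U, Uᶜ, hU.isOpen, hU.compl.isOpen, h.1, h.2, disjoint_compl_right⟩
  · exact ⟨Uᶜ, U, hU.compl.isOpen, hU.isOpen, h.2, h.1, disjoint_compl_left⟩

instance wlcPt (Z : Set Cn) : WeaklyLocallyCompactSpace (Pt Z) := by
  refine ⟨fun x => ?_⟩
  cases x with
  | node t => exact ⟨_, isCompact_singleton, (isClopen_node t).isOpen.mem_nhds rfl⟩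
  | leaf z => exact ⟨_, isCompact_lnb z, (isClopen_lnb z).isOpen.mem_nhds (Or.inl rfl)⟩

/-- the compact space -/
abbrev XZ (Z : Set Cn) : Type := OnePoint (Pt Z)

/-- the big space, with all branches -/
abbrev K : Type := XZ univ

abbrev nd {Z : Set Cn} (t : List Bool) : XZ Z := ((Pt.node t : Pt Z) : OnePoint (Pt Z))
abbrev lf {Z : Set Cn} (z : Z) : XZ Z := ((Pt.leaf z : Pt Z) : OnePoint (Pt Z))
abbrev kl (z : Cn) : K := lf (⟨z, mem_univ z⟩ : (univ : Set Cn))

open Classical in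
/-- the quotient map -/
noncomputable def pr (Z : Set Cn) : K → XZ Z
  | none => OnePoint.infty
  | some (Pt.node t) => nd t
  | some (Pt.leaf z) => if h : z.1 ∈ Z then lf ⟨z.1, h⟩ else OnePoint.infty

theorem pr_infty (Z : Set Cn) : pr Z OnePoint.infty = OnePoint.infty := rfl
theorem pr_nd (Z : Set Cn) (t : List Bool) : pr Z (nd t) = nd t := rfl
theorem pr_kl_mem {Z : Set Cn} {z : Cn} (h : z ∈ Z) : pr Z (kl z) = lf ⟨z, h⟩ := dif_pos h
theorem pr_kl_notMem {Z : Set Cn} {z : Cn} (h : z ∉ Z) : pr Z (kl z) = OnePoint.infty := dif_neg h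

/-- the inclusion of the small tree into the big one -/
def inc (Z : Set Cn) : Pt Z → Pt univ
  | Pt.node t => Pt.node t
  | Pt.leaf z => Pt.leaf ⟨z.1, mem_univ _⟩

theorem continuous_inc (Z : Set Cn) : Continuous (inc Z) := by
  refine continuous_def.2 fun W hW => ?_
  intro z hz
  exact hW ⟨z.1, mem_univ _⟩ hz

theorem pre_pr {Z : Set Cn} {U : Set (XZ Z)} (hU : OnePoint.infty ∈ U) :
    ((fun p : Pt univ => (p : K)) ⁻¹' (pr Z ⁻¹' U)) =
      (inc Z '' ((fun p : Pt Z => (p : XZ Z)) ⁻¹' U)ᶜ)ᶜ := by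
  ext p
  rw [mem_compl_iff, mem_image, not_exists]
  rcases p with t | z
  · constructor
    · rintro h q ⟨hq, he⟩
      rcases q with t' | z'
      · have : t' = t := by injection he
        subst this
        exact hq h
      · exact absurd he (by intro h'; injection h')
    · intro h
      by_contra hc
      exact h (Pt.node t) ⟨hc, rfl⟩
  · constructor
    · rintro h q ⟨hq, he⟩
      rcases q with t' | z'
      · exact absurd he (by intro h'; injection h')
      · have h1 : (⟨z'.1, mem_univ _⟩ : (univ : Set Cn)) = z := by injection he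
        have h2 : z.1 = z'.1 := by rw [← h1]
        have h3 : z.1 ∈ Z := h2 ▸ z'.2
        have h4 : pr Z (kl z.1) ∈ U := h
        rw [pr_kl_mem h3] at h4
        apply hq
        have h5 : z' = ⟨z.1, h3⟩ := Subtype.ext h2.symm
        show lf z' ∈ U
        rw [h5]; exact h4
    · intro h
      by_cases hz : z.1 ∈ Z
      · by_contra hc
        refine h (Pt.leaf ⟨z.1, hz⟩) ⟨?_, rfl⟩
        intro h'
        apply hc
        show pr Z (kl z.1) ∈ U
        rw [pr_kl_mem hz]; exact h'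
      · show pr Z (kl z.1) ∈ U
        rw [pr_kl_notMem hz]; exact hU

theorem continuous_pr (Z : Set Cn) : Continuous (pr Z) := by
  refine continuous_def.2 fun U hU => ?_
  have hU' := OnePoint.isOpen_def.1 hU
  by_cases hi : (OnePoint.infty : XZ Z) ∈ U
  · have hK : IsCompact (inc Z '' ((fun p : Pt Z => (p : XZ Z)) ⁻¹' U)ᶜ) :=
      (hU'.1 hi).image (continuous_inc Z)
    refine OnePoint.isOpen_def.2 ⟨fun _ => ?_, ?_⟩
    · rw [pre_pr hi, compl_compl]; exact hK
    · rw [pre_pr hi]; exact hK.isClosed.isOpen_compl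
  · refine OnePoint.isOpen_def.2 ⟨fun h => absurd h hi, ?_⟩
    intro z hz
    by_cases hzZ : z.1 ∈ Z
    · have h4 : pr Z (kl z.1) ∈ U := hz
      rw [pr_kl_mem hzZ] at h4
      exact hU'.2 ⟨z.1, hzZ⟩ h4
    · have h4 : pr Z (kl z.1) ∈ U := hz
      rw [pr_kl_notMem hzZ] at h4
      exact absurd h4 hi

theorem pr_surj (Z : Set Cn) : Function.Surjective (pr Z) := by
  intro y
  rcases y with _ | p
  · exact ⟨OnePoint.infty, rfl⟩
  · rcases p with t | z
    · exact ⟨nd t, rfl⟩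
    · exact ⟨kl z.1, pr_kl_mem z.2⟩

/-- The functions on the big space which are constant (with the value at infinity) on the branches
outside `W`. -/
def CW (W : Set Cn) : Set (Cp K) := {f | ∀ z : Cn, z ∉ W → f.1 (kl z) = f.1 OnePoint.infty}

theorem CW_mono {W W' : Set Cn} (h : W ⊆ W') : CW W ⊆ CW W' :=
  fun f hf z hz => hf z fun h' => hz (h h')

theorem lift_pr {Z : Set Cn} {f : Cp K} (hf : f ∈ CW Z) :
    ∃ g : Cp (XZ Z), ∀ p, g.1 (pr Z p) = f.1 p := by
  have hq : IsQuotientMap (pr Z) :=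
    ((continuous_pr Z).isClosedMap).isQuotientMap (continuous_pr Z) (pr_surj Z)
  -- f is constant on the fibres
  have key : ∀ p : K, pr Z p = OnePoint.infty → f.1 p = f.1 OnePoint.infty := by
    intro p
    match p with
    | none => intro _; rfl
    | some (Pt.node t) =>
      intro h
      exact absurd (h : nd t = OnePoint.infty) (OnePoint.coe_ne_infty _)
    | some (Pt.leaf z) =>
      intro h
      by_cases hz : z.1 ∈ Z
      · have h1 : pr Z (some (Pt.leaf z)) = lf ⟨z.1, hz⟩ := dif_pos hz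
        rw [h1] at h
        exact absurd h (OnePoint.coe_ne_infty _)
      · exact hf z.1 hz
  have key2 : ∀ p q : K, pr Z p = pr Z q → pr Z p ≠ OnePoint.infty → p = q := by
    intro p q
    match p, q with
    | none, _ => intro _ h; exact absurd rfl h
    | some (Pt.node t), none => intro h h'; exact absurd h h'
    | some (Pt.leaf z), none => intro h h'; exact absurd h h'
    | some (Pt.node t), some (Pt.node s) =>
      intro h _
      have h1 : (Pt.node t : Pt Z) = Pt.node s := OnePoint.coe_injective (h : nd t = nd s)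
      injection h1 with h2
      rw [h2]
    | some (Pt.node t), some (Pt.leaf z) =>
      intro h h'
      by_cases hz : z.1 ∈ Z
      · have h1 : pr Z (some (Pt.leaf z)) = lf ⟨z.1, hz⟩ := dif_pos hz
        rw [h1] at h
        have h2 : (Pt.node t : Pt Z) = Pt.leaf ⟨z.1, hz⟩ := OnePoint.coe_injective h
        cases h2
      · have h1 : pr Z (some (Pt.leaf z)) = OnePoint.infty := dif_neg hz
        rw [h1] at h
        exact absurd h h'
    | some (Pt.leaf z), some (Pt.node t) =>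
      intro h h'
      by_cases hz : z.1 ∈ Z
      · have h1 : pr Z (some (Pt.leaf z)) = lf ⟨z.1, hz⟩ := dif_pos hz
        rw [h1] at h
        have h2 : (Pt.leaf ⟨z.1, hz⟩ : Pt Z) = Pt.node t := OnePoint.coe_injective h
        cases h2
      · have h1 : pr Z (some (Pt.leaf z)) = OnePoint.infty := dif_neg hz
        exact absurd h1 h'
    | some (Pt.leaf z), some (Pt.leaf w) =>
      intro h h'
      by_cases hz : z.1 ∈ Z
      · have h1 : pr Z (some (Pt.leaf z)) = lf ⟨z.1, hz⟩ := dif_pos hz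
        by_cases hw : w.1 ∈ Z
        · have h2 : pr Z (some (Pt.leaf w)) = lf ⟨w.1, hw⟩ := dif_pos hw
          rw [h1, h2] at h
          have h3 : (Pt.leaf ⟨z.1, hz⟩ : Pt Z) = Pt.leaf ⟨w.1, hw⟩ := OnePoint.coe_injective h
          injection h3 with h4
          have h5 : z.1 = w.1 := congrArg (fun t : Z => t.1) h4
          rw [Subtype.ext h5]
        · have h2 : pr Z (some (Pt.leaf w)) = OnePoint.infty := dif_neg hw
          rw [h2] at h
          exact absurd h h'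
      · have h1 : pr Z (some (Pt.leaf z)) = OnePoint.infty := dif_neg hz
        exact absurd h1 h'
  have hconst : ∀ p q : K, pr Z p = pr Z q → f.1 p = f.1 q := by
    intro p q h
    by_cases hi : pr Z p = OnePoint.infty
    · rw [key p hi, key q (h ▸ hi)]
    · rw [key2 p q h hi]
  refine ⟨⟨fun x => f.1 (Function.surjInv (pr_surj Z) x), ?_⟩, fun p => ?_⟩
  · rw [hq.continuous_iff]
    have : (fun x => f.1 (Function.surjInv (pr_surj Z) x)) ∘ pr Z = f.1 := by
      ext p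
      exact hconst _ _ (Function.surjInv_eq (pr_surj Z) (pr Z p))
    rw [this]
    exact f.2
  · exact hconst _ _ (Function.surjInv_eq (pr_surj Z) (pr Z p))

theorem comp_pr_mem {Z : Set Cn} (g : Cp (XZ Z)) :
    (⟨fun p => g.1 (pr Z p), g.2.comp (continuous_pr Z)⟩ : Cp K) ∈ CW Z := by
  intro z hz
  show g.1 (pr Z (kl z)) = g.1 (pr Z OnePoint.infty)
  rw [pr_kl_notMem hz, pr_infty]

theorem finite_big (f : Cp K) {ε : ℝ} (hε : 0 < ε) :
    {z : Cn | ε ≤ |f.1 (kl z) - f.1 OnePoint.infty|}.Finite := by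
  classical
  let A : Set K := {p | ε ≤ |f.1 p - f.1 OnePoint.infty|}
  have hA : IsClosed A :=
    isClosed_le continuous_const ((f.2.sub continuous_const).abs)
  have hAc : IsCompact A := hA.isCompact
  let U : List Bool ⊕ Cn → Set (Pt (univ : Set Cn)) := fun i => match i with
    | Sum.inl t => {Pt.node t}
    | Sum.inr z => {p | p = Pt.leaf ⟨z, mem_univ z⟩ ∨ ∃ n, p = Pt.node (cut z n)}
  have hUo : ∀ i, IsOpen (U i) := by
    rintro (t | z)
    · rw [isOpen_pt]
      intro z hz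
      have h1 : (Pt.leaf z : Pt (univ : Set Cn)) = Pt.node t := hz
      exact absurd h1 (by simp)
    · rw [isOpen_pt]
      intro z' hz'
      have h1 : (Pt.leaf z' : Pt (univ : Set Cn)) = Pt.leaf ⟨z, mem_univ z⟩ ∨
        ∃ n, (Pt.leaf z' : Pt (univ : Set Cn)) = Pt.node (cut z n) := hz'
      rcases h1 with h1 | ⟨n, h1⟩
      · have h2 : z' = ⟨z, mem_univ z⟩ := by injection h1
        refine Filter.Eventually.of_forall fun n => Or.inr ⟨n, ?_⟩
        rw [h2]
      · exact absurd h1 (by simp)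
  let V : List Bool ⊕ Cn → Set K := fun i => (fun p : Pt (univ : Set Cn) => (p : K)) '' U i
  have hVo : ∀ i, IsOpen (V i) := fun i => OnePoint.isOpen_image_coe.2 (hUo i)
  have hcov : A ⊆ ⋃ i, V i := by
    intro p hp
    rcases OnePoint.ne_infty_iff_exists.1 (show p ≠ OnePoint.infty by
      rintro rfl
      have h1 : ε ≤ |f.1 OnePoint.infty - f.1 OnePoint.infty| := hp
      rw [sub_self, abs_zero] at h1
      exact absurd h1 (not_le.2 hε)) with ⟨q, rfl⟩
    rw [mem_iUnion]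
    cases q with
    | node t => exact ⟨Sum.inl t, Pt.node t, rfl, rfl⟩
    | leaf z => exact ⟨Sum.inr z.1, Pt.leaf z, Or.inl rfl, rfl⟩
  obtain ⟨s, hs⟩ := hAc.elim_finite_subcover V hVo hcov
  refine (s.preimage Sum.inr Sum.inr_injective.injOn).finite_toSet.subset ?_
  intro z hz
  have h1 : kl z ∈ ⋃ i ∈ s, V i := hs hz
  rw [mem_iUnion₂] at h1
  obtain ⟨i, hi, q, hq, hqz⟩ := h1
  have h2 : q = Pt.leaf ⟨z, mem_univ z⟩ := OnePoint.coe_injective hqz
  rw [Finset.mem_coe, Finset.mem_preimage]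
  rcases i with t | z'
  · have h3 : q = Pt.node t := hq
    rw [h2] at h3
    exact absurd h3 (by simp)
  · have h3 : q = Pt.leaf ⟨z', mem_univ z'⟩ ∨ ∃ n, q = Pt.node (cut z' n) := hq
    rw [h2] at h3
    rcases h3 with h3 | ⟨n, h3⟩
    · have h4 : z = z' := by
        injection h3 with h5
        exact congrArg Subtype.val h5
      rw [h4]
      exact hi
    · exact absurd h3 (by simp)

theorem card_Cp_tendsto {Z : Set Cn} (z : Z) :
    Tendsto (fun n => (nd (cut z n) : XZ Z)) atTop (𝓝 (lf z)) := by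
  have h1 : Tendsto (fun n => (Pt.node (cut z n) : Pt Z)) atTop (𝓝 (Pt.leaf z)) := by
    rw [tendsto_nhds]
    intro U hU hz
    exact isOpen_pt.1 hU z hz
  exact (OnePoint.continuous_coe.tendsto (Pt.leaf z)).comp h1

theorem card_Cp_inj (Z : Set Cn) : Function.Injective
    (fun f : Cp (XZ Z) => ((fun t : List Bool => f.1 (nd t)), f.1 OnePoint.infty)) := by
  intro f g hfg
  have h1 : (fun t : List Bool => f.1 (nd t)) = fun t : List Bool => g.1 (nd t) :=
    congrArg Prod.fst hfg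
  have h2 : f.1 OnePoint.infty = g.1 OnePoint.infty := congrArg Prod.snd hfg
  apply Subtype.ext
  funext x
  rcases x with _ | x
  · exact h2
  · rcases x with t | z
    · exact congrFun h1 t
    · have e1 : Tendsto (fun n => f.1 (nd (cut z n))) atTop (𝓝 (f.1 (lf z))) :=
        (f.2.tendsto (lf z)).comp (card_Cp_tendsto z)
      have e2 : Tendsto (fun n => g.1 (nd (cut z n))) atTop (𝓝 (g.1 (lf z))) :=
        (g.2.tendsto (lf z)).comp (card_Cp_tendsto z)
      have e3 : (fun n => f.1 (nd (cut z n))) = fun n => g.1 (nd (cut z n)) :=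
        funext fun n => congrFun h1 (cut z n)
      rw [e3] at e1
      exact tendsto_nhds_unique e1 e2

theorem card_Cp (Z : Set Cn) : #(Cp (XZ Z)) ≤ 𝔠 := by
  refine (Cardinal.mk_le_of_injective (card_Cp_inj Z)).trans ?_
  have h1 : #(List Bool → ℝ) ≤ 𝔠 := by
    rw [← Cardinal.power_def, Cardinal.mk_real]
    calc (𝔠 : Cardinal.{0}) ^ #(List Bool) ≤ 𝔠 ^ ℵ₀ :=
          Cardinal.power_le_power_left Cardinal.continuum_ne_zero Cardinal.mk_le_aleph0
      _ = 𝔠 := Cardinal.continuum_power_aleph0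
  rw [Cardinal.mk_prod, Cardinal.lift_id, Cardinal.lift_id, Cardinal.mk_real]
  calc #(List Bool → ℝ) * 𝔠 ≤ 𝔠 * 𝔠 := mul_le_mul' h1 le_rfl
    _ = 𝔠 := Cardinal.continuum_mul_self

theorem cutinj_14097 {z y : Cn} {n m : ℕ} (h : cut z n = cut y m) :
    n = m ∧ ∀ i < n, z i = y i := by
  have h1 : n = m := by
    have := congrArg List.length h
    simpa [cut] using this
  subst h1
  refine ⟨rfl, fun i hi => ?_⟩
  have h2 : (fun i : Fin n => z i) = fun i : Fin n => y i := List.ofFn_injective h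
  exact congrFun h2 ⟨i, hi⟩

theorem cuteq_14097 {z y : Cn} {n : ℕ} (h : ∀ i < n, z i = y i) : cut z n = cut y n := by
  unfold cut
  congr 1
  funext i
  exact h i i.2

theorem ev_14097 {z y : Cn} (h : z ≠ y) : ∀ᶠ n in atTop, ∀ m, cut z n ≠ cut y m := by
  obtain ⟨i, hi⟩ : ∃ i, z i ≠ y i := by
    by_contra hcon
    push Not at hcon
    exact h (funext hcon)
  filter_upwards [eventually_gt_atTop i] with n hn m hnm
  exact hi ((cutinj_14097 hnm).2 i hn)

/-- the clopen set of a branch -/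
def US_14097 {Z : Set Cn} (z : Z) : Set (Pt Z) :=
  insert (Pt.leaf z) (range fun n => Pt.node (cut z n))

theorem USopen_14097 {Z : Set Cn} (z : Z) : IsOpen (US_14097 z) := by
  rw [isOpen_pt]
  intro z' hz'
  have : z' = z := by
    rcases hz' with h | ⟨n, h⟩
    · exact Pt.leaf.inj h
    · cases h
  subst this
  exact Filter.Eventually.of_forall fun n => Or.inr ⟨n, rfl⟩

theorem USclosed_14097 {Z : Set Cn} (z : Z) : IsClosed (US_14097 z) := by
  rw [← isOpen_compl_iff, isOpen_pt]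
  intro z' hz'
  have hne : z'.1 ≠ z.1 := by
    intro h
    apply hz'
    have : z' = z := Subtype.ext h
    rw [this]
    exact Or.inl rfl
  filter_upwards [ev_14097 hne] with n hn hmem
  rcases hmem with h | ⟨m, h⟩
  · cases h
  · exact hn m (Pt.node.inj h).symm

theorem tends_14097 {Z : Set Cn} (z : Z) :
    Tendsto (fun n => (Pt.node (cut z n) : Pt Z)) atTop (𝓝 (Pt.leaf z)) := by
  rw [tendsto_nhds]
  intro U hU hz
  exact isOpen_pt.mp hU z hz

theorem UScpt_14097 {Z : Set Cn} (z : Z) : IsCompact (US_14097 z) :=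
  (tends_14097 z).isCompact_insert_range

theorem USclopen_14097 {Z : Set Cn} (z : Z) :
    IsClopen (((↑) : Pt Z → XZ Z) '' US_14097 z) :=
  ⟨OnePoint.isClosed_image_coe.mpr ⟨USclosed_14097 z, UScpt_14097 z⟩,
    OnePoint.isOpen_image_coe.mpr (USopen_14097 z)⟩

open Classical in
/-- the indicator function of a branch -/
noncomputable def ez_14097 {Z : Set Cn} (z : Z) : Cp (XZ Z) :=
  ⟨fun x => if x ∈ ((↑) : Pt Z → XZ Z) '' US_14097 z then (1 : ℝ) else 0, by
    apply Continuous.if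
    · intro a ha
      have h1 : frontier {x | x ∈ ((↑) : Pt Z → XZ Z) '' US_14097 z} = ∅ :=
        (USclopen_14097 z).frontier_eq
      rw [h1] at ha
      exact absurd ha (notMem_empty a)
    · exact continuous_const
    · exact continuous_const⟩

open Classical in
theorem ezinf_14097 {Z : Set Cn} (z : Z) : (ez_14097 z).1 OnePoint.infty = 0 := by
  have h0 : OnePoint.infty ∉ ((↑) : Pt Z → XZ Z) '' US_14097 z := by
    rintro ⟨p, _, hp⟩
    exact OnePoint.coe_ne_infty p hp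
  exact if_neg h0

open Classical in
theorem eznd_14097 {Z : Set Cn} (z : Z) (n : ℕ) : (ez_14097 z).1 (nd (cut z n)) = 1 := by
  have h0 : nd (cut z n) ∈ ((↑) : Pt Z → XZ Z) '' US_14097 z :=
    ⟨Pt.node (cut z n), Or.inr ⟨n, rfl⟩, rfl⟩
  exact if_pos h0

open Classical in
theorem ezlf_14097 {Z : Set Cn} (z y : Z) (h : z ≠ y) : (ez_14097 z).1 (lf y) = 0 := by
  have h0 : lf y ∉ ((↑) : Pt Z → XZ Z) '' US_14097 z := by
    rintro ⟨p, hp, hpy⟩
    have h1 : p = Pt.leaf y := OnePoint.coe_injective hpy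
    rw [h1] at hp
    rcases hp with h2 | ⟨n, h2⟩
    · exact h (Pt.leaf.inj h2).symm
    · cases h2
  exact if_neg h0

theorem evalc_14097 {X : Type} [TopologicalSpace X] (x : X) : Continuous (fun g : Cp X => g.1 x) :=
  (continuous_apply x).comp continuous_subtype_val

theorem not_lindelof {Z : Set Cn} (hZ : ¬ Z.Countable) : ¬ LindelofSpace (Cp (XZ Z)) := by
  intro hL
  -- a complete accumulation point
  obtain ⟨f, hf⟩ : ∃ f : Cp (XZ Z), ∀ U : Set (Cp (XZ Z)), IsOpen U → f ∈ U →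
      ¬ {z : Z | ez_14097 z ∈ U}.Countable := by
    by_contra hcon
    push Not at hcon
    choose U hU1 hU2 hU3 using hcon
    obtain ⟨r, hr1, hr2⟩ := isLindelof_univ.elim_countable_subcover U hU1
      (fun f _ => mem_iUnion.mpr ⟨f, hU2 f⟩)
    apply hZ
    rw [← Set.countable_coe_iff, ← Set.countable_univ_iff]
    refine (Set.Countable.biUnion hr1 fun i _ => hU3 i).mono ?_
    intro z _
    have h1 := hr2 (mem_univ (ez_14097 z))
    rw [mem_iUnion₂] at h1 ⊢
    exact h1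
  -- the accumulation point in the Cantor space
  obtain ⟨y, hy⟩ : ∃ y : Cn, ∀ V : Set Cn, IsOpen V → y ∈ V → ∀ U : Set (Cp (XZ Z)), IsOpen U →
      f ∈ U → ¬ {z : Z | z.1 ∈ V ∧ ez_14097 z ∈ U}.Countable := by
    by_contra hcon
    push Not at hcon
    choose V hV1 hV2 U hU1 hU2 hU3 using hcon
    obtain ⟨t, ht⟩ := CompactSpace.elim_nhds_subcover V (fun y => (hV1 y).mem_nhds (hV2 y))
    apply hf (⋂ y ∈ t, U y) (isOpen_biInter_finset fun y _ => hU1 y)
      (mem_iInter₂.mpr fun y _ => hU2 y)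
    refine (Set.Countable.biUnion t.countable_toSet fun y _ => hU3 y).mono ?_
    intro z hz
    have hz' : ∀ y ∈ t, ez_14097 z ∈ U y := mem_iInter₂.mp hz
    have h1 : z.1 ∈ ⋃ x ∈ t, V x := by
      rw [ht]
      trivial
    obtain ⟨x, hx, hzx⟩ := mem_iUnion₂.mp h1
    exact mem_iUnion₂.mpr ⟨x, hx, hzx, hz' x hx⟩
  have hex : ∀ V : Set Cn, IsOpen V → y ∈ V → ∀ U : Set (Cp (XZ Z)), IsOpen U →
      f ∈ U → ∃ z : Z, z.1 ∈ V ∧ ez_14097 z ∈ U := by
    intro V hV hyV U hU hfU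
    by_contra hcon
    push Not at hcon
    apply hy V hV hyV U hU hfU
    have : {z : Z | z.1 ∈ V ∧ ez_14097 z ∈ U} = ∅ := by
      ext z
      simp only [mem_ofPred_eq, mem_empty_iff_false, iff_false, not_and]
      exact hcon z
    rw [this]
    exact countable_empty
  have hfnd : ∀ k, f.1 (nd (cut y k)) = 1 := by
    intro k
    by_contra hne
    obtain ⟨z, hz1, hz2⟩ := hex {z | ∀ i ∈ Finset.range k, z i = y i} (by
      have : {z : Cn | ∀ i ∈ Finset.range k, z i = y i} =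
          ⋂ i ∈ Finset.range k, {z : Cn | z i = y i} := by
        ext z
        simp
      rw [this]
      refine isOpen_biInter_finset fun i _ => ?_
      have h0 : Continuous (fun z : Cn => z i) := continuous_apply i
      exact (isOpen_discrete ({y i} : Set Bool)).preimage h0) (fun i _ => rfl)
      {g | g.1 (nd (cut y k)) ≠ 1} (isOpen_ne_fun (evalc_14097 _) continuous_const) hne
    apply hz2
    have h1 : cut y k = cut z k :=
      cuteq_14097 fun i hi => (hz1 i (Finset.mem_range.mpr hi)).symm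
    rw [h1]
    exact eznd_14097 z k
  have hfinf : f.1 OnePoint.infty = 0 := by
    by_contra hne
    obtain ⟨z, _, hz2⟩ := hex univ isOpen_univ (mem_univ y)
      {g | g.1 OnePoint.infty ≠ 0} (isOpen_ne_fun (evalc_14097 _) continuous_const) hne
    exact hz2 (ezinf_14097 z)
  by_cases hyZ : y ∈ Z
  · -- the branch is in Z
    have h1 : Tendsto (fun n => (nd (cut y n) : XZ Z)) atTop (𝓝 (lf ⟨y, hyZ⟩)) :=
      (OnePoint.continuous_coe.tendsto _).comp (tends_14097 ⟨y, hyZ⟩)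
    have h2 : Tendsto (fun n => f.1 (nd (cut y n))) atTop (𝓝 (f.1 (lf ⟨y, hyZ⟩))) :=
      (f.2.tendsto _).comp h1
    have h3 : f.1 (lf ⟨y, hyZ⟩) = 1 := by
      apply tendsto_nhds_unique h2
      simp only [hfnd]
      exact tendsto_const_nhds
    apply hf {g | 1 / 2 < g.1 (lf ⟨y, hyZ⟩)} (isOpen_lt continuous_const (evalc_14097 _))
      (by rw [mem_ofPred_eq, h3]; norm_num)
    refine (countable_singleton (⟨y, hyZ⟩ : Z)).mono ?_
    intro z hz
    by_contra hne
    have hz' : 1 / 2 < (ez_14097 z).1 (lf ⟨y, hyZ⟩) := hz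
    rw [ezlf_14097 z ⟨y, hyZ⟩ hne] at hz'
    norm_num at hz'
  · -- the branch is not in Z
    have hcl : IsClosed {x : XZ Z | 1 / 2 ≤ f.1 x} := isClosed_le continuous_const f.2
    have hmem : ∀ k, (nd (cut y k) : XZ Z) ∈ {x : XZ Z | 1 / 2 ≤ f.1 x} := by
      intro k
      rw [mem_ofPred_eq, hfnd]
      norm_num
    have hle : Filter.map (fun k => (nd (cut y k) : XZ Z)) atTop ≤ 𝓟 {x : XZ Z | 1 / 2 ≤ f.1 x} := by
      rw [le_principal_iff, mem_map]
      exact Filter.univ_mem' hmem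
    obtain ⟨p, hp, hcp⟩ := hcl.isCompact hle
    have hfreq : ∀ S ∈ 𝓝 p, ∃ᶠ k in atTop, (nd (cut y k) : XZ Z) ∈ S := by
      intro S hS
      exact (mapClusterPt_iff_frequently.mp hcp) S hS
    induction p using OnePoint.rec with
    | infty =>
      rw [mem_ofPred_eq, hfinf] at hp
      norm_num at hp
    | coe q =>
      cases q with
      | node t =>
        have hS : ({(nd t : XZ Z)} : Set (XZ Z)) ∈ 𝓝 (nd t : XZ Z) := by
          have h1 : IsOpen ({Pt.node t} : Set (Pt Z)) := by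
            rw [isOpen_pt]
            intro z hz
            cases hz
          have h2 := OnePoint.isOpen_image_coe.mpr h1
          rw [image_singleton] at h2
          exact h2.mem_nhds rfl
        have h1 := hfreq _ hS
        have h2 : ∀ᶠ k in atTop, (nd (cut y k) : XZ Z) ∉ ({(nd t : XZ Z)} : Set (XZ Z)) := by
          filter_upwards [eventually_gt_atTop t.length] with k hk hmem
          have h3 : (Pt.node (cut y k) : Pt Z) = Pt.node t := OnePoint.coe_injective hmem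
          have h4 := congrArg List.length (Pt.node.inj h3)
          simp only [cut, List.length_ofFn] at h4
          omega
        exact h1 h2
      | leaf z =>
        have hS : ((↑) : Pt Z → XZ Z) '' US_14097 z ∈ 𝓝 (lf z : XZ Z) :=
          (USclopen_14097 z).isOpen.mem_nhds ⟨Pt.leaf z, Or.inl rfl, rfl⟩
        have h1 := hfreq _ hS
        have hne : y ≠ z.1 := fun h => hyZ (h ▸ z.2)
        have h2 : ∀ᶠ k in atTop, (nd (cut y k) : XZ Z) ∉ ((↑) : Pt Z → XZ Z) '' US_14097 z := by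
          filter_upwards [ev_14097 hne] with k hk hmem
          obtain ⟨q, hq, hq2⟩ := hmem
          have h3 : q = Pt.node (cut y k) := OnePoint.coe_injective hq2
          rw [h3] at hq
          rcases hq with h4 | ⟨m, h4⟩
          · cases h4
          · exact hk m (Pt.node.inj h4).symm
        exact h1 h2

theorem not_monolithic {Z : Set Cn} (hZ : ¬ Z.Countable) : ¬ OmegaMonolithic (XZ Z) := by
  intro h
  let A : Set (XZ Z) := range (fun t : List Bool => (nd t : XZ Z))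
  obtain ⟨N, hNc, hN⟩ := h A (countable_range _)
  have hcl : ∀ z : Z, (lf z : XZ Z) ∈ closure A := by
    intro z
    rw [mem_closure_iff]
    intro O hO hz
    have h1 : IsOpen ((fun p : Pt Z => (p : OnePoint (Pt Z))) ⁻¹' O) :=
      hO.preimage OnePoint.continuous_coe
    obtain ⟨n, hn⟩ := (isOpen_pt.1 h1 z hz).exists
    exact ⟨nd (cut z n), hn, ⟨_, rfl⟩⟩
  let V : Z → Set (Pt Z) := fun z => {p | p = Pt.leaf z ∨ ∃ n, p = Pt.node (cut z n)}
  have hV : ∀ z, IsOpen (V z) := by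
    intro z
    rw [isOpen_pt]
    intro w hw
    rcases hw with hw | ⟨n, hn⟩
    · have hwz : w = z := by
        injection hw
      subst hwz
      exact Filter.Eventually.of_forall fun n => Or.inr ⟨n, rfl⟩
    · exact absurd hn (by simp)
  let O : Z → Set (XZ Z) := fun z => (fun p : Pt Z => (p : OnePoint (Pt Z))) '' V z
  have hO : ∀ z, IsOpen (O z) := fun z => OnePoint.isOpenEmbedding_coe.isOpenMap _ (hV z)
  have h2 : ∀ z : Z, ∃ M ∈ N, (⟨lf z, hcl z⟩ : closure A) ∈ M ∧ M ⊆ Subtype.val ⁻¹' O z :=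
    fun z => hN (Subtype.val ⁻¹' O z) ((hO z).preimage continuous_subtype_val) ⟨lf z, hcl z⟩
      ⟨Pt.leaf z, Or.inl rfl, rfl⟩
  choose M hM1 hM2 hM3 using h2
  apply hZ
  have hinj : Function.Injective (fun z : Z => (⟨M z, hM1 z⟩ : N)) := by
    intro z z' hzz
    have h3 : M z = M z' := congrArg Subtype.val hzz
    have h4 : (⟨lf z, hcl z⟩ : closure A) ∈ M z' := h3 ▸ hM2 z
    obtain ⟨p, hp, hpe⟩ := hM3 z' h4
    have h5 : p = Pt.leaf z := OnePoint.coe_injective hpe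
    rw [h5] at hp
    rcases hp with h6 | ⟨n, hn⟩
    · injection h6
    · exact absurd hn (by simp)
  have hc : Countable N := hNc.to_subtype
  have : Countable Z := hinj.countable
  exact Set.countable_coe_iff.1 this

/-! ### Codes for continuous functions on `C_p(X)` -/

/-- a finite box with rational sides, and a rational interval -/
abbrev Cond : Type := Finset (ℕ × ℚ × ℚ) × ℚ × ℚ

/-- `x` is in the box `V` -/
def InBox (V : Finset (ℕ × ℚ × ℚ)) (x : ℕ → ℝ) : Prop :=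
  ∀ e ∈ V, (e.2.1 : ℝ) < x e.1 ∧ x e.1 < (e.2.2 : ℝ)

/-- box over `X` -/
def InX {X : Type} [TopologicalSpace X] (V : Finset (X × ℚ × ℚ)) (f : Cp X) : Prop :=
  ∀ e ∈ V, (e.2.1 : ℝ) < f.1 e.1 ∧ f.1 e.1 < (e.2.2 : ℝ)

theorem box_nhds {X : Type} [TopologicalSpace X] (O : Set (Cp X)) (hO : IsOpen O) (f : Cp X)
    (hf : f ∈ O) : ∃ U : Finset (X × ℚ × ℚ), InX U f ∧ ∀ g, InX U g → g ∈ O := by
  classical
  obtain ⟨O', hO', rfl⟩ := isOpen_induced_iff.1 hO
  obtain ⟨I, u, hu, hI⟩ := isOpen_pi_iff.1 hO' f.1 hf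
  have h1 : ∀ i : X, ∃ r : ℚ × ℚ, i ∈ I → ((r.1 : ℝ) < f.1 i ∧ f.1 i < (r.2 : ℝ) ∧
      ∀ y : ℝ, (r.1 : ℝ) < y → y < (r.2 : ℝ) → y ∈ u i) := by
    intro i
    by_cases hi : i ∈ I
    · obtain ⟨ε, hε, hb⟩ := Metric.isOpen_iff.1 (hu i hi).1 (f.1 i) (hu i hi).2
      obtain ⟨p, hp1, hp2⟩ := exists_rat_btwn (show f.1 i - ε < f.1 i by linarith)
      obtain ⟨q, hq1, hq2⟩ := exists_rat_btwn (show f.1 i < f.1 i + ε by linarith)
      refine ⟨(p, q), fun _ => ⟨hp2, hq1, fun y hy1 hy2 => hb ?_⟩⟩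
      rw [Metric.mem_ball, Real.dist_eq, abs_lt]
      constructor
      · have : (p : ℝ) < y := hy1
        linarith
      · have : y < (q : ℝ) := hy2
        linarith
    · exact ⟨(0, 0), fun h => absurd h hi⟩
  choose r hr using h1
  refine ⟨I.image (fun i => (i, r i)), ?_, ?_⟩
  · intro e he
    obtain ⟨i, hi, rfl⟩ := Finset.mem_image.1 he
    exact ⟨(hr i hi).1, (hr i hi).2.1⟩
  · intro g hg
    show g.1 ∈ O'
    apply hI
    intro i hi
    have h2 := hg (i, r i) (Finset.mem_image.2 ⟨i, hi, rfl⟩)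
    exact (hr i hi).2.2 _ h2.1 h2.2

theorem exW {X : Type} [TopologicalSpace X] (ψ : Cp X → ℝ) (hψ : Continuous ψ)
    (V : Finset (X × ℚ × ℚ)) (q : ℚ) :
    ∃ W : Finset (X × ℚ × ℚ), (∃ f, InX V f ∧ (q : ℝ) < ψ f) →
      (∃ f, InX V f ∧ InX W f) ∧ ∀ g, InX W g → (q : ℝ) < ψ g := by
  by_cases h : ∃ f, InX V f ∧ (q : ℝ) < ψ f
  · obtain ⟨f, hf1, hf2⟩ := h
    obtain ⟨W, hW1, hW2⟩ := box_nhds (ψ ⁻¹' Set.Ioi (q : ℝ)) (isOpen_Ioi.preimage hψ) f hf2
    exact ⟨W, fun _ => ⟨⟨f, hf1, hW1⟩, hW2⟩⟩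
  · exact ⟨∅, fun h' => absurd h' h⟩

theorem countable_boxes {X : Type} (S : Set X) (hS : S.Countable) :
    {V : Finset (X × ℚ × ℚ) | ∀ e ∈ V, e.1 ∈ S}.Countable := by
  classical
  haveI : Countable S := hS.to_subtype
  refine (Set.countable_range
    (fun U : Finset (S × ℚ × ℚ) => U.image (fun e => ((e.1 : X), e.2)))).mono ?_
  intro V hV
  refine ⟨V.attach.image (fun e => ((⟨e.1.1, hV e.1 e.2⟩ : S), e.1.2)), ?_⟩
  ext e
  simp only [Finset.mem_image, Finset.mem_attach, true_and]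
  constructor
  · rintro ⟨a, ⟨b, rfl⟩, rfl⟩
    exact b.2
  · intro he
    exact ⟨_, ⟨⟨e, he⟩, rfl⟩, rfl⟩

theorem closing {X : Type} (x0 : X) (F : Finset (X × ℚ × ℚ) → ℚ → Finset (X × ℚ × ℚ)) :
    ∃ S : Set X, S.Countable ∧ x0 ∈ S ∧
      ∀ V : Finset (X × ℚ × ℚ), (∀ e ∈ V, e.1 ∈ S) → ∀ q, ∀ e ∈ F V q, e.1 ∈ S := by
  classical
  let st : Set X → Set X := fun T => T ∪ {x | ∃ V ∈ {V : Finset (X × ℚ × ℚ) | ∀ e ∈ V, e.1 ∈ T},
    ∃ q, ∃ e ∈ F V q, e.1 = x}
  have hst : ∀ T : Set X, T.Countable → (st T).Countable := by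
    intro T hT
    refine hT.union ?_
    have h1 := countable_boxes T hT
    have h2 : {x | ∃ V ∈ {V : Finset (X × ℚ × ℚ) | ∀ e ∈ V, e.1 ∈ T},
        ∃ q, ∃ e ∈ F V q, e.1 = x} =
        ⋃ V ∈ {V : Finset (X × ℚ × ℚ) | ∀ e ∈ V, e.1 ∈ T}, ⋃ q : ℚ,
          (((F V q).image (fun e => e.1) : Finset X) : Set X) := by
      ext x
      simp only [Set.mem_setOf_eq, Set.mem_iUnion, Finset.coe_image, Set.mem_image,
        Finset.mem_coe, exists_prop]
    rw [h2]
    refine h1.biUnion fun V _ => Set.countable_iUnion fun q => ?_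
    exact (Finset.finite_toSet _).countable
  let T : ℕ → Set X := fun n => Nat.rec {x0} (fun _ A => st A) n
  have hT0 : T 0 = {x0} := rfl
  have hTs : ∀ n, T (n + 1) = st (T n) := fun n => rfl
  have hTc : ∀ n, (T n).Countable := by
    intro n
    induction n with
    | zero => rw [hT0]; exact Set.countable_singleton _
    | succ n ih => rw [hTs]; exact hst _ ih
  have hTm : Monotone T := monotone_nat_of_le_succ fun n => by
    rw [hTs]; exact Set.subset_union_left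
  refine ⟨⋃ n, T n, Set.countable_iUnion hTc, Set.mem_iUnion.2 ⟨0, by rw [hT0]; rfl⟩, ?_⟩
  intro V hV q e he
  have h1 : ∀ a : X × ℚ × ℚ, ∃ n, a ∈ V → a.1 ∈ T n := by
    intro a
    by_cases ha : a ∈ V
    · obtain ⟨n, hn⟩ := Set.mem_iUnion.1 (hV a ha)
      exact ⟨n, fun _ => hn⟩
    · exact ⟨0, fun h => absurd h ha⟩
  choose n hn using h1
  refine Set.mem_iUnion.2 ⟨V.sup n + 1, ?_⟩
  rw [hTs]
  right
  exact ⟨V, fun a ha => hTm (Finset.le_sup ha) (hn a ha), q, e, he, rfl⟩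

theorem glue {X : Type} [TopologicalSpace X] [CompactSpace X] [T2Space X]
    (A B : Finset X) (hAB : Disjoint A B) (g f : Cp X) :
    ∃ h : Cp X, (∀ x ∈ A, h.1 x = g.1 x) ∧ ∀ x ∈ B, h.1 x = f.1 x := by
  obtain ⟨χ, h0, h1, _⟩ := exists_continuous_zero_one_of_isClosed
    (s := (B : Set X)) (t := (A : Set X)) B.finite_toSet.isClosed A.finite_toSet.isClosed
    (by
      rw [Finset.disjoint_coe]
      exact hAB.symm)
  refine ⟨⟨fun x => χ x * g.1 x + (1 - χ x) * f.1 x, by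
    exact (χ.continuous.mul g.2).add ((continuous_const.sub χ.continuous).mul f.2)⟩, ?_, ?_⟩
  · intro x hx
    have := h1 (Finset.mem_coe.2 hx)
    show χ x * g.1 x + (1 - χ x) * f.1 x = g.1 x
    rw [this]; simp
  · intro x hx
    have := h0 (Finset.mem_coe.2 hx)
    show χ x * g.1 x + (1 - χ x) * f.1 x = f.1 x
    rw [this]; simp

open Classical in
theorem half {X : Type} [TopologicalSpace X] [CompactSpace X] [T2Space X]
    (ψ : Cp X → ℝ) (S : Set X) (Wf : Finset (X × ℚ × ℚ) → ℚ → Finset (X × ℚ × ℚ))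
    (hW : ∀ (V : Finset (X × ℚ × ℚ)) (q : ℚ), (∃ f, InX V f ∧ (q : ℝ) < ψ f) →
      (∃ f, InX V f ∧ InX (Wf V q) f) ∧ ∀ g, InX (Wf V q) g → (q : ℝ) < ψ g)
    (hS : ∀ V : Finset (X × ℚ × ℚ), (∀ e ∈ V, e.1 ∈ S) → ∀ q, ∀ e ∈ Wf V q, e.1 ∈ S)
    (U : Finset (X × ℚ × ℚ)) (f : Cp X) (hf : InX U f) (q : ℚ)
    (hU : ∀ g, InX U g → ψ g < (q : ℝ)) (g : Cp X)
    (hg : InX (U.filter (fun e => e.1 ∈ S)) g) : ψ g ≤ (q : ℝ) := by
  by_contra hcon
  push Not at hcon
  set V := U.filter (fun e => e.1 ∈ S) with hV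
  obtain ⟨⟨g1, hg1, hg2⟩, hW2⟩ := hW V q ⟨g, hg, hcon⟩
  have hVS : ∀ e ∈ V, e.1 ∈ S := fun e he => (Finset.mem_filter.1 he).2
  have hWS := hS V hVS q
  obtain ⟨h, hh1, hh2⟩ := glue ((V ∪ Wf V q).image (fun e => e.1))
    ((U.filter (fun e => e.1 ∉ S)).image (fun e => e.1)) (by
      rw [Finset.disjoint_left]
      intro x hx hx'
      obtain ⟨e, he, rfl⟩ := Finset.mem_image.1 hx
      obtain ⟨e', he', he''⟩ := Finset.mem_image.1 hx'
      have h1 := (Finset.mem_filter.1 he').2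
      rw [he''] at h1
      rcases Finset.mem_union.1 he with h2 | h2
      · exact h1 (hVS e h2)
      · exact h1 (hWS e h2)) g1 f
  have h3 : InX (Wf V q) h := by
    intro e he
    rw [hh1 e.1 (Finset.mem_image.2 ⟨e, Finset.mem_union_right _ he, rfl⟩)]
    exact hg2 e he
  have h4 : InX U h := by
    intro e he
    by_cases heS : e.1 ∈ S
    · have heV : e ∈ V := Finset.mem_filter.2 ⟨he, heS⟩
      rw [hh1 e.1 (Finset.mem_image.2 ⟨e, Finset.mem_union_left _ heV, rfl⟩)]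
      exact hg1 e heV
    · rw [hh2 e.1 (Finset.mem_image.2 ⟨e, Finset.mem_filter.2 ⟨he, heS⟩, rfl⟩)]
      exact hf e he
  exact absurd (hU h h4) (not_lt.2 (hW2 h h3).le)

theorem exists_code {X : Type} [TopologicalSpace X] [CompactSpace X] [T2Space X] [Nonempty X]
    (φ : Cp (Cp X)) : ∃ (c : Set Cond) (b : ℕ → X),
      (∀ v ∈ c, ∀ f : Cp X, InBox v.1 (fun i => f.1 (b i)) →
        (v.2.1 : ℝ) ≤ φ.1 f ∧ φ.1 f ≤ (v.2.2 : ℝ)) ∧
      (∀ f : Cp X, ∀ ε : ℝ, 0 < ε → ∃ v ∈ c, (v.2.2 : ℝ) - (v.2.1 : ℝ) < ε ∧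
        InBox v.1 (fun i => f.1 (b i))) := by
  classical
  obtain ⟨x0⟩ := (inferInstance : Nonempty X)
  have hφ : Continuous φ.1 := φ.2
  have hφn : Continuous (fun f => - φ.1 f) := hφ.neg
  choose W1 hW1 using exW φ.1 hφ
  choose W2 hW2 using exW (fun f => - φ.1 f) hφn
  obtain ⟨S, hSc, hx0, hS⟩ := closing x0 (fun V q => W1 V q ∪ W2 V q)
  obtain ⟨b, hb⟩ := hSc.exists_eq_range ⟨x0, hx0⟩
  have hidx : ∀ x : X, ∃ n : ℕ, x ∈ S → b n = x := by
    intro x
    by_cases hx : x ∈ S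
    · rw [hb] at hx
      obtain ⟨n, hn⟩ := hx
      exact ⟨n, fun _ => hn⟩
    · exact ⟨0, fun h => absurd h hx⟩
  choose idx hidx using hidx
  refine ⟨{v : Cond | ∀ f : Cp X, InBox v.1 (fun i => f.1 (b i)) →
        (v.2.1 : ℝ) ≤ φ.1 f ∧ φ.1 f ≤ (v.2.2 : ℝ)}, b, fun v hv f hf => hv f hf, ?_⟩
  intro f ε hε
  obtain ⟨p, hp1, hp2⟩ := exists_rat_btwn (show φ.1 f - ε / 2 < φ.1 f by linarith)
  obtain ⟨q, hq1, hq2⟩ := exists_rat_btwn (show φ.1 f < φ.1 f + ε / 2 by linarith)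
  obtain ⟨U, hU1, hU2⟩ := box_nhds (φ.1 ⁻¹' Set.Ioo (p : ℝ) (q : ℝ)) (isOpen_Ioo.preimage hφ) f
    ⟨hp2, hq1⟩
  have key : ∀ g : Cp X, InBox ((U.filter (fun e => e.1 ∈ S)).image (fun e => (idx e.1, e.2)))
      (fun i => g.1 (b i)) ↔ InX (U.filter (fun e => e.1 ∈ S)) g := by
    intro g
    constructor
    · intro h e he
      have h1 := h (idx e.1, e.2) (Finset.mem_image.2 ⟨e, he, rfl⟩)
      have h2 : b (idx e.1) = e.1 := hidx e.1 (Finset.mem_filter.1 he).2
      simp only [h2] at h1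
      exact h1
    · intro h e he
      obtain ⟨e', he', rfl⟩ := Finset.mem_image.1 he
      have h2 : b (idx e'.1) = e'.1 := hidx e'.1 (Finset.mem_filter.1 he').2
      simp only [h2]
      exact h e' he'
  refine ⟨((U.filter (fun e => e.1 ∈ S)).image (fun e => (idx e.1, e.2)), p, q), ?_, ?_, ?_⟩
  · intro g hg
    have hg' : InX (U.filter (fun e => e.1 ∈ S)) g := (key g).1 hg
    constructor
    · have h1 := half (fun f => - φ.1 f) S W2 hW2
        (fun V hV q e he => hS V hV q e (Finset.mem_union_right _ he)) U f hU1 (-p)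
        (fun g hg => by
          have := (hU2 g hg).1
          push_cast
          exact neg_lt_neg this) g hg'
      push_cast at h1
      exact neg_le_neg_iff.1 h1
    · exact half φ.1 S W1 hW1
        (fun V hV q e he => hS V hV q e (Finset.mem_union_left _ he)) U f hU1 q
        (fun g hg => (hU2 g hg).2) g hg'
  · show (q : ℝ) - (p : ℝ) < ε
    linarith
  · refine (key f).2 ?_
    intro e he
    exact hU1 e (Finset.mem_filter.1 he).1

/-- basic open sets -/
def BB {X : Type} [TopologicalSpace X] (s : Finset (X × ℚ × ℚ)) : Set (Cp X) :=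
  {f | ∀ e ∈ s, (e.2.1 : ℝ) < f.1 e.1 ∧ f.1 e.1 < (e.2.2 : ℝ)}

theorem BB_open {X : Type} [TopologicalSpace X] (s : Finset (X × ℚ × ℚ)) :
    IsOpen (BB s : Set (Cp X)) := by
  have : (BB s : Set (Cp X)) = ⋂ e ∈ s, {f : Cp X | (e.2.1 : ℝ) < f.1 e.1 ∧ f.1 e.1 < (e.2.2 : ℝ)} := by
    ext f
    simp [BB]
  rw [this]
  refine isOpen_biInter_finset fun e _ => ?_
  have hc : Continuous (fun f : Cp X => f.1 e.1) :=
    (continuous_apply e.1).comp continuous_subtype_val
  exact (isOpen_lt continuous_const hc).inter (isOpen_lt hc continuous_const)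

theorem exists_BB {X : Type} [TopologicalSpace X] (ψ : Cp X) (U : Set (Cp X)) (hU : U ∈ 𝓝 ψ) :
    ∃ s : Finset (X × ℚ × ℚ), ψ ∈ (BB s : Set (Cp X)) ∧ BB s ⊆ U := by
  classical
  rw [nhds_subtype_eq_comap, Filter.mem_comap] at hU
  obtain ⟨V, hV, hVU⟩ := hU
  rw [nhds_pi, Filter.mem_pi] at hV
  obtain ⟨I, hI, t, ht, hIt⟩ := hV
  have h1 : ∀ i : X, ∃ qr : ℚ × ℚ, (qr.1 : ℝ) < ψ.1 i ∧ ψ.1 i < (qr.2 : ℝ) ∧
      ∀ y : ℝ, (qr.1 : ℝ) < y → y < (qr.2 : ℝ) → y ∈ t i := by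
    intro i
    obtain ⟨l, u, ⟨hl, hu⟩, hlu⟩ := mem_nhds_iff_exists_Ioo_subset.1 (ht i)
    obtain ⟨q, hq1, hq2⟩ := exists_rat_btwn hl
    obtain ⟨r, hr1, hr2⟩ := exists_rat_btwn hu
    exact ⟨(q, r), hq2, hr1, fun y hy1 hy2 => hlu ⟨hq1.trans hy1, hy2.trans hr2⟩⟩
  choose qr h1a h1b h1c using h1
  refine ⟨hI.toFinset.image (fun i => (i, (qr i).1, (qr i).2)), ?_, ?_⟩
  · intro e he
    rw [Finset.mem_image] at he
    obtain ⟨i, -, rfl⟩ := he
    exact ⟨h1a i, h1b i⟩
  · intro f hf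
    apply hVU
    apply hIt
    intro i hi
    have h2 := hf (i, (qr i).1, (qr i).2)
      (Finset.mem_image.2 ⟨i, hI.mem_toFinset.2 hi, rfl⟩)
    exact h1c i _ h2.1 h2.2

theorem exists_surj {X : Type} (hX : #X ≤ ℵ₁) :
    ∃ g : Om → Finset (X × ℚ × ℚ), Function.Surjective g := by
  classical
  have h1 : #(Finset (X × ℚ × ℚ)) ≤ #Om := by
    have h2 : #(Finset (X × ℚ × ℚ)) ≤ #(List (X × ℚ × ℚ)) :=
      mk_le_of_surjective (f := List.toFinset) List.toFinset_surjective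
    have h3 : #(X × ℚ × ℚ) ≤ ℵ₁ := by
      rw [mk_prod, lift_id, lift_id]
      have h4 : #(ℚ × ℚ) ≤ ℵ₁ := (mk_le_aleph0).trans aleph0_lt_aleph_one.le
      calc #X * #(ℚ × ℚ) ≤ ℵ₁ * ℵ₁ := mul_le_mul' hX h4
        _ = ℵ₁ := mul_eq_self aleph0_lt_aleph_one.le
    have h5 : #Om = ℵ₁ := by simp
    rw [h5]
    exact h2.trans ((mk_list_le_max _).trans (max_le aleph0_lt_aleph_one.le h3))
  obtain ⟨e⟩ := h1
  exact ⟨Function.invFun e, Function.invFun_surjective e.injective⟩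

theorem lindelof_of_acc {X : Type} [TopologicalSpace X] (hX : #X ≤ ℵ₁)
    (h : ∀ F : Om → Cp X, ∃ ψ : Cp X, ∀ U ∈ 𝓝 ψ, ∀ β : Om, ∃ α, β ≤ α ∧ F α ∈ U) :
    LindelofSpace (Cp X) := by
  classical
  obtain ⟨g, hg⟩ := exists_surj hX
  refine ⟨isLindelof_of_countable_subcover ?_⟩
  intro ι U hUo hUc
  by_contra hno
  have hIic : ∀ a : Om, (Set.Iic a).Countable := by
    intro a
    have : Set.Iic a = insert a (Set.Iio a) := by
      ext x
      simp [le_iff_eq_or_lt]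
    rw [this]
    exact Set.Countable.insert _ (Set.countable_coe_iff.1 (countable_Iio _))
  let c : Om → Set ι := fun b => if hb : ∃ i, (BB (g b) : Set (Cp X)) ⊆ U i then {hb.choose} else ∅
  have hc : ∀ b, (c b).Countable := by
    intro b
    show (if hb : ∃ i, (BB (g b) : Set (Cp X)) ⊆ U i then {hb.choose} else ∅ : Set ι).Countable
    split_ifs
    · exact Set.countable_singleton _
    · exact Set.countable_empty
  have hF : ∀ a : Om, ∃ f : Cp X, f ∉ ⋃ i ∈ (⋃ b ∈ Set.Iic a, c b), U i := by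
    intro a
    by_contra hall
    push Not at hall
    exact hno ⟨⋃ b ∈ Set.Iic a, c b, (hIic a).biUnion fun b _ => hc b, fun f _ => hall f⟩
  choose F hF using hF
  obtain ⟨ψ, hψ⟩ := h F
  obtain ⟨i, hi⟩ := Set.mem_iUnion.1 (hUc (Set.mem_univ ψ))
  obtain ⟨s, hs1, hs2⟩ := exists_BB ψ (U i) ((hUo i).mem_nhds hi)
  obtain ⟨b, hb⟩ := hg s
  obtain ⟨α, hbα, hFα⟩ := hψ (BB s) ((BB_open s).mem_nhds hs1) b
  have hex : ∃ i, (BB (g b) : Set (Cp X)) ⊆ U i := ⟨i, by rw [hb]; exact hs2⟩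
  apply hF α
  rw [Set.mem_iUnion₂]
  refine ⟨hex.choose, ?_, hex.choose_spec (by rw [hb]; exact hFα)⟩
  rw [Set.mem_iUnion₂]
  refine ⟨b, hbα, ?_⟩
  show hex.choose ∈ (if hb : ∃ i, (BB (g b) : Set (Cp X)) ⊆ U i then {hb.choose} else ∅ : Set ι)
  rw [dif_pos hex]
  exact Set.mem_singleton _

/-! ### Generic sets -/

/-- Each finite injective partial assignment of points of `S` to coordinates extends to elements
of `D` in every basic open set. -/
def Good (D : Set (ℕ → Cn)) (S : Set Cn) : Prop :=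
  ∀ (F : Finset ℕ) (y : ℕ → Cn), (∀ i ∈ F, y i ∈ S) → Set.InjOn y F → ∀ N : ℕ,
    ∃ y' ∈ D, (∀ i ∈ F, y' i = y i) ∧ ∀ i < N, ∀ j < N, y' i j = y i j

theorem cyl1 {U : Set Cn} (hU : IsOpen U) {x : Cn} (hx : x ∈ U) :
    ∃ m : ℕ, ∀ z : Cn, (∀ j < m, z j = x j) → z ∈ U := by
  obtain ⟨I, u, hu, hsub⟩ := isOpen_pi_iff.1 hU x hx
  refine ⟨I.sup id + 1, fun z hz => hsub ?_⟩
  intro j hj
  have h1 : j ≤ I.sup id := Finset.le_sup (f := id) hj
  rw [hz j (by omega)]
  exact (hu j hj).2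

theorem box_sub {D : Set (ℕ → Cn)} (hD : IsOpen D) {y : ℕ → Cn} (hy : y ∈ D) :
    ∃ M : ℕ, ∀ z : ℕ → Cn, (∀ i < M, ∀ j < M, z i j = y i j) → z ∈ D := by
  obtain ⟨I, u, hu, hsub⟩ := isOpen_pi_iff.1 hD y hy
  have h1 : ∀ a, ∃ m : ℕ, a ∈ I → ∀ z : Cn, (∀ j < m, z j = y a j) → z ∈ u a := by
    intro a
    by_cases ha : a ∈ I
    · obtain ⟨m, hm⟩ := cyl1 (hu a ha).1 (hu a ha).2
      exact ⟨m, fun _ => hm⟩
    · exact ⟨0, fun h => absurd h ha⟩
  choose m hm using h1
  refine ⟨I.sup id + 1 + I.sup m, fun z hz => hsub ?_⟩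
  intro a ha
  have h2 : a ≤ I.sup id := Finset.le_sup (f := id) ha
  have h3 : m a ≤ I.sup m := Finset.le_sup (f := m) ha
  exact hm a ha (z a) fun j hj => hz a (by omega) j (by omega)

theorem isOpen_box (y : ℕ → Cn) (N : ℕ) :
    IsOpen {z : ℕ → Cn | ∀ i < N, ∀ j < N, z i j = y i j} := by
  have h1 : {z : ℕ → Cn | ∀ i < N, ∀ j < N, z i j = y i j} =
      ⋂ p ∈ (Finset.range N ×ˢ Finset.range N), {z : ℕ → Cn | z p.1 p.2 = y p.1 p.2} := by
    ext z
    simp only [mem_setOf_eq, mem_iInter, Finset.mem_product, Finset.mem_range, and_imp,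
      Prod.forall]
    exact ⟨fun h i j hi hj => h i hi j hj, fun h i hi j hj => h i j hi hj⟩
  rw [h1]
  apply isOpen_biInter_finset
  intro p _
  have h2 : Continuous (fun z : ℕ → Cn => z p.1 p.2) :=
    (continuous_apply p.2).comp (continuous_apply p.1)
  exact (isOpen_discrete {y p.1 p.2}).preimage h2

theorem good_empty {D : Set (ℕ → Cn)} (hD : Dense D) : Good D ∅ := by
  intro F y hF _ N
  obtain ⟨z, hz1, hz2⟩ := hD.inter_open_nonempty _ (isOpen_box y N) ⟨y, fun _ _ _ _ => rfl⟩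
  exact ⟨z, hz2, fun i hi => absurd (hF i hi) (by simp), hz1⟩

theorem good_aux {D : Set (ℕ → Cn)} (hD : IsOpen D) {S : Set Cn}
    (h : Good D S) (F1 F2 : Finset ℕ) (N : ℕ) (s : F1 → S) (n : F2 → ℕ)
    (a : Fin N → Fin N → Bool) (hdis : ∀ i ∈ F1, i ∉ F2) (hs : Function.Injective s)
    (hn : Function.Injective n) :
    {e : ℕ → Cn | ∃ y ∈ D, (∀ i : F1, y i = s i) ∧ (∀ i : F2, y i = e (n i)) ∧
      ∀ (i j : Fin N), (i : ℕ) ∉ F1 → (i : ℕ) ∉ F2 → y i j = a i j} ∈ residual (ℕ → Cn) := by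
  classical
  apply residual_of_dense_open
  · -- open
    rw [isOpen_iff_mem_nhds]
    rintro e ⟨y, hyD, hy1, hy2, hy3⟩
    obtain ⟨M, hM⟩ := box_sub hD hyD
    let K := M + (Finset.univ.sup n) + 1
    have hbox : {z : ℕ → Cn | ∀ i < K, ∀ j < K, z i j = e i j} ∈ 𝓝 e :=
      (isOpen_box e K).mem_nhds fun _ _ _ _ => rfl
    refine Filter.mem_of_superset hbox ?_
    intro e' he'
    refine ⟨fun i => if hi : i ∈ F2 then e' (n ⟨i, hi⟩) else y i, ?_, ?_, ?_, ?_⟩
    · apply hM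
      intro i _ j hj
      by_cases hi : i ∈ F2
      · simp only [hi, dif_pos]
        have h1 : n ⟨i, hi⟩ ≤ Finset.univ.sup n := Finset.le_sup (f := n) (Finset.mem_univ _)
        rw [he' _ (by show n ⟨i, hi⟩ < M + (Finset.univ.sup n) + 1; omega) j
          (by show j < M + (Finset.univ.sup n) + 1; omega)]
        rw [← hy2 ⟨i, hi⟩]
      · simp only [hi, dif_neg, not_false_iff]
    · intro i
      have : (i : ℕ) ∉ F2 := hdis i i.2
      simp only [this, dif_neg, not_false_iff]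
      exact hy1 i
    · intro i
      simp only [i.2, dif_pos]
    · intro i j h1 h2
      simp only [h2, dif_neg, not_false_iff]
      exact hy3 i j h1 h2
  · -- dense
    rw [dense_iff_inter_open]
    rintro U hU ⟨e0, he0⟩
    obtain ⟨K, hK⟩ := box_sub hU he0
    let y : ℕ → Cn := fun i => if h1 : i ∈ F1 then (s ⟨i, h1⟩ : Cn) else
      if h2 : i ∈ F2 then e0 (n ⟨i, h2⟩) else
      fun j => if h3 : i < N ∧ j < N then a ⟨i, h3.1⟩ ⟨j, h3.2⟩ else false
    let N' := N + K + F2.sup id + 1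
    obtain ⟨y', hy'D, hy'1, hy'2⟩ := h F1 y (by
      intro i hi
      simp only [y, hi, dif_pos]
      exact (s ⟨i, hi⟩).2) (by
      intro i hi j hj hij
      have hi' : i ∈ F1 := hi
      have hj' : j ∈ F1 := hj
      simp only [y, hi', hj', dif_pos] at hij
      have := hs (Subtype.ext hij)
      exact congrArg Subtype.val this) N'
    let e : ℕ → Cn := fun m => if h4 : ∃ i : F2, n i = m then y' ((Classical.choose h4 : F2) : ℕ) else e0 m
    have hen : ∀ i : F2, e (n i) = y' i := by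
      intro i
      have h4 : ∃ i' : F2, n i' = n i := ⟨i, rfl⟩
      have h5 : Classical.choose h4 = i := hn (Classical.choose_spec h4)
      simp only [e, h4, dif_pos]
      rw [h5]
    refine ⟨e, hK _ ?_, y', hy'D, ?_, ?_, ?_⟩
    · intro m hm j hj
      by_cases h4 : ∃ i : F2, n i = m
      · obtain ⟨i, rfl⟩ := h4
        rw [hen i]
        have h6 : (i : ℕ) ≤ F2.sup id := Finset.le_sup (f := id) i.2
        rw [hy'2 i (by show (i:ℕ) < N + K + F2.sup id + 1; omega) j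
          (by show j < N + K + F2.sup id + 1; omega)]
        have h7 : (i : ℕ) ∉ F1 := fun h8 => hdis i h8 i.2
        simp only [y, h7, i.2, dif_pos, dif_neg, not_false_iff]
      · simp only [e, h4, dif_neg, not_false_iff]
    · intro i
      rw [hy'1 i i.2]
      simp only [y, i.2, dif_pos]
    · intro i
      rw [hen i]
    · intro i j h1 h2
      rw [hy'2 i (by show (i:ℕ) < N + K + F2.sup id + 1; omega) j
        (by show (j:ℕ) < N + K + F2.sup id + 1; omega)]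
      simp only [y, h1, h2, dif_neg, not_false_iff]
      simp

theorem good_step {D : Set (ℕ → Cn)} (hD : IsOpen D) {S : Set Cn} (hS : S.Countable)
    (h : Good D S) : {e : ℕ → Cn | Good D (S ∪ range e)} ∈ residual (ℕ → Cn) := by
  classical
  haveI := hS.to_subtype
  have key : ∀ᶠ e in residual (ℕ → Cn), ∀ (F1 F2 : Finset ℕ) (N : ℕ) (s : F1 → S)
      (n : F2 → ℕ) (a : Fin N → Fin N → Bool),
      ((∀ i ∈ F1, i ∉ F2) ∧ Function.Injective s ∧ Function.Injective n) →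
      ∃ y ∈ D, (∀ i : F1, y i = s i) ∧ (∀ i : F2, y i = e (n i)) ∧
      ∀ (i j : Fin N), (i : ℕ) ∉ F1 → (i : ℕ) ∉ F2 → y i j = a i j := by
    rw [eventually_countable_forall]; intro F1
    rw [eventually_countable_forall]; intro F2
    rw [eventually_countable_forall]; intro N
    rw [eventually_countable_forall]; intro s
    rw [eventually_countable_forall]; intro n
    rw [eventually_countable_forall]; intro a
    by_cases hc : (∀ i ∈ F1, i ∉ F2) ∧ Function.Injective s ∧ Function.Injective n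
    · filter_upwards [good_aux hD h F1 F2 N s n a hc.1 hc.2.1 hc.2.2] with e he _
      exact he
    · exact Filter.Eventually.of_forall fun e hc' => absurd hc' hc
  filter_upwards [key] with e he F y hF hinj N
  let F1 : Finset ℕ := F.filter (fun i => y i ∈ S)
  let F2 : Finset ℕ := F.filter (fun i => y i ∉ S)
  have hF1 : ∀ i : F1, y i ∈ S := fun i => (Finset.mem_filter.1 i.2).2
  have hF2 : ∀ i : F2, ∃ m, e m = y i := by
    intro i
    have h1 := Finset.mem_filter.1 i.2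
    exact (hF i h1.1).resolve_left h1.2
  choose n hn using hF2
  obtain ⟨y', hy'D, h1, h2, h3⟩ := he F1 F2 N (fun i => ⟨y i, hF1 i⟩) n
    (fun i j => y i j) ⟨fun i hi hi2 => (Finset.mem_filter.1 hi2).2 (Finset.mem_filter.1 hi).2,
      by
        intro i j hij
        have := congrArg Subtype.val hij
        exact Subtype.ext (hinj (Finset.mem_filter.1 i.2).1 (Finset.mem_filter.1 j.2).1 this),
      by
        intro i j hij
        have : y i = y j := by rw [← hn i, ← hn j, hij]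
        exact Subtype.ext (hinj (Finset.mem_filter.1 i.2).1 (Finset.mem_filter.1 j.2).1 this)⟩
  have hall : ∀ i ∈ F, y' i = y i := by
    intro i hi
    by_cases hiS : y i ∈ S
    · exact h1 ⟨i, Finset.mem_filter.2 ⟨hi, hiS⟩⟩
    · have := h2 ⟨i, Finset.mem_filter.2 ⟨hi, hiS⟩⟩
      rw [hn] at this
      exact this
  refine ⟨y', hy'D, hall, ?_⟩
  intro i hi j hj
  by_cases hiF : i ∈ F
  · rw [hall i hiF]
  · exact h3 ⟨i, hi⟩ ⟨j, hj⟩ (fun h4 => hiF (Finset.mem_filter.1 h4).1)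
      (fun h4 => hiF (Finset.mem_filter.1 h4).1)

theorem good_enum_cyl1 (u : Set Cn) (hu : IsOpen u) (z : Cn) (hz : z ∈ u) :
    ∃ N : ℕ, ∀ w : Cn, (∀ j < N, w j = z j) → w ∈ u := by
  obtain ⟨I, v, hv, hvu⟩ := isOpen_pi_iff.1 hu z hz
  refine ⟨I.sup id + 1, fun w hw => hvu ?_⟩
  intro i hi
  have h1 : i ≤ I.sup id := Finset.le_sup (f := id) hi
  rw [hw i (by omega)]
  exact (hv i hi).2

theorem good_enum_cyl (D : Set (ℕ → Cn)) (hD : IsOpen D) (y : ℕ → Cn) (hy : y ∈ D) (m : ℕ) :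
    ∃ M : ℕ, m ≤ M ∧ ∀ x : ℕ → Cn, (∀ i < M, ∀ j < M, x i j = y i j) → x ∈ D := by
  obtain ⟨I, v, hv, hvD⟩ := isOpen_pi_iff.1 hD y hy
  have h1 : ∀ i : ℕ, ∃ N : ℕ, i ∈ I → ∀ w : Cn, (∀ j < N, w j = y i j) → w ∈ v i := by
    intro i
    by_cases hi : i ∈ I
    · obtain ⟨N, hN⟩ := good_enum_cyl1 (v i) (hv i hi).1 (y i) (hv i hi).2
      exact ⟨N, fun _ => hN⟩
    · exact ⟨0, fun h => absurd h hi⟩
  choose N hN using h1
  refine ⟨max m (max (I.sup id + 1) (I.sup N)), le_max_left _ _, fun x hx => hvD ?_⟩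
  intro i hi
  have h2 : i ≤ I.sup id := Finset.le_sup (f := id) hi
  have h3 : N i ≤ I.sup N := Finset.le_sup (f := N) hi
  apply hN i hi
  intro j hj
  apply hx i
  · exact lt_of_lt_of_le (Nat.lt_succ_of_le h2) ((le_max_left _ _).trans (le_max_right _ _))
  · exact lt_of_lt_of_le hj (h3.trans ((le_max_right _ _).trans (le_max_right _ _)))

theorem good_enum_ext {S : Set Cn}
    (hd : ∀ E : Set Cn, E.Finite → ∀ (y : Cn) (N : ℕ), ∃ s ∈ S, s ∉ E ∧ ∀ j < N, s j = y j)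
    (m : ℕ) (e : ℕ → Cn) (h1 : ∀ i < m, e i ∈ S) (h2 : InjOn e (Iio m)) (y : ℕ → Cn) (N : ℕ)
    (M : ℕ) (hM : m ≤ M) : ∃ e' : ℕ → Cn, (∀ i < m, e' i = e i) ∧ (∀ i < M, e' i ∈ S) ∧
      InjOn e' (Iio M) ∧ ∀ i, m ≤ i → i < M → ∀ j < N, e' i j = y i j := by
  classical
  induction M, hM using Nat.le_induction with
  | base => exact ⟨e, fun _ _ => rfl, h1, h2, fun i hi hi' => by omega⟩
  | succ M hM ih =>
    obtain ⟨e', g1, g2, g3, g4⟩ := ih
    obtain ⟨s, hs, hsE, hsy⟩ := hd (e' '' Iio M) ((Set.finite_Iio M).image _) (y M) N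
    have hne : ∀ i, i < M → Function.update e' M s i = e' i := fun i hi =>
      Function.update_of_ne (by omega) _ _
    have heq : Function.update e' M s M = s := Function.update_self _ _ _
    refine ⟨Function.update e' M s, fun i hi => ?_, fun i hi => ?_, ?_, fun i hi hi' j hj => ?_⟩
    · rw [hne i (by omega)]; exact g1 i hi
    · rcases Nat.lt_succ_iff_lt_or_eq.1 hi with h | h
      · rw [hne i h]; exact g2 i h
      · rw [h, heq]; exact hs
    · intro a ha b hb hab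
      rcases Nat.lt_succ_iff_lt_or_eq.1 ha with h | h <;>
        rcases Nat.lt_succ_iff_lt_or_eq.1 hb with h' | h'
      · rw [hne a h, hne b h'] at hab
        exact g3 h h' hab
      · rw [hne a h, h', heq] at hab
        exact absurd ⟨a, h, hab⟩ hsE
      · rw [hne b h', h, heq] at hab
        exact absurd ⟨b, h', hab.symm⟩ hsE
      · rw [h, h']
    · rcases Nat.lt_succ_iff_lt_or_eq.1 hi' with h | h
      · rw [hne i h]; exact g4 i hi h j hj
      · rw [h, heq]; exact hsy j hj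

theorem good_enum_step {S : Set Cn}
    (hd : ∀ E : Set Cn, E.Finite → ∀ (y : Cn) (N : ℕ), ∃ s ∈ S, s ∉ E ∧ ∀ j < N, s j = y j)
    (D : Set (ℕ → Cn)) (hD : IsOpen D) (hg : Good D S) (s : Cn) (hs : s ∈ S)
    (m : ℕ) (e : ℕ → Cn) (h1 : ∀ i < m, e i ∈ S) (h2 : InjOn e (Iio m)) :
    ∃ (m' : ℕ) (e' : ℕ → Cn), m < m' ∧ (∀ i < m, e' i = e i) ∧ (∀ i < m', e' i ∈ S) ∧
      InjOn e' (Iio m') ∧ (∃ i < m', e' i = s) ∧
      ∀ x : ℕ → Cn, (∀ i < m', x i = e' i) → x ∈ D := by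
  classical
  obtain ⟨y, hyD, hye, -⟩ := hg (Finset.range m) e (fun i hi => h1 i (Finset.mem_range.1 hi))
    (by rw [Finset.coe_range]; exact h2) 0
  obtain ⟨M, hmM, hM⟩ := good_enum_cyl D hD y hyD m
  obtain ⟨e', g1, g2, g3, g4⟩ := good_enum_ext hd m e h1 h2 y M M hmM
  obtain ⟨t, htS, htE, hst⟩ : ∃ t ∈ S, t ∉ e' '' Iio M ∧ (t = s ∨ s ∈ e' '' Iio M) := by
    by_cases hsE : s ∈ e' '' Iio M
    · obtain ⟨t, h3, h4, -⟩ := hd (e' '' Iio M) ((Set.finite_Iio M).image _) s 0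
      exact ⟨t, h3, h4, Or.inr hsE⟩
    · exact ⟨s, hs, hsE, Or.inl rfl⟩
  have hne : ∀ i, i < M → Function.update e' M t i = e' i := fun i hi =>
    Function.update_of_ne (by omega) _ _
  have heq : Function.update e' M t M = t := Function.update_self _ _ _
  refine ⟨M + 1, Function.update e' M t, by omega, fun i hi => ?_, fun i hi => ?_, ?_, ?_,
    fun x hx => ?_⟩
  · rw [hne i (by omega)]; exact g1 i hi
  · rcases Nat.lt_succ_iff_lt_or_eq.1 hi with h | h
    · rw [hne i h]; exact g2 i h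
    · rw [h, heq]; exact htS
  · intro a ha b hb hab
    rcases Nat.lt_succ_iff_lt_or_eq.1 ha with h | h <;>
      rcases Nat.lt_succ_iff_lt_or_eq.1 hb with h' | h'
    · rw [hne a h, hne b h'] at hab
      exact g3 h h' hab
    · rw [hne a h, h', heq] at hab
      exact absurd ⟨a, h, hab⟩ htE
    · rw [hne b h', h, heq] at hab
      exact absurd ⟨b, h', hab.symm⟩ htE
    · rw [h, h']
  · rcases hst with h | ⟨i, hi, h⟩
    · exact ⟨M, by omega, by rw [heq, h]⟩
    · exact ⟨i, Nat.lt_succ_of_lt hi, by rw [hne i hi]; exact h⟩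
  · apply hM
    intro i hi j hj
    rw [hx i (by omega), hne i hi]
    rcases lt_or_ge i m with h | h
    · rw [g1 i h, hye i (Finset.mem_range.2 h)]
    · exact g4 i h hi j hj

theorem good_enum {S : Set Cn} (hS : S.Countable)
    (hd : ∀ E : Set Cn, E.Finite → ∀ (y : Cn) (N : ℕ), ∃ s ∈ S, s ∉ E ∧ ∀ j < N, s j = y j)
    {𝒟 : Set (Set (ℕ → Cn))} (h𝒟 : 𝒟.Countable) (ho : ∀ D ∈ 𝒟, IsOpen D)
    (hg : ∀ D ∈ 𝒟, Good D S) : ∃ e : ℕ → Cn, e ∈ ⋂₀ 𝒟 ∧ S ⊆ range e := by
  classical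
  obtain ⟨s0, hs0, -, -⟩ := hd ∅ Set.finite_empty (fun _ => false) 0
  obtain ⟨sq, hsq⟩ := hS.exists_eq_range ⟨s0, hs0⟩
  obtain ⟨Dq, hDq⟩ := (h𝒟.insert (univ : Set (ℕ → Cn))).exists_eq_range (Set.insert_nonempty _ _)
  have hsS : ∀ k, sq k ∈ S := fun k => by rw [hsq]; exact ⟨k, rfl⟩
  have hDo : ∀ k, IsOpen (Dq k) ∧ Good (Dq k) S := by
    intro k
    have : Dq k ∈ insert (univ : Set (ℕ → Cn)) 𝒟 := by rw [hDq]; exact ⟨k, rfl⟩
    rcases this with h | h
    · rw [h]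
      exact ⟨isOpen_univ, fun F y _ _ N => ⟨y, mem_univ _, fun _ _ => rfl, fun _ _ _ _ => rfl⟩⟩
    · exact ⟨ho _ h, hg _ h⟩
  have step : ∀ (k : ℕ) (st : {p : ℕ × (ℕ → Cn) // (∀ i < p.1, p.2 i ∈ S) ∧ InjOn p.2 (Iio p.1)}),
      ∃ st' : {p : ℕ × (ℕ → Cn) // (∀ i < p.1, p.2 i ∈ S) ∧ InjOn p.2 (Iio p.1)},
        st.1.1 < st'.1.1 ∧ (∀ i < st.1.1, st'.1.2 i = st.1.2 i) ∧
        (∃ i < st'.1.1, st'.1.2 i = sq k) ∧
        ∀ x : ℕ → Cn, (∀ i < st'.1.1, x i = st'.1.2 i) → x ∈ Dq k := by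
    intro k st
    obtain ⟨m', e', g1, g2, g3, g4, g5, g6⟩ := good_enum_step hd (Dq k) (hDo k).1 (hDo k).2 (sq k)
      (hsS k) st.1.1 st.1.2 st.2.1 st.2.2
    exact ⟨⟨(m', e'), g3, g4⟩, g1, g2, g5, g6⟩
  choose f hf using step
  obtain ⟨q, hq0⟩ : ∃ q : ℕ → {p : ℕ × (ℕ → Cn) // (∀ i < p.1, p.2 i ∈ S) ∧ InjOn p.2 (Iio p.1)},
      ∀ k, q (k + 1) = f k (q k) :=
    ⟨fun k => Nat.rec (⟨(0, fun _ => s0), fun i hi => absurd hi (Nat.not_lt_zero i),
      fun a ha => absurd ha (Nat.not_lt_zero a)⟩ :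
        {p : ℕ × (ℕ → Cn) // (∀ i < p.1, p.2 i ∈ S) ∧ InjOn p.2 (Iio p.1)})
      (fun k st => f k st) k, fun k => rfl⟩
  have hq : ∀ k, (q k).1.1 < (q (k + 1)).1.1 ∧
      (∀ i < (q k).1.1, (q (k + 1)).1.2 i = (q k).1.2 i) ∧
      (∃ i < (q (k + 1)).1.1, (q (k + 1)).1.2 i = sq k) ∧
      ∀ x : ℕ → Cn, (∀ i < (q (k + 1)).1.1, x i = (q (k + 1)).1.2 i) → x ∈ Dq k := by
    intro k
    rw [hq0 k]
    exact hf k (q k)
  have hmk : ∀ k, k ≤ (q k).1.1 := by
    intro k
    induction k with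
    | zero => exact Nat.zero_le _
    | succ k ih => exact Nat.succ_le_of_lt (lt_of_le_of_lt ih (hq k).1)
  have hmono : ∀ k l, k ≤ l → (q k).1.1 ≤ (q l).1.1 ∧
      ∀ i < (q k).1.1, (q l).1.2 i = (q k).1.2 i := by
    intro k l hkl
    induction l, hkl using Nat.le_induction with
    | base => exact ⟨le_rfl, fun _ _ => rfl⟩
    | succ l hl ih =>
      refine ⟨ih.1.trans (hq l).1.le, fun i hi => ?_⟩
      rw [(hq l).2.1 i (lt_of_lt_of_le hi ih.1), ih.2 i hi]
  have hlim : ∀ k i, i < (q k).1.1 → (q (i + 1)).1.2 i = (q k).1.2 i := by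
    intro k i hi
    rcases le_total k (i + 1) with h | h
    · exact (hmono k (i + 1) h).2 i hi
    · exact ((hmono (i + 1) k h).2 i (hmk (i + 1))).symm
  refine ⟨fun i => (q (i + 1)).1.2 i, ?_, ?_⟩
  · intro D hD
    have : D ∈ range Dq := by rw [← hDq]; exact Or.inr hD
    obtain ⟨k, rfl⟩ := this
    exact (hq k).2.2.2 _ fun i hi => hlim (k + 1) i hi
  · intro z hz
    have hz' : z ∈ range sq := hsq ▸ hz
    obtain ⟨k, rfl⟩ := hz'
    obtain ⟨i, hi, hik⟩ := (hq k).2.2.1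
    exact ⟨i, (hlim (k + 1) i hi).trans hik⟩

/-- basic neighbourhoods -/
theorem eg_basic (e0 : ℕ → Cn) (U : Set (ℕ → Cn)) (hU : IsOpen U) (h0 : e0 ∈ U) :
    ∃ K : ℕ, ∀ e : ℕ → Cn, (∀ i < K, ∀ j < K, e i j = e0 i j) → e ∈ U := by
  obtain ⟨I, u, hu, hI⟩ := isOpen_pi_iff.1 hU e0 h0
  have h1 : ∀ i, ∃ K : ℕ, i ∈ I → ∀ x : Cn, (∀ j < K, x j = e0 i j) → x ∈ u i := by
    intro i
    by_cases hi : i ∈ I
    · obtain ⟨J, v, hv, hJ⟩ := isOpen_pi_iff.1 (hu i hi).1 (e0 i) (hu i hi).2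
      refine ⟨J.sup id + 1, fun _ x hx => hJ ?_⟩
      intro j hj
      have hj1 : j < J.sup id + 1 := Nat.lt_succ_of_le (Finset.le_sup (f := id) hj)
      rw [hx j hj1]
      exact (hv j hj).2
    · exact ⟨0, fun h => absurd h hi⟩
  choose K hK using h1
  refine ⟨I.sup id + 1 + I.sup K, fun e he => hI ?_⟩
  intro i hi
  apply hK i hi
  intro j hj
  have h2 : i ≤ I.sup id := Finset.le_sup (f := id) hi
  have h3 : K i ≤ I.sup K := Finset.le_sup (f := K) hi
  exact he i (by omega) j (by omega)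

theorem eg_dense (A : Set (ℕ → Cn))
    (h : ∀ (e0 : ℕ → Cn) (K : ℕ), ∃ e ∈ A, ∀ i < K, ∀ j < K, e i j = e0 i j) : Dense A := by
  rw [dense_iff_inter_open]
  rintro U hU ⟨e0, h0⟩
  obtain ⟨K, hK⟩ := eg_basic e0 U hU h0
  obtain ⟨e, heA, he⟩ := h e0 K
  exact ⟨e, hK e he, heA⟩

theorem eg_ne (i j : ℕ) (hij : i ≠ j) : {e : ℕ → Cn | e i ≠ e j} ∈ residual (ℕ → Cn) := by
  apply residual_of_dense_open
  · exact isOpen_ne_fun (continuous_apply i) (continuous_apply j)
  · apply eg_dense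
    intro e0 K
    refine ⟨Function.update e0 i (Function.update (e0 i) K (!(e0 j K))), ?_, ?_⟩
    · intro hc
      rw [Function.update_self, Function.update_of_ne hij.symm] at hc
      have := congrFun hc K
      rw [Function.update_self] at this
      simp at this
    · intro a ha b hb
      by_cases hai : a = i
      · subst hai
        rw [Function.update_self, Function.update_of_ne (by omega)]
      · rw [Function.update_of_ne hai]

theorem eg_nez (n : ℕ) (z : Cn) : {e : ℕ → Cn | e n ≠ z} ∈ residual (ℕ → Cn) := by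
  apply residual_of_dense_open
  · exact isOpen_ne_fun (continuous_apply n) continuous_const
  · apply eg_dense
    intro e0 K
    refine ⟨Function.update e0 n (Function.update (e0 n) K (!(z K))), ?_, ?_⟩
    · intro hc
      rw [Function.update_self] at hc
      have := congrFun hc K
      rw [Function.update_self] at this
      simp at this
    · intro a ha b hb
      by_cases hai : a = n
      · subst hai
        rw [Function.update_self, Function.update_of_ne (by omega)]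
      · rw [Function.update_of_ne hai]

theorem eg_hit (m : ℕ) (N : ℕ) (y : Fin N → Bool) :
    {e : ℕ → Cn | ∃ n, m ≤ n ∧ ∀ j : Fin N, e n j = y j} ∈ residual (ℕ → Cn) := by
  apply residual_of_dense_open
  · have h1 : {e : ℕ → Cn | ∃ n, m ≤ n ∧ ∀ j : Fin N, e n j = y j} =
        ⋃ (n : ℕ) (_ : m ≤ n), ⋂ j : Fin N, {e : ℕ → Cn | e n j = y j} := by
      ext e
      simp
    rw [h1]
    refine isOpen_iUnion fun n => isOpen_iUnion fun _ => isOpen_iInter_of_finite fun j => ?_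
    have h2 : Continuous fun e : ℕ → Cn => e n j :=
      (continuous_apply (j : ℕ)).comp (continuous_apply n)
    exact (isOpen_discrete {y j}).preimage h2
  · apply eg_dense
    intro e0 K
    refine ⟨Function.update e0 (max m K) (fun j => if hj : j < N then y ⟨j, hj⟩ else false),
      ⟨max m K, le_max_left _ _, fun j => ?_⟩, ?_⟩
    · rw [Function.update_self]
      simp
    · intro a ha b hb
      have hai : a ≠ max m K := by
        have := le_max_right m K
        omega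
      rw [Function.update_of_ne hai]

/-- the points used between `d` and `a` -/
def eg_S (h : Om → ℕ → Cn) (d a : Om) : Set Cn := {z | ∃ x n, d ≤ x ∧ x < a ∧ h x n = z}

theorem eg_S_countable (h : Om → ℕ → Cn) (d a : Om) : (eg_S h d a).Countable := by
  have h1 : eg_S h d a ⊆ ⋃ (x : {b : Om // b < a}), range (h x.1) := by
    rintro z ⟨x, n, _, hx, rfl⟩
    exact mem_iUnion.2 ⟨⟨x, hx⟩, n, rfl⟩
  have := countable_Iio a
  exact (countable_iUnion fun x => countable_range _).mono h1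

theorem eg_Iic (a : Om) : (Set.Iic a).Countable := by
  have : Set.Iic a = insert a (Set.Iio a) := by
    ext x
    simp [le_iff_eq_or_lt]
  rw [this]
  exact Set.Countable.insert _ (Set.countable_coe_iff.1 (countable_Iio _))

/-- the requirement at stage `a` -/
def eg_R (Prom : Om → (Om → ℕ → Cn) → Set (Set (ℕ → Cn)))
    (Bad : Om → (Om → ℕ → Cn) → Set (ℕ → Cn)) (a : Om) (h : Om → ℕ → Cn) (e : ℕ → Cn) : Prop :=
  (∀ d ≤ a, ∀ D ∈ Prom d h, Good D (eg_S h d a) → Good D (eg_S h d a ∪ range e)) ∧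
  (Function.Injective e ∧ ∀ n, ∀ x < a, ∀ m, h x m ≠ e n) ∧
  (∀ (y : Cn) (N m : ℕ), ∃ n, m ≤ n ∧ ∀ j < N, e n j = y j) ∧
  ((Bad a h)ᶜ ∉ residual (ℕ → Cn) → e ∈ Bad a h)

theorem eg_pick (Rs B : Set (ℕ → Cn)) (r : Rs ∈ residual (ℕ → Cn)) :
    ∃ e ∈ Rs, Bᶜ ∉ residual (ℕ → Cn) → e ∈ B := by
  by_cases hB : Bᶜ ∈ residual (ℕ → Cn)
  · obtain ⟨e, he⟩ := (dense_of_mem_residual r).nonempty
    exact ⟨e, he, fun h' => absurd hB h'⟩
  · by_contra hcon
    apply hB
    refine mem_of_superset r ?_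
    intro e he hbad
    exact hcon ⟨e, he, fun _ => hbad⟩

theorem eg_R_exists (Prom : Om → (Om → ℕ → Cn) → Set (Set (ℕ → Cn)))
    (hProm' : ∀ δ h, (Prom δ h).Countable ∧ ∀ D ∈ Prom δ h, IsOpen D ∧ Dense D)
    (Bad : Om → (Om → ℕ → Cn) → Set (ℕ → Cn)) (a : Om) (h : Om → ℕ → Cn) :
    ∃ e, eg_R Prom Bad a h e := by
  have r1 : (⋂ d ∈ Set.Iic a, ⋂ D ∈ Prom d h,
      {e : ℕ → Cn | Good D (eg_S h d a) → Good D (eg_S h d a ∪ range e)}) ∈ residual (ℕ → Cn) := by
    rw [countable_bInter_mem (eg_Iic a)]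
    intro d hd
    rw [countable_bInter_mem (hProm' d h).1]
    intro D hD
    by_cases hG : Good D (eg_S h d a)
    · refine mem_of_superset (good_step ((hProm' d h).2 D hD).1 (eg_S_countable h d a) hG) ?_
      intro e he _
      exact he
    · refine mem_of_superset univ_mem ?_
      intro e _ hG'
      exact absurd hG' hG
  have r2 : (⋂ i : ℕ, ⋂ j : ℕ, {e : ℕ → Cn | i ≠ j → e i ≠ e j}) ∈ residual (ℕ → Cn) := by
    rw [countable_iInter_mem]
    intro i
    rw [countable_iInter_mem]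
    intro j
    by_cases hij : i = j
    · refine mem_of_superset univ_mem ?_
      intro e _ h'
      exact absurd hij h'
    · refine mem_of_superset (eg_ne i j hij) ?_
      intro e he _
      exact he
  have r3 : (⋂ n : ℕ, ⋂ x : {b : Om // b < a}, ⋂ m : ℕ, {e : ℕ → Cn | e n ≠ h x.1 m}) ∈
      residual (ℕ → Cn) := by
    have := countable_Iio a
    rw [countable_iInter_mem]
    intro n
    rw [countable_iInter_mem]
    intro x
    rw [countable_iInter_mem]
    intro m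
    exact eg_nez n (h x.1 m)
  have r4 : (⋂ m : ℕ, ⋂ N : ℕ, ⋂ y : Fin N → Bool,
      {e : ℕ → Cn | ∃ n, m ≤ n ∧ ∀ j : Fin N, e n j = y j}) ∈ residual (ℕ → Cn) := by
    rw [countable_iInter_mem]
    intro m
    rw [countable_iInter_mem]
    intro N
    rw [countable_iInter_mem]
    intro y
    exact eg_hit m N y
  have r := inter_mem (inter_mem r1 r2) (inter_mem r3 r4)
  obtain ⟨e, ⟨⟨h1, h2⟩, ⟨h3, h4⟩⟩, h5⟩ := eg_pick _ (Bad a h) r
  refine ⟨e, ?_, ⟨?_, ?_⟩, ?_, h5⟩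
  · intro d hd D hD
    have := Set.mem_iInter₂.1 h1 d hd
    exact Set.mem_iInter₂.1 this D hD
  · intro i j hij
    by_contra hne
    have := Set.mem_iInter.1 (Set.mem_iInter.1 h2 i) j
    exact this hne hij
  · intro n x hx m heq
    have := Set.mem_iInter.1 (Set.mem_iInter.1 (Set.mem_iInter.1 h3 n) ⟨x, hx⟩) m
    exact this heq.symm
  · intro y N m
    have := Set.mem_iInter.1 (Set.mem_iInter.1 (Set.mem_iInter.1 h4 m) N) (fun j => y j)
    obtain ⟨n, hn, hj⟩ := this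
    exact ⟨n, hn, fun j hj' => hj ⟨j, hj'⟩⟩

theorem eg_good_union (H : Om → ℕ → Cn) (d : Om) (D : Set (ℕ → Cn)) (hD : Dense D) (P : Om → Prop)
    (hP : ∀ b, d ≤ b → P b → Good D (eg_S H d b ∪ range (H b))) :
    Good D {z | ∃ x n, d ≤ x ∧ P x ∧ H x n = z} := by
  classical
  intro F y hy hinj N
  rcases F.eq_empty_or_nonempty with hF | hF
  · subst hF
    exact good_empty hD ∅ y (fun i hi => absurd hi (Finset.notMem_empty i)) hinj N
  · have h1 : ∀ i, ∃ x : Om, i ∈ F → d ≤ x ∧ P x ∧ ∃ n, H x n = y i := by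
      intro i
      by_cases hi : i ∈ F
      · obtain ⟨x, n, hx, hPx, hxn⟩ := hy i hi
        exact ⟨x, fun _ => ⟨hx, hPx, n, hxn⟩⟩
      · exact ⟨d, fun h => absurd h hi⟩
    choose x hx using h1
    obtain ⟨i0, hi0, hmax⟩ := Finset.exists_max_image F x hF
    have hG := hP (x i0) (hx i0 hi0).1 (hx i0 hi0).2.1
    refine hG F y (fun i hi => ?_) hinj N
    obtain ⟨h2, h3, n, h4⟩ := hx i hi
    rcases lt_or_eq_of_le (hmax i hi) with h5 | h5
    · exact Or.inl ⟨x i, n, h2, h5, h4⟩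
    · right
      rw [← h5]
      exact ⟨n, h4⟩

open Classical in
/-- extension of a partial function -/
noncomputable def eg_ext (a : Om) (f : (b : Om) → b < a → (ℕ → Cn)) : Om → ℕ → Cn :=
  fun x => if hx : x < a then f x hx else fun _ _ => false

theorem eg_ext_apply (a : Om) (H : Om → ℕ → Cn) (x : Om) (hx : x < a) :
    eg_ext a (fun b _ => H b) x = H x := by
  unfold eg_ext
  rw [dif_pos hx]

theorem eg_S_ext (a : Om) (H : Om → ℕ → Cn) (d : Om) :
    eg_S (eg_ext a (fun b _ => H b)) d a = eg_S H d a := by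
  ext z
  constructor
  · rintro ⟨x, n, h1, h2, h3⟩
    rw [eg_ext_apply a H x h2] at h3
    exact ⟨x, n, h1, h2, h3⟩
  · rintro ⟨x, n, h1, h2, h3⟩
    refine ⟨x, n, h1, h2, ?_⟩
    rw [eg_ext_apply a H x h2]
    exact h3

theorem exists_generic
    (Prom : Om → (Om → ℕ → Cn) → Set (Set (ℕ → Cn)))
    (hProm : ∀ δ h h', (∀ ξ < δ, h ξ = h' ξ) → Prom δ h = Prom δ h')
    (hProm' : ∀ δ h, (Prom δ h).Countable ∧ ∀ D ∈ Prom δ h, IsOpen D ∧ Dense D)
    (Bad : Om → (Om → ℕ → Cn) → Set (ℕ → Cn))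
    (hBad : ∀ η h h', (∀ ξ < η, h ξ = h' ξ) → Bad η h = Bad η h') :
    ∃ h : Om → ℕ → Cn,
      (∀ δ, ∀ D ∈ Prom δ h, Good D {z | ∃ ξ n, δ ≤ ξ ∧ h ξ n = z}) ∧
      (∀ η, (Bad η h)ᶜ ∉ residual (ℕ → Cn) → h η ∈ Bad η h) ∧
      (∀ ξ ξ' n n', h ξ n = h ξ' n' → ξ = ξ' ∧ n = n') ∧
      (∀ δ, ∀ E : Set Cn, E.Finite → ∀ (y : Cn) (N : ℕ),
        ∃ n, h δ n ∉ E ∧ ∀ j < N, h δ n j = y j) := by
  obtain ⟨H, hH⟩ := exists_rec (I := Om) (T := ℕ → Cn)
    (fun a f e => eg_R Prom Bad a (eg_ext a f) e)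
    (fun a f => eg_R_exists Prom hProm' Bad a (eg_ext a f))
  have h1 : ∀ a, ∀ d ≤ a, ∀ D ∈ Prom d H, Good D (eg_S H d a) →
      Good D (eg_S H d a ∪ range (H a)) := by
    intro a d hd D hD hG
    have h2 := (hH a).1 d hd D
    have h3 : Prom d (eg_ext a (fun b _ => H b)) = Prom d H :=
      hProm d _ _ fun ξ hξ => eg_ext_apply a H ξ (hξ.trans_le hd)
    rw [h3, eg_S_ext] at h2
    exact h2 hD hG
  have h2 : ∀ a, ∀ n, ∀ x < a, ∀ m, H x m ≠ H a n := by
    intro a n x hx m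
    have h3 := (hH a).2.1.2 n x hx m
    rw [eg_ext_apply a H x hx] at h3
    exact h3
  have hgood : ∀ d, ∀ D ∈ Prom d H, ∀ a, d ≤ a → Good D (eg_S H d a) := by
    intro d D hD a
    induction a using WellFoundedLT.induction with
    | ind a ih =>
      intro hda
      have h3 := eg_good_union H d D ((hProm' d H).2 D hD).2 (fun x => x < a)
        (fun b hdb hba => h1 b d hdb D hD (ih b hba hdb))
      exact h3
  refine ⟨H, ?_, ?_, ?_, ?_⟩
  · intro d D hD
    have h3 := eg_good_union H d D ((hProm' d H).2 D hD).2 (fun _ => True)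
      (fun b hdb _ => h1 b d hdb D hD (hgood d D hD b hdb))
    have h4 : {z | ∃ ξ n, d ≤ ξ ∧ H ξ n = z} = {z | ∃ x n, d ≤ x ∧ True ∧ H x n = z} := by
      ext z
      simp
    rw [h4]
    exact h3
  · intro η hη
    have h3 : Bad η (eg_ext η (fun b _ => H b)) = Bad η H :=
      hBad η _ _ fun ξ hξ => eg_ext_apply η H ξ hξ
    have h4 := (hH η).2.2.2
    rw [h3] at h4
    exact h4 hη
  · intro ξ ξ' n n' heq
    rcases lt_trichotomy ξ ξ' with h3 | h3 | h3
    · exact absurd heq (h2 ξ' n' ξ h3 n)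
    · subst h3
      exact ⟨rfl, (hH ξ).2.1.1 heq⟩
    · exact absurd heq.symm (h2 ξ n ξ' h3 n')
  · intro δ E hE y N
    have hfin : (H δ ⁻¹' E).Finite := hE.preimage ((hH δ).2.1.1.injOn)
    obtain ⟨m, hm⟩ := hfin.bddAbove
    obtain ⟨n, hn, hj⟩ := (hH δ).2.2.1 y N (m + 1)
    refine ⟨n, fun hc => ?_, hj⟩
    have : n ≤ m := hm hc
    omega

/-! ### Bookkeeping and guessing -/

theorem exists_sup_seq (s : ℕ → Om) (hs : ∀ n, s n < s (n + 1)) :
    ∃ a : Om, (∀ n, s n < a) ∧ ∀ b, b < a → ∃ n, b < s n := by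
  have hT : ({a | ∀ n, s n < a} : Set Om).Nonempty := exists_bound s
  refine ⟨WellFounded.min (wellFounded_lt (α := Om)) {a | ∀ n, s n < a} hT,
    WellFounded.min_mem (wellFounded_lt (α := Om)) {a | ∀ n, s n < a} hT, fun b hb => ?_⟩
  by_contra hcon
  push Not at hcon
  have hb' : b ∈ ({a | ∀ n, s n < a} : Set Om) := fun n => (hs n).trans_le (hcon (n + 1))
  exact WellFounded.not_lt_min (wellFounded_lt (α := Om)) {a | ∀ n, s n < a} hb' hb

theorem exists_bound_countable {Q : Type} (Φ : Q → Om) (S : Set Q) (hS : S.Countable) (a : Om) :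
    ∃ b, a < b ∧ ∀ q ∈ S, Φ q < b := by
  rcases S.eq_empty_or_nonempty with h | h
  · obtain ⟨b, hb⟩ := exists_gt a
    refine ⟨b, hb, fun q hq => ?_⟩
    rw [h] at hq
    exact absurd hq (Set.notMem_empty q)
  · obtain ⟨f, hf⟩ := hS.exists_eq_range h
    obtain ⟨c, hc⟩ := exists_bound (fun n => Φ (f n))
    obtain ⟨b, hb⟩ := exists_gt (max a c)
    refine ⟨b, (le_max_left _ _).trans_lt hb, fun q hq => ?_⟩
    rw [hf] at hq
    obtain ⟨n, rfl⟩ := hq
    exact (hc n).trans ((le_max_right _ _).trans_lt hb)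

theorem club_closure {Q : Type} (ρ : Q → Om) (hρ : ∀ a, {q | ρ q < a}.Countable) (Φ : Q → Om) :
    IsClubSet {a | ∀ q, ρ q < a → Φ q < a} := by
  constructor
  · intro a0
    choose g hg1 hg2 using fun a => exists_bound_countable Φ {q | ρ q < a} (hρ a) a
    let s : ℕ → Om := fun n => Nat.rec (g a0) (fun _ x => g x) n
    have hs : ∀ n, s (n + 1) = g (s n) := fun n => rfl
    have hs1 : ∀ n, s n < s (n + 1) := fun n => by rw [hs]; exact hg1 _
    obtain ⟨a, ha1, ha2⟩ := exists_sup_seq s hs1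
    refine ⟨a, (hg1 a0).trans (ha1 0), fun q hq => ?_⟩
    obtain ⟨n, hn⟩ := ha2 _ hq
    have h1 : Φ q < s (n + 1) := by rw [hs]; exact hg2 (s n) q hn
    exact h1.trans (ha1 (n + 1))
  · intro a _ h q hq
    obtain ⟨c, ⟨hc1, hc2⟩, hc⟩ := h _ hq
    exact (hc q hc1).trans hc2

theorem IsClubSet.inter {C D : Set Om} (hC : IsClubSet C) (hD : IsClubSet D) :
    IsClubSet (C ∩ D) := by
  constructor
  · intro a0
    choose f hf1 hf2 using hC.1
    choose g hg1 hg2 using hD.1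
    let s : ℕ → Om := fun n => Nat.rec (g (f a0)) (fun _ x => g (f x)) n
    have hs : ∀ n, s (n + 1) = g (f (s n)) := fun n => rfl
    have hs1 : ∀ n, s n < s (n + 1) := fun n => by
      rw [hs]; exact (hf1 _).trans (hg1 _)
    obtain ⟨a, ha1, ha2⟩ := exists_sup_seq s hs1
    refine ⟨a, ((hf1 a0).trans (hg1 _)).trans (ha1 0), ?_, ?_⟩
    · refine hC.2 a ⟨s 0, ha1 0⟩ fun b hb => ?_
      obtain ⟨n, hn⟩ := ha2 b hb
      refine ⟨f (s n), ⟨hn.trans (hf1 _), ?_⟩, hf2 _⟩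
      refine lt_trans ?_ (ha1 (n + 1))
      rw [hs]; exact hg1 _
    · refine hD.2 a ⟨s 0, ha1 0⟩ fun b hb => ?_
      obtain ⟨n, hn⟩ := ha2 b hb
      refine ⟨s (n + 1), ⟨hn.trans (hs1 n), ha1 (n + 1)⟩, ?_⟩
      rw [hs]; exact hg2 _
  · intro a ha h
    refine ⟨hC.2 a ha fun b hb => ?_, hD.2 a ha fun b hb => ?_⟩
    · obtain ⟨c, hc, hc1, hc2⟩ := h b hb
      exact ⟨c, hc, hc1⟩
    · obtain ⟨c, hc, hc1, hc2⟩ := h b hb
      exact ⟨c, hc, hc2⟩

/-- names of points -/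
abbrev K0 : Type := Option (List Bool) ⊕ ℕ
abbrev Idx : Type := Om × K0
/-- a code together with names of points -/
abbrev Cd : Type := Set Cond × (ℕ → Idx)

theorem inj_J_14105 : ∃ g : Om × Om × (Cond ⊕ (ℕ × K0)) → Om, Function.Injective g := by
  have hc : Countable (Cond ⊕ (ℕ × K0)) := inferInstance
  have h1 : #(Om × Om × (Cond ⊕ (ℕ × K0))) ≤ #Om := by
    have h4 : #Om = ℵ₁ := by simp
    have h5 : #(Cond ⊕ (ℕ × K0)) ≤ ℵ₀ := mk_le_aleph0
    have h6 : (ℵ₀ : Cardinal.{0}) ≤ ℵ₁ := aleph0_lt_aleph_one.le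
    have h7 : #(Om × Om × (Cond ⊕ (ℕ × K0))) = #Om * (#Om * #(Cond ⊕ (ℕ × K0))) := by
      rw [mk_prod, mk_prod]
      simp only [Cardinal.lift_id]
    rw [h7, h4]
    calc (ℵ₁ : Cardinal.{0}) * (ℵ₁ * #(Cond ⊕ (ℕ × K0))) ≤ ℵ₁ * (ℵ₁ * ℵ₁) := by
          gcongr
          exact h5.trans h6
      _ = ℵ₁ := by
          rw [mul_eq_self h6, mul_eq_self h6]
  exact ⟨_, (Classical.choice h1).injective⟩

theorem diamond_seq (hD : Diamond) : ∃ G : Om → Om → Cd, ∀ F : Om → Cd, ∀ C : Set Om,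
    IsClubSet C → ∃ a ∈ C, (∃ b, b < a) ∧ ∀ b < a, G a b = F b ∧ ∀ i, ((F b).2 i).1 < a := by
  classical
  obtain ⟨A, hA⟩ := hD
  obtain ⟨g, hg⟩ := inj_J_14105
  let dflt : Idx := ⟨Classical.choice inferInstance, Sum.inr 0⟩
  refine ⟨fun a b => ({v | g (b, b, Sum.inl v) ∈ A a}, fun i =>
    if h : ∃ p : Idx, p.1 < a ∧ g (b, p.1, Sum.inr (i, p.2)) ∈ A a then Classical.choose h
    else dflt), ?_⟩
  intro F C hC
  set RF : Set (Om × Om × (Cond ⊕ (ℕ × K0))) :=
    {q | (∃ v, q.2.2 = Sum.inl v ∧ v ∈ (F q.1).1) ∨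
      (∃ i x, q.2.2 = Sum.inr (i, x) ∧ (F q.1).2 i = (q.2.1, x))} with hRF
  have hRF1 : ∀ b v, (b, b, Sum.inl v) ∈ RF ↔ v ∈ (F b).1 := by
    intro b v
    rw [hRF]
    constructor
    · rintro (⟨v', hv, h⟩ | ⟨i', x', he, h⟩)
      · simp only [Sum.inl.injEq] at hv
        subst hv
        exact h
      · simp at he
    · intro h
      exact Or.inl ⟨v, rfl, h⟩
  have hRF2 : ∀ b c i x, (b, c, Sum.inr (i, x)) ∈ RF ↔ (F b).2 i = (c, x) := by
    intro b c i x
    rw [hRF]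
    constructor
    · rintro (⟨v, hv, _⟩ | ⟨i', x', he, h⟩)
      · simp at hv
      · simp only [Sum.inr.injEq, Prod.mk.injEq] at he
        obtain ⟨rfl, rfl⟩ := he
        exact h
    · intro h
      exact Or.inr ⟨i, x, rfl, h⟩
  have hgS : ∀ q, g q ∈ g '' RF ↔ q ∈ RF := by
    intro q
    exact hg.mem_set_image
  have hC1 : IsClubSet {a : Om | ∀ q : Om × Om × (Cond ⊕ (ℕ × K0)), max q.1 q.2.1 < a → g q < a} := by
    apply club_closure (fun q : Om × Om × (Cond ⊕ (ℕ × K0)) => max q.1 q.2.1) _ g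
    intro a
    have : {q : Om × Om × (Cond ⊕ (ℕ × K0)) | max q.1 q.2.1 < a} ⊆
        (Set.Iio a) ×ˢ ((Set.Iio a) ×ˢ (Set.univ : Set (Cond ⊕ (ℕ × K0)))) := by
      rintro ⟨b, c, k⟩ h
      simp only [Set.mem_setOf_eq, max_lt_iff] at h
      exact ⟨h.1, h.2, Set.mem_univ _⟩
    apply Set.Countable.mono this
    have hI : (Set.Iio a).Countable := Set.countable_coe_iff.1 (countable_Iio a)
    exact hI.prod (hI.prod Set.countable_univ)
  have hC2 : IsClubSet {a : Om | ∀ q : Om × ℕ, q.1 < a → ((F q.1).2 q.2).1 < a} := by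
    apply club_closure (fun q : Om × ℕ => q.1) _ (fun q => ((F q.1).2 q.2).1)
    intro a
    have : {q : Om × ℕ | q.1 < a} ⊆ (Set.Iio a) ×ˢ (Set.univ : Set ℕ) := by
      rintro ⟨b, k⟩ h
      exact ⟨h, Set.mem_univ _⟩
    apply Set.Countable.mono this
    have hI : (Set.Iio a).Countable := Set.countable_coe_iff.1 (countable_Iio a)
    exact hI.prod Set.countable_univ
  obtain ⟨a0⟩ : Nonempty Om := inferInstance
  have hC3 : IsClubSet {a : Om | a0 < a} := by
    constructor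
    · intro a
      obtain ⟨b, hb⟩ := exists_gt (max a a0)
      exact ⟨b, lt_of_le_of_lt (le_max_left _ _) hb, lt_of_le_of_lt (le_max_right _ _) hb⟩
    · rintro a ⟨b, hb⟩ h
      obtain ⟨c, ⟨_, hca⟩, hc⟩ := h b hb
      exact lt_trans hc hca
  obtain ⟨a, ⟨⟨⟨haC, ha1⟩, ha2⟩, ha3⟩, haS⟩ := hA (g '' RF) _ (((hC.inter hC1).inter hC2).inter hC3)
  refine ⟨a, haC, ⟨a0, ha3⟩, ?_⟩
  intro b hb
  have hin : ∀ c k, c < a → (g (b, c, k) ∈ A a ↔ (b, c, k) ∈ RF) := by
    intro c k hc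
    have h1 : g (b, c, k) < a := ha1 (b, c, k) (max_lt hb hc)
    rw [← haS _ h1, hgS]
  refine ⟨?_, fun i => ha2 (b, i) hb⟩
  apply Prod.ext
  · ext v
    change g (b, b, Sum.inl v) ∈ A a ↔ _
    rw [hin b _ hb, hRF1]
  · funext i
    have hex : ∃ p : Idx, p.1 < a ∧ g (b, p.1, Sum.inr (i, p.2)) ∈ A a := by
      refine ⟨(F b).2 i, ha2 (b, i) hb, ?_⟩
      rw [hin _ _ (ha2 (b, i) hb), hRF2]
    change (if h : ∃ p : Idx, p.1 < a ∧ g (b, p.1, Sum.inr (i, p.2)) ∈ A a then Classical.choose h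
      else dflt) = (F b).2 i
    rw [dif_pos hex]
    have hsp := Classical.choose_spec hex
    rw [hin _ _ hsp.1, hRF2] at hsp
    rw [hsp.2]

theorem exists_tasks (hCH : ℵ₁ = 𝔠) :
    ∃ τ : Om → Set Cond × (ℕ → Option Idx) × Om, ∀ t, ∀ β : Om, ∃ η, β ≤ η ∧ τ η = t := by
  have hCH0 : (ℵ₁ : Cardinal.{0}) = 𝔠 := by
    apply Cardinal.lift_injective
    rw [Cardinal.lift_continuum, ← hCH]
    simp
  have hOm : #Om = 𝔠 := by rw [mk_toType, card_ord, hCH0]
  have h1 : #(Set Cond) ≤ 𝔠 := by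
    rw [mk_set]
    have : #Cond ≤ ℵ₀ := mk_le_aleph0
    calc (2 : Cardinal) ^ #Cond ≤ 2 ^ ℵ₀ := Cardinal.power_le_power_left two_ne_zero this
      _ = 𝔠 := two_power_aleph0
  have h2 : #(Option Idx) ≤ 𝔠 := by
    rw [mk_option]
    have e : #Idx ≤ 𝔠 := by
      rw [mk_prod, lift_id, lift_id, hOm]
      have : #K0 ≤ ℵ₀ := mk_le_aleph0
      calc 𝔠 * #K0 ≤ 𝔠 * 𝔠 := mul_le_mul' le_rfl (this.trans aleph0_le_continuum)
        _ = 𝔠 := continuum_mul_self
    calc #Idx + 1 ≤ 𝔠 + 𝔠 := add_le_add e (one_le_aleph0.trans aleph0_le_continuum)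
      _ = 𝔠 := continuum_add_self
  have h3 : #(ℕ → Option Idx) ≤ 𝔠 := by
    rw [← power_def]
    calc #(Option Idx) ^ #ℕ ≤ 𝔠 ^ #ℕ := Cardinal.power_le_power_right h2
      _ = 𝔠 := by rw [mk_nat]; exact continuum_power_aleph0
  have h4 : #((Set Cond × (ℕ → Option Idx) × Om) × Om) ≤ #Om := by
    rw [mk_prod, mk_prod, mk_prod]
    simp only [lift_id, hOm]
    calc #(Set Cond) * (#(ℕ → Option Idx) * 𝔠) * 𝔠 ≤ 𝔠 * (𝔠 * 𝔠) * 𝔠 :=
          mul_le_mul' (mul_le_mul' h1 (mul_le_mul' h3 le_rfl)) le_rfl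
      _ = 𝔠 := by rw [continuum_mul_self, continuum_mul_self, continuum_mul_self]
  obtain ⟨f⟩ := h4
  haveI : Nonempty ((Set Cond × (ℕ → Option Idx) × Om) × Om) :=
    ⟨((∅, (fun _ => none), Classical.arbitrary Om), Classical.arbitrary Om)⟩
  have hs : Function.Surjective (Function.invFun f) := Function.invFun_surjective f.injective
  refine ⟨fun η => (Function.invFun f η).1, fun t β => ?_⟩
  by_contra hc
  push Not at hc
  have hsub : ∀ η, (Function.invFun f η).1 = t → η < β := by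
    intro η hη
    by_contra h
    exact hc η (not_lt.1 h) hη
  have hcount : Countable Om := by
    haveI := countable_Iio β
    choose g hg using fun b : Om => hs (t, b)
    have hinj : Function.Injective (fun b : Om => (⟨g b, hsub _ (by rw [hg])⟩ : {b : Om // b < β})) := by
      intro a b hab
      have h1 : g a = g b := congrArg Subtype.val hab
      have h2 := hg a
      rw [h1, hg b] at h2
      exact (congrArg Prod.snd h2).symm
    exact hinj.countable
  rw [← mk_le_aleph0_iff, hOm] at hcount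
  exact absurd hcount (not_le.2 aleph0_lt_continuum)

/-! ### Points and names -/

/-- the point with name `i` -/
noncomputable def ev (h : Om → ℕ → Cn) : Idx → K
  | (_, Sum.inl none) => OnePoint.infty
  | (_, Sum.inl (some t)) => nd t
  | (ξ, Sum.inr n) => kl (h ξ n)

/-- the point with name `i`, infinity for the empty name -/
noncomputable def evo (h : Om → ℕ → Cn) : Option Idx → K
  | none => OnePoint.infty
  | some i => ev h i

/-- `(c, p)` is the code of a continuous function on the functions living on `W`. -/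
def Legit (c : Set Cond) (p : ℕ → K) (W : Set Cn) : Prop :=
  ∀ f ∈ CW W, ∀ ε : ℝ, 0 < ε → ∃ v ∈ c, (v.2.2 : ℝ) - (v.2.1 : ℝ) < ε ∧
    InBox v.1 (fun i => f.1 (p i))

theorem Legit.mono {c : Set Cond} {p : ℕ → K} {W W' : Set Cn} (h : Legit c p W') (hW : W ⊆ W') :
    Legit c p W := fun f hf => h f (CW_mono hW hf)

/-- branches introduced before `δ` -/
def Zlt (h : Om → ℕ → Cn) (δ : Om) : Set Cn := {z | ∃ ξ n, ξ < δ ∧ h ξ n = z}

/-- all branches -/
def Zall (h : Om → ℕ → Cn) : Set Cn := {z | ∃ ξ n, h ξ n = z}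

/-- forget everything from `δ` on -/
noncomputable def trunc (δ : Om) (h : Om → ℕ → Cn) : Om → ℕ → Cn :=
  fun ξ => open Classical in if ξ < δ then h ξ else fun _ _ => false

theorem trunc_eq {δ : Om} {h : Om → ℕ → Cn} {ξ : Om} (hξ : ξ < δ) : trunc δ h ξ = h ξ := if_pos hξ

theorem trunc_congr {δ : Om} {h h' : Om → ℕ → Cn} (hh : ∀ ξ < δ, h ξ = h' ξ) :
    trunc δ h = trunc δ h' := by
  funext ξ
  unfold trunc
  split_ifs with h1
  · exact hh ξ h1
  · rfl

theorem Zlt_trunc (δ : Om) (h : Om → ℕ → Cn) {β : Om} (hβ : β ≤ δ) :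
    Zlt (trunc δ h) β = Zlt h β := by
  ext z
  constructor
  · rintro ⟨ξ, n, hξ, rfl⟩
    exact ⟨ξ, n, hξ, by rw [trunc_eq (hξ.trans_le hβ)]⟩
  · rintro ⟨ξ, n, hξ, rfl⟩
    exact ⟨ξ, n, hξ, by rw [trunc_eq (hξ.trans_le hβ)]⟩

theorem evo_trunc (δ : Om) (h : Om → ℕ → Cn) {o : Option Idx} (ho : ∀ a, o = some a → a.1 < δ) :
    evo (trunc δ h) o = evo h o := by
  rcases o with _ | ⟨ξ, (_ | t) | n⟩
  · rfl
  · rfl
  · rfl
  · show kl (trunc δ h ξ n) = kl (h ξ n)
    rw [trunc_eq (ho _ rfl)]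

/-- the candidates at `δ` -/
structure Cand (g : Om → Cd) (δ : Om) (h : Om → ℕ → Cn) (c : Set Cond) (ζ : ℕ → Option Idx) :
    Prop where
  old : ∀ i a, ζ i = some a → a.1 < δ
  cons : ∀ v : Finset Cond, (v : Set Cond) ⊆ c → ∀ n : ℕ, ∀ β < δ, ∃ α, β ≤ α ∧ α < δ ∧
    (v : Set Cond) ⊆ (g α).1 ∧ ∀ i < n, (∀ a, ζ i = some a → (g α).2 i = a) ∧
      (ζ i = none → β ≤ ((g α).2 i).1)
  gen : {e : ℕ → Cn | Legit c (fun i => evo h (ζ i)) (Zlt h δ ∪ range e)} ∈ residual (ℕ → Cn)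

theorem exists_family {A : Set (ℕ → Cn)} (hA : A ∈ residual (ℕ → Cn)) :
    ∃ S : Set (Set (ℕ → Cn)), (S.Countable ∧ ∀ D ∈ S, IsOpen D ∧ Dense D) ∧ ⋂₀ S ⊆ A := by
  obtain ⟨S, h1, h2, h3, h4⟩ := mem_residual_iff.1 hA
  exact ⟨S, ⟨h3, fun D hD => ⟨h1 D hD, h2 D hD⟩⟩, h4⟩

/-- the promises made at `δ` -/
theorem exists_prom (G : Om → Om → Cd) :
    ∃ P : Om → (Om → ℕ → Cn) → Set (Set (ℕ → Cn)),
      (∀ δ h h', (∀ ξ < δ, h ξ = h' ξ) → P δ h = P δ h') ∧
      (∀ δ h, (P δ h).Countable ∧ ∀ D ∈ P δ h, IsOpen D ∧ Dense D) ∧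
      (∀ δ h, (∃ c ζ, Cand (G δ) δ h c ζ) → ∃ c ζ, Cand (G δ) δ h c ζ ∧
        ⋂₀ P δ h ⊆ {e | Legit c (fun i => evo h (ζ i)) (Zlt h δ ∪ range e)}) := by
  classical
  have key : ∀ (δ : Om) (h : Om → ℕ → Cn), ∃ S : Set (Set (ℕ → Cn)),
      (S.Countable ∧ ∀ D ∈ S, IsOpen D ∧ Dense D) ∧
      ((∃ c ζ, Cand (G δ) δ h c ζ) → ∃ c ζ, Cand (G δ) δ h c ζ ∧
        ⋂₀ S ⊆ {e | Legit c (fun i => evo h (ζ i)) (Zlt h δ ∪ range e)}) := by
    intro δ h
    by_cases hc : ∃ c ζ, Cand (G δ) δ h c ζ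
    · obtain ⟨c, ζ, hcand⟩ := hc
      obtain ⟨S, hS, hS'⟩ := exists_family hcand.gen
      exact ⟨S, hS, fun _ => ⟨c, ζ, hcand, hS'⟩⟩
    · exact ⟨∅, ⟨countable_empty, fun D hD => absurd hD (notMem_empty D)⟩, fun h' => absurd h' hc⟩
  choose P0 hP0 hP0' using key
  have hcand : ∀ (δ : Om) (h : Om → ℕ → Cn) (c : Set Cond) (ζ : ℕ → Option Idx),
      Cand (G δ) δ (trunc δ h) c ζ ↔ Cand (G δ) δ h c ζ := by
    intro δ h c ζ
    constructor
    · intro H
      refine ⟨H.old, H.cons, ?_⟩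
      have := H.gen
      rw [Zlt_trunc δ h le_rfl] at this
      have h2 : (fun i => evo (trunc δ h) (ζ i)) = fun i => evo h (ζ i) :=
        funext fun i => evo_trunc δ h (H.old i)
      rw [h2] at this
      exact this
    · intro H
      refine ⟨H.old, H.cons, ?_⟩
      have := H.gen
      rw [Zlt_trunc δ h le_rfl]
      have h2 : (fun i => evo (trunc δ h) (ζ i)) = fun i => evo h (ζ i) :=
        funext fun i => evo_trunc δ h (H.old i)
      rw [h2]
      exact this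
  refine ⟨fun δ h => P0 δ (trunc δ h), ?_, fun δ h => hP0 _ _, ?_⟩
  · intro δ h h' hh
    show P0 δ (trunc δ h) = P0 δ (trunc δ h')
    rw [trunc_congr hh]
  · rintro δ h ⟨c, ζ, hc⟩
    obtain ⟨c', ζ', h1, h2⟩ := hP0' δ (trunc δ h) ⟨c, ζ, (hcand δ h c ζ).2 hc⟩
    refine ⟨c', ζ', (hcand δ h c' ζ').1 h1, h2.trans ?_⟩
    rw [Zlt_trunc δ h le_rfl]
    have h3 : (fun i => evo (trunc δ h) (ζ' i)) = fun i => evo h (ζ' i) :=
      funext fun i => evo_trunc δ h (h1.old i)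
    rw [h3]

/-- The outcome of the recursion. -/
structure Gen (G : Om → Om → Cd) (h : Om → ℕ → Cn) : Prop where
  inj : ∀ ξ ξ' n n', h ξ n = h ξ' n' → ξ = ξ' ∧ n = n'
  /-- the promised code works for all of `Z` -/
  legit : ∀ δ, (∃ c ζ, Cand (G δ) δ h c ζ) → ∃ c ζ, Cand (G δ) δ h c ζ ∧
    Legit c (fun i => evo h (ζ i)) (Zall h)
  /-- bookkeeping -/
  task : ∀ (c : Set Cond) (ζ : ℕ → Option Idx) (δ β : Om), (∀ i a, ζ i = some a → a.1 < δ) →
    {e : ℕ → Cn | Legit c (fun i => evo h (ζ i)) (Zlt h δ ∪ range e)} ∉ residual (ℕ → Cn) →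
    ∃ η, β ≤ η ∧ δ ≤ η ∧ ¬ Legit c (fun i => evo h (ζ i)) (Zlt h δ ∪ range (h η))

theorem countable_supp (f : Cp K) : {z : Cn | f.1 (kl z) ≠ f.1 OnePoint.infty}.Countable := by
  have h1 : {z : Cn | f.1 (kl z) ≠ f.1 OnePoint.infty} ⊆
      ⋃ n : ℕ, {z : Cn | 1 / ((n : ℝ) + 1) ≤ |f.1 (kl z) - f.1 OnePoint.infty|} := by
    intro z hz
    have hz' : 0 < |f.1 (kl z) - f.1 OnePoint.infty| := abs_pos.2 (sub_ne_zero.2 hz)
    obtain ⟨n, hn⟩ := exists_nat_one_div_lt hz'
    exact mem_iUnion.2 ⟨n, hn.le⟩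
  exact (countable_iUnion fun n => (finite_big f (by positivity)).countable).mono h1

theorem countable_Iio' (a : Om) : (Iio a).Countable := Set.countable_coe_iff.1 (countable_Iio a)

theorem exists_gt_countable {S : Set Om} (hS : S.Countable) : ∃ a, ∀ b ∈ S, b < a := by
  rcases S.eq_empty_or_nonempty with rfl | hne
  · exact ⟨Classical.arbitrary Om, fun b hb => absurd hb (notMem_empty b)⟩
  obtain ⟨f, hf⟩ := hS.exists_eq_range hne
  obtain ⟨a, ha⟩ := exists_bound f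
  refine ⟨a, fun b hb => ?_⟩
  rw [hf] at hb
  obtain ⟨n, rfl⟩ := hb
  exact ha n

theorem exists_h (G : Om → Om → Cd) (hCH : (ℵ₁ : Cardinal.{0}) = 𝔠) : ∃ h, Gen G h := by
  classical
  obtain ⟨P, hP1, hP2, hP3⟩ := exists_prom G
  obtain ⟨τ, hτ⟩ := exists_tasks hCH
  let Bad : Om → (Om → ℕ → Cn) → Set (ℕ → Cn) := fun η h =>
    {e | ¬ Legit (τ η).1 (fun i => evo (trunc η h) ((τ η).2.1 i))
      (Zlt (trunc η h) (τ η).2.2 ∪ range e)}
  obtain ⟨h, ha, hb, hc, hd⟩ := exists_generic P hP1 hP2 Bad (by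
    intro η h h' hh
    show {e | ¬ Legit (τ η).1 (fun i => evo (trunc η h) ((τ η).2.1 i))
      (Zlt (trunc η h) (τ η).2.2 ∪ range e)} = {e | ¬ Legit (τ η).1
        (fun i => evo (trunc η h') ((τ η).2.1 i)) (Zlt (trunc η h') (τ η).2.2 ∪ range e)}
    rw [trunc_congr hh])
  refine ⟨h, hc, ?_, ?_⟩
  · intro δ hδ
    obtain ⟨c, ζ, hcand, hsub⟩ := hP3 δ h hδ
    refine ⟨c, ζ, hcand, ?_⟩
    intro f hf ε hε
    -- choose `η` such that `f` lives on `Zlt h η`
    have h1 : {ξ : Om | ∃ n, f.1 (kl (h ξ n)) ≠ f.1 OnePoint.infty}.Countable := by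
      have h2 : {p : Om × ℕ | f.1 (kl (h p.1 p.2)) ≠ f.1 OnePoint.infty}.Countable := by
        refine Set.MapsTo.countable_of_injOn (f := fun p : Om × ℕ => h p.1 p.2)
          (t := {z : Cn | f.1 (kl z) ≠ f.1 OnePoint.infty}) ?_ ?_ (countable_supp f)
        · intro p hp
          exact hp
        · intro p _ q _ hpq
          obtain ⟨h3, h4⟩ := hc _ _ _ _ hpq
          exact Prod.ext h3 h4
      refine (h2.image Prod.fst).mono ?_
      rintro ξ ⟨n, hn⟩
      exact ⟨(ξ, n), hn, rfl⟩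
    obtain ⟨η0, hη0⟩ := exists_gt_countable (h1.union (countable_singleton δ))
    have hδη : δ < η0 := hη0 δ (Or.inr rfl)
    let S : Set Cn := {z | ∃ ξ n, δ ≤ ξ ∧ ξ < η0 ∧ h ξ n = z}
    have hS : S.Countable := by
      have h2 : ((Iio η0) ×ˢ (univ : Set ℕ)).Countable := (countable_Iio' η0).prod countable_univ
      refine (h2.image (fun p : Om × ℕ => h p.1 p.2)).mono ?_
      rintro z ⟨ξ, n, _, h3, rfl⟩
      exact ⟨(ξ, n), ⟨h3, mem_univ n⟩, rfl⟩
    have hgood : ∀ D ∈ P δ h, Good D S := by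
      intro D hD F y hy hinj N
      refine ha δ D hD F y (fun i hi => ?_) hinj N
      obtain ⟨ξ, n, h3, _, h4⟩ := hy i hi
      exact ⟨ξ, n, h3, h4⟩
    obtain ⟨e, he, hSe⟩ := good_enum hS (by
      intro E hE y N
      obtain ⟨n, hn, hn'⟩ := hd δ E hE y N
      exact ⟨h δ n, ⟨δ, n, le_rfl, hδη, rfl⟩, hn, hn'⟩) (hP2 δ h).1
      (fun D hD => ((hP2 δ h).2 D hD).1) hgood
    have h5 := hsub he
    have h6 : f ∈ CW (Zlt h δ ∪ range e) := by
      intro z hz
      by_contra hne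
      have hzZ : z ∈ Zall h := by
        by_contra hz'
        exact hne (hf z hz')
      obtain ⟨ξ, n, rfl⟩ := hzZ
      have h7 : ξ < η0 := hη0 ξ (Or.inl ⟨n, hne⟩)
      rcases lt_or_ge ξ δ with h8 | h8
      · exact hz (Or.inl ⟨ξ, n, h8, rfl⟩)
      · exact hz (Or.inr (hSe ⟨ξ, n, h8, h7, rfl⟩))
    exact h5 f h6 ε hε
  · intro c ζ δ β hζ hres
    obtain ⟨η, hη, hτη⟩ := hτ (c, ζ, δ) (max β δ)
    have hδη : δ ≤ η := (le_max_right _ _).trans hη
    refine ⟨η, (le_max_left _ _).trans hη, hδη, ?_⟩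
    have h1 : (fun i => evo (trunc η h) (ζ i)) = fun i => evo h (ζ i) :=
      funext fun i => evo_trunc η h fun a ha => (hζ i a ha).trans_le hδη
    have h2 : Bad η h = {e | ¬ Legit c (fun i => evo h (ζ i)) (Zlt h δ ∪ range e)} := by
      show {e | ¬ Legit (τ η).1 (fun i => evo (trunc η h) ((τ η).2.1 i))
        (Zlt (trunc η h) (τ η).2.2 ∪ range e)} = _
      rw [hτη]
      show {e | ¬ Legit c (fun i => evo (trunc η h) (ζ i)) (Zlt (trunc η h) δ ∪ range e)} = _
      rw [h1, Zlt_trunc η h hδη]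
    have h3 : (Bad η h)ᶜ ∉ residual (ℕ → Cn) := by
      rw [h2]
      intro h4
      apply hres
      convert h4 using 1
      ext e
      simp
    have h4 := hb η h3
    rw [h2] at h4
    exact h4


/-! ### The main argument -/

theorem exists_bot : ∃ b : Om, ∀ a, b ≤ a := by
  refine ⟨WellFounded.min (wellFounded_lt (α := Om)) univ univ_nonempty, fun a => ?_⟩
  exact not_lt.1 (WellFounded.not_lt_min (wellFounded_lt (α := Om)) (s := univ) (mem_univ a))

/-- each point has a name; points which are not branches have names with first coordinate `b0` -/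
theorem exists_name (h : Om → ℕ → Cn) (b0 : Om) (p : XZ (Zall h)) :
    ∃ a : Idx, pr (Zall h) (ev h a) = p ∧ ∀ o, a.2 = Sum.inl o → a.1 = b0 := by
  obtain ⟨q, rfl⟩ := pr_surj (Zall h) p
  rcases q with _ | (t | ⟨z, hz⟩)
  · exact ⟨(b0, Sum.inl none), rfl, fun _ _ => rfl⟩
  · exact ⟨(b0, Sum.inl (some t)), rfl, fun _ _ => rfl⟩
  · by_cases hZ : z ∈ Zall h
    · obtain ⟨ξ, n, rfl⟩ := hZ
      exact ⟨(ξ, Sum.inr n), rfl, fun o ho => by simp at ho⟩
    · refine ⟨(b0, Sum.inl none), ?_, fun _ _ => rfl⟩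
      show (OnePoint.infty : XZ (Zall h)) = pr (Zall h) (kl z)
      rw [pr_kl_notMem hZ]

theorem exists_acc (hD : Diamond) {G : Om → Om → Cd}
    (hG : ∀ F : Om → Cd, ∀ C : Set Om, IsClubSet C →
      ∃ a ∈ C, (∃ b, b < a) ∧ ∀ b < a, G a b = F b ∧ ∀ i, ((F b).2 i).1 < a)
    {h : Om → ℕ → Cn} (hh : Gen G h) (F : Om → Cp (Cp (XZ (Zall h)))) :
    ∃ ψ : Cp (Cp (XZ (Zall h))), ∀ U ∈ 𝓝 ψ, ∀ β : Om, ∃ α, β ≤ α ∧ F α ∈ U := by
  classical
  obtain ⟨bot, hbot⟩ := exists_bot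
  let _ : OrderBot Om := { bot := bot, bot_le := hbot }
  have hcode := fun α => exists_code (F α)
  choose c b hsound hcompl using hcode
  have hname := fun α i => exists_name h bot (b α i)
  choose nm hnm hnm' using hname
  -- extension of functions
  let E : Cp (XZ (Zall h)) → Cp K := fun g =>
    ⟨fun p => g.1 (pr (Zall h) p), g.2.comp (continuous_pr (Zall h))⟩
  have hE : ∀ g, E g ∈ CW (Zall h) := fun g => comp_pr_mem g
  have hEb : ∀ g α i, (E g).1 (ev h (nm α i)) = g.1 (b α i) := by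
    intro g α i
    show g.1 (pr (Zall h) (ev h (nm α i))) = g.1 (b α i)
    rw [hnm]
  -- hits
  let Hit : Finset Cond → Finset (ℕ × Option Idx) → Om → Om → Prop := fun v s β α =>
    β ≤ α ∧ (v : Set Cond) ⊆ c α ∧ ∀ p ∈ s, (∀ a, p.2 = some a → nm α p.1 = a) ∧
      (p.2 = none → β ≤ (nm α p.1).1)
  let sn : (ℕ → Option Idx) → ℕ → Finset (ℕ × Option Idx) := fun ζ n =>
    (Finset.range n).image fun i => (i, ζ i)
  have hsn : ∀ ζ n v β α, Hit v (sn ζ n) β α ↔ β ≤ α ∧ (v : Set Cond) ⊆ c α ∧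
      ∀ i < n, (∀ a, ζ i = some a → nm α i = a) ∧ (ζ i = none → β ≤ (nm α i).1) := by
    intro ζ n v β α
    constructor
    · rintro ⟨h1, h2, h3⟩
      refine ⟨h1, h2, fun i hi => h3 (i, ζ i) ?_⟩
      exact Finset.mem_image.2 ⟨i, Finset.mem_range.2 hi, rfl⟩
    · rintro ⟨h1, h2, h3⟩
      refine ⟨h1, h2, fun p hp => ?_⟩
      obtain ⟨i, hi, rfl⟩ := Finset.mem_image.1 hp
      exact h3 i (Finset.mem_range.1 hi)
  -- ranks
  let rk : Finset Cond × Finset (ℕ × Option Idx) × Om → Om := fun q =>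
    max q.2.2 (q.2.1.sup fun p => (p.2.map Prod.fst).getD bot)
  have hrk : ∀ a, {q | rk q < a}.Countable := by
    intro a
    have h1 : {o : Option Idx | ∀ x, o = some x → x.1 < a}.Countable := by
      have h2 : (insert none (some '' ((Iio a) ×ˢ (univ : Set K0)))).Countable :=
        ((((countable_Iio' a).prod countable_univ).image some).insert none)
      refine h2.mono ?_
      rintro (_ | x) hx
      · exact Or.inl rfl
      · exact Or.inr ⟨x, ⟨hx x rfl, mem_univ _⟩, rfl⟩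
    have h3 : ((univ : Set ℕ) ×ˢ {o : Option Idx | ∀ x, o = some x → x.1 < a}).Countable :=
      countable_univ.prod h1
    have h4 : {s : Finset (ℕ × Option Idx) | (s : Set (ℕ × Option Idx)) ⊆
        ((univ : Set ℕ) ×ˢ {o : Option Idx | ∀ x, o = some x → x.1 < a})}.Countable := by
      have h5 := (Set.countable_setOf_finite_subset h3)
      refine (h5.preimage_of_injOn (f := fun s : Finset (ℕ × Option Idx) => (s : Set _)) ?_).mono ?_
      · exact fun x _ y _ hxy => Finset.coe_injective hxy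
      · intro s hs
        exact ⟨s.finite_toSet, hs⟩
    refine ((countable_univ (α := Finset Cond)).prod (h4.prod (countable_Iio' a))).mono ?_
    rintro ⟨v, s, β⟩ hq
    have hq1 : β < a := (le_max_left _ _).trans_lt hq
    have hq2 : s.sup (fun p => (p.2.map Prod.fst).getD bot) < a := (le_max_right _ _).trans_lt hq
    refine ⟨mem_univ _, ?_, hq1⟩
    intro p hp
    refine ⟨mem_univ _, fun x hx => ?_⟩
    have h6 : ((p.2.map Prod.fst).getD bot) ≤ s.sup (fun p => (p.2.map Prod.fst).getD bot) :=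
      Finset.le_sup (f := fun p : ℕ × Option Idx => (p.2.map Prod.fst).getD bot) hp
    rw [hx] at h6
    exact h6.trans_lt hq2
  have hrk' : ∀ (ζ : ℕ → Option Idx) (δ : Om), bot < δ → (∀ i a, ζ i = some a → a.1 < δ) →
      ∀ v n β, β < δ → rk (v, sn ζ n, β) < δ := by
    intro ζ δ hδ hζ v n β hβ
    refine max_lt hβ ?_
    refine (Finset.sup_lt_iff (show (⊥ : Om) < δ from hδ)).2 ?_
    intro p hp
    obtain ⟨i, _, rfl⟩ := Finset.mem_image.1 hp
    show ((ζ i).map Prod.fst).getD bot < δ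
    rcases hi : ζ i with _ | a
    · exact hδ
    · exact hζ i a hi
  -- reflection functions
  have hΦ1 : ∀ q : Finset Cond × Finset (ℕ × Option Idx) × Om, ∃ α, (∃ α', Hit q.1 q.2.1 q.2.2 α') →
      Hit q.1 q.2.1 q.2.2 α := by
    intro q
    by_cases hq : ∃ α', Hit q.1 q.2.1 q.2.2 α'
    · obtain ⟨α, hα⟩ := hq
      exact ⟨α, fun _ => hα⟩
    · exact ⟨bot, fun h' => absurd h' hq⟩
  have hΦ2 : ∀ q : Finset Cond × Finset (ℕ × Option Idx) × Om, ∃ β,
      (∃ β', ∀ α, ¬ Hit q.1 q.2.1 β' α) → ∀ α, ¬ Hit q.1 q.2.1 β α := by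
    intro q
    by_cases hq : ∃ β', ∀ α, ¬ Hit q.1 q.2.1 β' α
    · obtain ⟨β, hβ⟩ := hq
      exact ⟨β, fun _ => hβ⟩
    · exact ⟨bot, fun h' => absurd h' hq⟩
  choose Φ1 hΦ1 using hΦ1
  choose Φ2 hΦ2 using hΦ2
  obtain ⟨δ, hδC, ⟨b1, hb1⟩, hδG⟩ := hG (fun α => (c α, nm α)) _
    ((club_closure rk hrk Φ1).inter (club_closure rk hrk Φ2))
  have hδ0 : bot < δ := (hbot b1).trans_lt hb1
  have hC1 : ∀ q, rk q < δ → Φ1 q < δ := hδC.1
  have hC2 : ∀ q, rk q < δ → Φ2 q < δ := hδC.2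
  -- a candidate exists
  have hcand : ∃ c' ζ, Cand (G δ) δ h c' ζ := by
    let ζ : ℕ → Option Idx := fun i => if (nm δ i).1 < δ then some (nm δ i) else none
    have hζs : ∀ i a, ζ i = some a → nm δ i = a ∧ a.1 < δ := by
      intro i a hi
      by_cases h1 : (nm δ i).1 < δ
      · have h2 : ζ i = some (nm δ i) := if_pos h1
        rw [h2] at hi
        have h3 := Option.some.inj hi
        exact ⟨h3, h3 ▸ h1⟩
      · have h2 : ζ i = none := if_neg h1
        rw [h2] at hi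
        exact absurd hi (by simp)
    have hζn : ∀ i, ζ i = none → δ ≤ (nm δ i).1 := by
      intro i hi
      by_contra h1
      have h2 : ζ i = some (nm δ i) := if_pos (not_le.1 h1)
      rw [h2] at hi
      exact absurd hi (by simp)
    refine ⟨c δ, ζ, fun i a hi => (hζs i a hi).2, ?_, ?_⟩
    · intro v hv n β hβ
      have h1 : Hit v (sn ζ n) β δ := by
        rw [hsn]
        exact ⟨hβ.le, hv, fun i _ => ⟨fun a ha => (hζs i a ha).1, fun hi => hβ.le.trans (hζn i hi)⟩⟩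
      have h2 := hΦ1 (v, sn ζ n, β) ⟨δ, h1⟩
      have h3 : Φ1 (v, sn ζ n, β) < δ :=
        hC1 _ (hrk' ζ δ hδ0 (fun i a hi => (hζs i a hi).2) v n β hβ)
      have h4 := (hsn ζ n v β _).1 h2
      refine ⟨Φ1 (v, sn ζ n, β), h4.1, h3, ?_, ?_⟩
      · rw [(hδG _ h3).1]
        exact h4.2.1
      · intro i hi
        rw [(hδG _ h3).1]
        exact h4.2.2 i hi
    · by_contra hres
      obtain ⟨β0, hβ0⟩ := exists_bound fun i => (nm δ i).1
      obtain ⟨η, hη, hδη, hnot⟩ := hh.task (c δ) ζ δ β0 (fun i a hi => (hζs i a hi).2) hres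
      apply hnot
      intro f hf ε hε
      have hf' : f ∈ CW (Zall h) := by
        refine CW_mono ?_ hf
        rintro z (⟨ξ, n, _, hz⟩ | ⟨n, hz⟩)
        · exact ⟨ξ, n, hz⟩
        · exact ⟨η, n, hz⟩
      obtain ⟨g, hg⟩ := lift_pr hf'
      obtain ⟨v, hv, hv1, hv2⟩ := hcompl δ g ε hε
      refine ⟨v, hv, hv1, ?_⟩
      have h5 : ∀ i, f.1 (evo h (ζ i)) = g.1 (b δ i) := by
        intro i
        have h6 : g.1 (b δ i) = f.1 (ev h (nm δ i)) := by
          rw [← hnm δ i, hg]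
        rw [h6]
        by_cases h7 : (nm δ i).1 < δ
        · have h8 : ζ i = some (nm δ i) := if_pos h7
          rw [h8]
          rfl
        · have h8 : ζ i = none := if_neg h7
          rw [h8]
          show f.1 OnePoint.infty = _
          have h9 := hnm' δ i
          have h10 := hβ0 i
          rcases hi : nm δ i with ⟨ξ, (o | m)⟩
          · exfalso
            rw [hi] at h9 h7
            have := h9 o rfl
            exact h7 (this ▸ hδ0)
          · rw [hi] at h7 h10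
            symm
            apply hf
            rintro (⟨ξ', n', hlt, hz⟩ | ⟨n', hz⟩)
            · obtain ⟨h11, _⟩ := hh.inj _ _ _ _ hz
              exact h7 (h11 ▸ hlt)
            · obtain ⟨h11, _⟩ := hh.inj _ _ _ _ hz
              have : ξ < ξ := (h10.trans_le hη).trans_eq h11
              exact lt_irrefl _ this
      intro e he
      have h12 := hv2 e he
      show (e.2.1 : ℝ) < f.1 (evo h (ζ e.1)) ∧ f.1 (evo h (ζ e.1)) < (e.2.2 : ℝ)
      rw [h5]
      exact h12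
  obtain ⟨c', ζ, hcd, hleg⟩ := hh.legit δ hcand
  -- hits everywhere
  have hhit : ∀ v : Finset Cond, (v : Set Cond) ⊆ c' → ∀ n β, ∃ α, Hit v (sn ζ n) β α := by
    intro v hv n β
    by_contra hno
    push Not at hno
    have h1 := hΦ2 (v, sn ζ n, bot) ⟨β, hno⟩
    have h2 : Φ2 (v, sn ζ n, bot) < δ := hC2 _ (hrk' ζ δ hδ0 hcd.old v n bot hδ0)
    obtain ⟨α, h3, h4, h5, h6⟩ := hcd.cons v hv n _ h2
    rw [(hδG α h4).1] at h5 h6
    exact h1 α ((hsn ζ n v _ α).2 ⟨h3, h5, h6⟩)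
  -- the ultrafilter
  let ι : Type := {v : Finset Cond // (v : Set Cond) ⊆ c'} × ℕ × Om
  let A : ι → Set Om := fun x => {α | Hit x.1.1 (sn ζ x.2.1) x.2.2 α}
  have hAne : (⨅ x, 𝓟 (A x)).NeBot := by
    have : Nonempty ι := ⟨(⟨∅, by simp⟩, 0, bot)⟩
    refine Filter.iInf_neBot_of_directed ?_ ?_
    · rintro ⟨⟨v, hv⟩, n, β⟩ ⟨⟨v', hv'⟩, n', β'⟩
      refine ⟨(⟨v ∪ v', by simpa using ⟨hv, hv'⟩⟩, max n n', max β β'), ?_, ?_⟩
      · refine Filter.principal_mono.2 ?_
        intro α hα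
        have h1 := (hsn ζ _ _ _ _).1 hα
        refine (hsn ζ _ _ _ _).2 ⟨(le_max_left _ _).trans h1.1, ?_, fun i hi => ?_⟩
        · exact fun x hx => h1.2.1 (by simp only [Finset.coe_union]; exact Or.inl hx)
        · have h2 := h1.2.2 i (lt_of_lt_of_le hi (le_max_left _ _))
          exact ⟨h2.1, fun h3 => (le_max_left _ _).trans (h2.2 h3)⟩
      · refine Filter.principal_mono.2 ?_
        intro α hα
        have h1 := (hsn ζ _ _ _ _).1 hα
        refine (hsn ζ _ _ _ _).2 ⟨(le_max_right _ _).trans h1.1, ?_, fun i hi => ?_⟩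
        · exact fun x hx => h1.2.1 (by simp only [Finset.coe_union]; exact Or.inr hx)
        · have h2 := h1.2.2 i (lt_of_lt_of_le hi (le_max_right _ _))
          exact ⟨h2.1, fun h3 => (le_max_right _ _).trans (h2.2 h3)⟩
    · rintro ⟨⟨v, hv⟩, n, β⟩
      obtain ⟨α, hα⟩ := hhit v hv n β
      exact Filter.principal_neBot_iff.2 ⟨α, hα⟩
  let 𝒰 : Ultrafilter Om := Ultrafilter.of (⨅ x, 𝓟 (A x))
  have h𝒰 : ∀ x, A x ∈ 𝒰 := by
    intro x
    have h1 : (𝒰 : Filter Om) ≤ ⨅ x, 𝓟 (A x) := Ultrafilter.of_le _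
    exact h1 (Filter.mem_iInf_of_mem x (Filter.mem_principal_self _))
  -- key claim
  have hkey : ∀ v ∈ c', ∀ g : Cp (XZ (Zall h)), InBox v.1 (fun i => (E g).1 (evo h (ζ i))) →
      {α | (F α).1 g ∈ Icc (v.2.1 : ℝ) (v.2.2 : ℝ)} ∈ 𝒰 := by
    intro v hv g hbox
    have h1 : {ξ : Om | ∃ n, (E g).1 (kl (h ξ n)) ≠ (E g).1 OnePoint.infty}.Countable := by
      have h2 : {p : Om × ℕ | (E g).1 (kl (h p.1 p.2)) ≠ (E g).1 OnePoint.infty}.Countable := by
        refine Set.MapsTo.countable_of_injOn (f := fun p : Om × ℕ => h p.1 p.2)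
          (t := {z : Cn | (E g).1 (kl z) ≠ (E g).1 OnePoint.infty}) ?_ ?_ (countable_supp (E g))
        · intro p hp
          exact hp
        · intro p _ q _ hpq
          obtain ⟨h3, h4⟩ := hh.inj _ _ _ _ hpq
          exact Prod.ext h3 h4
      refine (h2.image Prod.fst).mono ?_
      rintro ξ ⟨n, hn⟩
      exact ⟨(ξ, n), hn, rfl⟩
    obtain ⟨β, hβ⟩ := exists_gt_countable (h1.union (countable_singleton bot))
    have hβ0 : bot < β := hβ bot (Or.inr rfl)
    have h2 := h𝒰 (⟨{v}, by simpa using hv⟩, v.1.sup Prod.fst + 1, β)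
    refine Filter.mem_of_superset h2 ?_
    intro α hα
    have h3 := (hsn ζ _ _ _ _).1 hα
    refine hsound α v (h3.2.1 (by simp)) g ?_
    intro e he
    have h4 : e.1 < v.1.sup Prod.fst + 1 := Nat.lt_succ_of_le (Finset.le_sup (f := Prod.fst) he)
    have h5 := h3.2.2 e.1 h4
    have h6 := hbox e he
    suffices h7 : g.1 (b α e.1) = (E g).1 (evo h (ζ e.1)) by
      show (e.2.1 : ℝ) < g.1 (b α e.1) ∧ g.1 (b α e.1) < (e.2.2 : ℝ)
      rw [h7]
      exact h6
    rw [← hEb]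
    rcases hz : ζ e.1 with _ | a
    · show (E g).1 (ev h (nm α e.1)) = (E g).1 OnePoint.infty
      have h8 := h5.2 hz
      have h9 := hnm' α e.1
      rcases hi : nm α e.1 with ⟨ξ, (o | m)⟩
      · exfalso
        rw [hi] at h8 h9
        have := h9 o rfl
        exact absurd hβ0 (not_lt.2 (this ▸ h8))
      · rw [hi] at h8
        by_contra hne
        exact absurd (hβ ξ (Or.inl ⟨m, hne⟩)) (not_lt.2 h8)
    · rw [h5.1 a hz]
      rfl
  -- limits
  have hlim : ∀ g, ∃ x, Tendsto (fun α => (F α).1 g) 𝒰 (𝓝 x) := by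
    intro g
    obtain ⟨v, hv, _, hbox⟩ := hleg (E g) (hE g) 1 one_pos
    have h1 := hkey v hv g hbox
    have h2 : (Icc (v.2.1 : ℝ) (v.2.2 : ℝ)) ∈ (𝒰.map fun α => (F α).1 g) := h1
    obtain ⟨x, _, hx⟩ := (isCompact_Icc (a := (v.2.1 : ℝ)) (b := (v.2.2 : ℝ))).ultrafilter_le_nhds
      (𝒰.map fun α => (F α).1 g) (by
        rw [Filter.le_principal_iff]
        exact h2)
    exact ⟨x, hx⟩
  choose ψ0 hψ0 using hlim
  have hψ1 : ∀ v ∈ c', ∀ g : Cp (XZ (Zall h)), InBox v.1 (fun i => (E g).1 (evo h (ζ i))) →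
      ψ0 g ∈ Icc (v.2.1 : ℝ) (v.2.2 : ℝ) := by
    intro v hv g hbox
    exact isClosed_Icc.mem_of_tendsto (hψ0 g) (hkey v hv g hbox)
  have hcont : Continuous ψ0 := by
    rw [Metric.continuous_iff'] 
    intro g ε hε
    obtain ⟨v, hv, hlen, hbox⟩ := hleg (E g) (hE g) ε hε
    have hopen : IsOpen {g' : Cp (XZ (Zall h)) | InBox v.1 (fun i => (E g').1 (evo h (ζ i)))} := by
      have : {g' : Cp (XZ (Zall h)) | InBox v.1 (fun i => (E g').1 (evo h (ζ i)))} =
          ⋂ e ∈ v.1, {g' | (e.2.1 : ℝ) < (E g').1 (evo h (ζ e.1)) ∧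
            (E g').1 (evo h (ζ e.1)) < (e.2.2 : ℝ)} := by
        ext g'
        simp [InBox]
      rw [this]
      refine isOpen_biInter_finset fun e _ => ?_
      have hce : Continuous fun g' : Cp (XZ (Zall h)) => (E g').1 (evo h (ζ e.1)) :=
        (continuous_apply (pr (Zall h) (evo h (ζ e.1)))).comp continuous_subtype_val
      exact (isOpen_lt continuous_const hce).inter (isOpen_lt hce continuous_const)
    filter_upwards [hopen.mem_nhds hbox] with g' hg'
    have h1 := hψ1 v hv g hbox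
    have h2 := hψ1 v hv g' hg'
    rw [Real.dist_eq, abs_lt]
    constructor <;> linarith [h1.1, h1.2, h2.1, h2.2]
  refine ⟨⟨ψ0, hcont⟩, fun U hU β => ?_⟩
  have ht : Tendsto F 𝒰 (𝓝 ⟨ψ0, hcont⟩) := by
    rw [tendsto_subtype_rng, tendsto_pi_nhds]
    exact hψ0
  have h1 : F ⁻¹' U ∈ 𝒰 := ht hU
  have h2 := h𝒰 (⟨∅, by simp⟩, 0, β)
  obtain ⟨α, h3, h4⟩ := 𝒰.nonempty_of_mem (Filter.inter_mem h1 h2)
  exact ⟨α, h4.1, h3⟩

theorem counterexample (hD : Diamond) (hCH : (ℵ₁ : Cardinal.{0}) = 𝔠) :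
    ∃ (X : Type) (_ : TopologicalSpace X), CompactSpace X ∧ T2Space X ∧
      LindelofSpace (Cp (Cp X)) ∧ ¬ LindelofSpace (Cp X) ∧ ¬ OmegaMonolithic X := by
  obtain ⟨G, hG⟩ := diamond_seq hD
  obtain ⟨h, hh⟩ := exists_h G hCH
  have hZ : ¬ (Zall h).Countable := by
    intro hc
    have h1 : (univ : Set Om).Countable := by
      refine Set.MapsTo.countable_of_injOn (f := fun ξ : Om => h ξ 0) (t := Zall h) ?_ ?_ hc
      · intro ξ _
        exact ⟨ξ, 0, rfl⟩
      · intro ξ _ ξ' _ he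
        exact (hh.inj _ _ _ _ he).1
    obtain ⟨a, ha⟩ := exists_gt_countable h1
    exact lt_irrefl a (ha a (mem_univ a))
  refine ⟨XZ (Zall h), inferInstance, inferInstance, inferInstance, ?_, not_lindelof hZ,
    not_monolithic hZ⟩
  refine lindelof_of_acc ?_ (fun F => exists_acc hD hG hh F)
  rw [hCH]
  exact card_Cp _


end Pool.Agent.Helper647.CPP
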