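import Mathlib
import Pool.Agent.Helper647.CPP.NegSide

set_option autoImplicit false
set_option linter.unusedVariables false
set_option linter.unusedSectionVars false

open Set Topology Filter Cardinal

namespace Pool.Agent.Helper647.CPP.Pos

theorem exists_code {Z : Set (ℕ → ℝ)} (hZ : MeasureTheory.AnalyticSet Zᶜ) :
    ∃ G : Set ((ℕ → ℝ) × (ℕ → ℝ)), IsClosed G ∧
      (∀ r t, (r, t) ∈ G → (∀ ε > 0, ∃ n, |t n| < ε) → r ∉ Z) ∧
      (∀ r, r ∉ Z → ∃ t : ℕ → ℝ, (∀ n, 0 ≤ t n) ∧ Tendsto t atTop (𝓝 0) ∧ (r, t) ∈ G) := by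
  classical
  rw [MeasureTheory.AnalyticSet] at hZ
  rcases hZ with hE | ⟨φ, hφ, hr⟩
  · refine ⟨∅, isClosed_empty, ?_, ?_⟩
    · intro r t h; exact absurd h (Set.notMem_empty _)
    · intro r hr
      have : r ∈ Zᶜ := hr
      rw [hE] at this
      exact absurd this (Set.notMem_empty _)
  · let u : (ℕ → ℕ) → ℕ → ℕ → ℝ := fun b n k => if n < b k then 1 / ((k : ℝ) + 1) else 0
    let c : (ℕ → ℕ) → ℕ → ℝ := fun b n => ⨆ k, u b n k
    have hu0 : ∀ b n k, 0 ≤ u b n k := by
      intro b n k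
      show 0 ≤ (if n < b k then 1 / ((k : ℝ) + 1) else 0)
      split_ifs
      · positivity
      · exact le_rfl
    have hu1 : ∀ b n k, u b n k ≤ 1 / ((k : ℝ) + 1) := by
      intro b n k
      show (if n < b k then 1 / ((k : ℝ) + 1) else 0) ≤ _
      split_ifs
      · exact le_rfl
      · positivity
    have hbdd : ∀ b n, BddAbove (Set.range (u b n)) := by
      intro b n
      refine ⟨1, ?_⟩
      rintro _ ⟨k, rfl⟩
      refine (hu1 b n k).trans ?_
      rw [div_le_one (by positivity)]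
      have : (0 : ℝ) ≤ k := Nat.cast_nonneg k
      linarith
    have hc0 : ∀ b n, 0 ≤ c b n := fun b n => Real.iSup_nonneg (hu0 b n)
    refine ⟨closure (Set.range fun b => (φ b, c b)), isClosed_closure, ?_, ?_⟩
    · intro r t hmem hε
      let F : (ℕ → ℕ) → (ℕ → ℝ) × (ℕ → ℝ) := fun b => (φ b, c b)
      have hne : (comap F (𝓝 (r, t))).NeBot := by
        rw [comap_neBot_iff]
        intro V hV
        obtain ⟨x, hxV, b, rfl⟩ := mem_closure_iff_nhds.mp hmem V hV
        exact ⟨b, hxV⟩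
      let U : Ultrafilter (ℕ → ℕ) := Ultrafilter.of (comap F (𝓝 (r, t)))
      have hU : Tendsto F U (𝓝 (r, t)) :=
        (tendsto_comap (f := F) (x := 𝓝 (r, t))).mono_left (Ultrafilter.of_le _)
      have hU1 : Tendsto φ U (𝓝 r) := (continuous_fst.tendsto _).comp hU
      have hU2 : Tendsto c U (𝓝 t) := (continuous_snd.tendsto _).comp hU
      have hk : ∀ k : ℕ, ∃ m : ℕ, ∀ᶠ b in (U : Filter (ℕ → ℕ)), b k = m := by
        intro k
        obtain ⟨n, hn⟩ := hε (1 / ((k : ℝ) + 1)) (by positivity)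
        have h1 : Tendsto (fun b => c b n) U (𝓝 (t n)) := (tendsto_pi_nhds.mp hU2) n
        have h2 : ∀ᶠ b in (U : Filter (ℕ → ℕ)), c b n < 1 / ((k : ℝ) + 1) :=
          h1.eventually_lt_const (lt_of_le_of_lt (le_abs_self _) hn)
        have h3 : ∀ᶠ b in (U : Filter (ℕ → ℕ)), ∃ m ∈ Set.Iic n, b k = m := by
          filter_upwards [h2] with b hb
          refine ⟨b k, ?_, rfl⟩
          show b k ≤ n
          by_contra hlt
          push Not at hlt
          have h4 : u b n k ≤ c b n := le_ciSup (hbdd b n) k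
          have h5 : u b n k = 1 / ((k : ℝ) + 1) := if_pos hlt
          rw [h5] at h4
          exact absurd hb (not_lt.mpr h4)
        have h6 := (Ultrafilter.eventually_exists_mem_iff (Set.finite_Iic n)).mp h3
        obtain ⟨m, -, hm⟩ := h6
        exact ⟨m, hm⟩
      choose β hβ using hk
      have hid : Tendsto (fun b : ℕ → ℕ => b) U (𝓝 β) := by
        rw [tendsto_pi_nhds]
        intro k
        refine Tendsto.congr' ?_ tendsto_const_nhds
        filter_upwards [hβ k] with b hb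
        exact hb.symm
      have h7 : Tendsto φ U (𝓝 (φ β)) := (hφ.tendsto β).comp hid
      have h8 : r = φ β := tendsto_nhds_unique hU1 h7
      have h9 : r ∈ Zᶜ := by
        rw [← hr]; exact ⟨β, h8.symm⟩
      exact h9
    · intro r hrZ
      have : r ∈ Set.range φ := by rw [hr]; exact hrZ
      obtain ⟨b, rfl⟩ := this
      refine ⟨c b, hc0 b, ?_, subset_closure ⟨b, rfl⟩⟩
      rw [Metric.tendsto_atTop]
      intro ε hε
      obtain ⟨K, hK⟩ := exists_nat_one_div_lt hε
      refine ⟨(Finset.range K).sup b, fun n hn => ?_⟩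
      rw [Real.dist_eq, sub_zero, abs_of_nonneg (hc0 b n)]
      refine lt_of_le_of_lt ?_ hK
      apply ciSup_le
      intro k
      by_cases hkK : k < K
      · have h1 : b k ≤ n := (Finset.le_sup (f := b) (Finset.mem_range.mpr hkK)).trans hn
        have h2 : u b n k = 0 := if_neg (not_lt.mpr h1)
        rw [h2]; positivity
      · push Not at hkK
        refine (hu1 b n k).trans ?_
        apply one_div_le_one_div_of_le (by positivity)
        have : (K : ℝ) ≤ k := by exact_mod_cast hkK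
        linarith

theorem exists_bumps (X : Type) [TopologicalSpace X] [CompactSpace X] [T2Space X] [Infinite X] :
    ∃ (a : ℕ → X) (b : X), (∀ (f : Cp X) (ε : ℝ), 0 < ε → ∃ n, |f.1 (a n) - f.1 b| < ε) ∧
      ∀ c : ℕ → ℝ, (∀ n, 0 ≤ c n) → Tendsto c atTop (𝓝 0) →
        ∃ f : Cp X, ∀ n, f.1 (a n) - f.1 b = c n := by
  classical
  obtain ⟨G, hGi, hGo, hGd⟩ := exists_seq_infinite_isOpen_pairwise_disjoint X
  choose a ha using fun n => (hGi n).nonempty
  obtain ⟨b, hb⟩ : ∃ b, MapClusterPt b atTop a := by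
    obtain ⟨b, hb⟩ := exists_clusterPt_of_compactSpace (map a atTop)
    exact ⟨b, hb⟩
  have hfreq : ∀ U ∈ 𝓝 b, ∃ᶠ n in atTop, a n ∈ U := fun U hU => hb.frequently hU
  have hbG : ∀ m, b ∉ G m := by
    intro m hm
    have h1 := hfreq (G m) ((hGo m).mem_nhds hm)
    obtain ⟨n, hn, hna⟩ := (h1.and_eventually (eventually_gt_atTop m)).exists
    exact Set.disjoint_left.1 (hGd (ne_of_gt hna : n ≠ m)) (ha n) hn
  refine ⟨a, b, ?_, ?_⟩
  · intro f ε hε
    have hc : Continuous fun z => |f.1 z - f.1 b| := (f.2.sub continuous_const).abs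
    have h1 : {z | |f.1 z - f.1 b| < ε} ∈ 𝓝 b :=
      (isOpen_lt hc continuous_const).mem_nhds (by simpa using hε)
    obtain ⟨n, hn⟩ := (hfreq _ h1).exists
    exact ⟨n, hn⟩
  · intro c hc0 hc
    have hbump : ∀ n, ∃ h : C(X, ℝ), Set.EqOn h 0 (G n)ᶜ ∧ Set.EqOn h 1 {a n} ∧
        ∀ x, h x ∈ Set.Icc (0 : ℝ) 1 := by
      intro n
      refine exists_continuous_zero_one_of_isClosed (hGo n).isClosed_compl isClosed_singleton ?_
      rw [Set.disjoint_singleton_right]
      exact fun h => h (ha n)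
    choose h hh0 hh1 hh using hbump
    -- value of the function
    let F : X → ℝ := fun x => if H : ∃ n, x ∈ G n then c H.choose * h H.choose x else 0
    have hF1 : ∀ n x, x ∈ G n → F x = c n * h n x := by
      intro n x hx
      have H : ∃ n, x ∈ G n := ⟨n, hx⟩
      have h2 : H.choose = n := by
        by_contra hne
        exact Set.disjoint_left.1 (hGd hne) H.choose_spec hx
      simp only [F, dif_pos H]
      rw [h2]
    have hF0 : ∀ x, (∀ n, x ∉ G n) → F x = 0 := by
      intro x hx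
      simp only [F]
      rw [dif_neg]
      rintro ⟨n, hn⟩
      exact hx n hn
    have hFN : ∀ N x, ∑ n ∈ Finset.range N, c n * h n x =
        if ∃ n < N, x ∈ G n then F x else 0 := by
      intro N x
      split_ifs with H
      · obtain ⟨n, hn, hx⟩ := H
        rw [hF1 n x hx, Finset.sum_eq_single n]
        · intro m _ hmn
          have : x ∉ G m := fun hxm => Set.disjoint_left.1 (hGd hmn) hxm hx
          rw [hh0 m this]
          simp
        · intro hn'
          exact absurd (Finset.mem_range.2 hn) hn'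
      · push Not at H
        refine Finset.sum_eq_zero fun n hn => ?_
        rw [hh0 n (H n (Finset.mem_range.1 hn))]
        simp
    have hFc : Continuous F := by
      have hT : TendstoUniformly (fun N x => ∑ n ∈ Finset.range N, c n * h n x) F atTop := by
        rw [Metric.tendstoUniformly_iff]
        intro ε hε
        obtain ⟨N, hN⟩ := (Metric.tendsto_atTop.1 hc) ε hε
        filter_upwards [eventually_ge_atTop N] with M hM x
        rw [hFN M x]
        split_ifs with H
        · simpa using hε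
        · push Not at H
          by_cases H2 : ∃ n, x ∈ G n
          · obtain ⟨n, hn⟩ := H2
            have hnM : M ≤ n := by
              by_contra hlt
              exact H n (not_le.1 hlt) hn
            rw [hF1 n x hn, dist_zero_right, Real.norm_eq_abs,
              abs_of_nonneg (mul_nonneg (hc0 n) (hh n x).1)]
            have h3 := hN n (hM.trans hnM)
            rw [dist_zero_right, Real.norm_eq_abs, abs_of_nonneg (hc0 n)] at h3
            calc c n * h n x ≤ c n * 1 := mul_le_mul_of_nonneg_left (hh n x).2 (hc0 n)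
              _ < ε := by simpa using h3
          · push Not at H2
            rw [hF0 x H2]
            simpa using hε
      refine hT.continuous (Frequently.of_forall fun N => ?_)
      exact continuous_finset_sum _ fun n _ => continuous_const.mul (h n).continuous
    refine ⟨⟨F, hFc⟩, fun n => ?_⟩
    change F (a n) - F b = c n
    rw [hF1 n _ (ha n), hF0 b hbG, hh1 n (Set.mem_singleton _)]
    simp

theorem exists_rho (S : Type) [TopologicalSpace S] [TopologicalSpace.MetrizableSpace S]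
    {G : Set S} (hG : IsClosed G) :
    ∃ ρ : S → ℝ, Continuous ρ ∧ (∀ s, 0 ≤ ρ s) ∧ ∀ s, ρ s = 0 ↔ s ∈ G := by
  letI := TopologicalSpace.metrizableSpaceMetric S
  rcases G.eq_empty_or_nonempty with rfl | hne
  · exact ⟨fun _ => 1, continuous_const, fun _ => zero_le_one, fun s => by simp⟩
  · exact ⟨fun s => Metric.infDist s G, Metric.continuous_infDist_pt G,
      fun s => Metric.infDist_nonneg, fun s => (hG.mem_iff_infDist_zero hne).symm⟩

theorem om_bdd34804 (s : Set Om) (hs : s.Countable) : ∃ b : Om, ∀ a ∈ s, a < b := by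
  by_contra hcon
  push Not at hcon
  have hcount : ∀ a : Om, (Set.Iic a).Countable := by
    intro a
    have h1 : (Set.Iio a).Countable := by
      rw [Cardinal.countable_iff_lt_aleph_one]
      exact Cardinal.mk_Iio_ord_toType a
    rw [← Set.Iio_insert]
    exact h1.insert a
  have h2 : (Set.univ : Set Om) ⊆ ⋃ a ∈ s, Set.Iic a := by
    intro b _
    obtain ⟨a, ha, hab⟩ := hcon b
    exact Set.mem_biUnion ha hab
  have h3 : (Set.univ : Set Om).Countable := (hs.biUnion (fun a _ => hcount a)).mono h2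
  rw [Cardinal.countable_iff_lt_aleph_one, Cardinal.mk_univ, Cardinal.mk_ord_toType] at h3
  exact lt_irrefl _ h3

theorem om_nonempty34804 : Nonempty Om := by
  obtain ⟨b, -⟩ := om_bdd34804 ∅ Set.countable_empty
  exact ⟨b⟩

theorem om_cif34804 : CountableInterFilter (atTop : Filter Om) := by
  have := om_nonempty34804
  constructor
  intro S hS hmem
  have h1 : ∀ s ∈ S, ∃ a : Om, ∀ b, a ≤ b → b ∈ s := by
    intro s hs
    exact mem_atTop_sets.mp (hmem s hs)
  choose! f hf using h1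
  obtain ⟨b, hb⟩ := om_bdd34804 (f '' S) (hS.image f)
  rw [mem_atTop_sets]
  refine ⟨b, fun c hc => ?_⟩
  rw [Set.mem_sInter]
  intro s hs
  exact hf s hs c ((hb _ (Set.mem_image_of_mem f hs)).le.trans hc)

theorem exists_ultra (W K : Type) [TopologicalSpace W] [LindelofSpace W]
    [TopologicalSpace K] [CompactSpace K] (w : Om → W) (k : Om → K) :
    ∃ (𝒱 : Ultrafilter Om) (w0 : W) (k0 : K), Tendsto w 𝒱 (𝓝 w0) ∧ Tendsto k 𝒱 (𝓝 k0) ∧
      ∀ β : Om, Set.Ioi β ∈ (𝒱 : Filter Om) := by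
  have hne := om_nonempty34804
  have hcif := om_cif34804
  have hnb : (atTop : Filter Om).NeBot := atTop_neBot
  obtain ⟨w0, -, hw0⟩ := (isLindelof_univ (X := W)) (f := map w atTop) (by simp)
  obtain ⟨𝒱, h𝒱, hw⟩ := mapClusterPt_iff_ultrafilter.mp hw0
  obtain ⟨k0, -, hk0⟩ := (isCompact_univ (X := K)).ultrafilter_le_nhds (𝒱.map k) (by simp)
  refine ⟨𝒱, w0, k0, hw, hk0, ?_⟩
  intro β
  apply h𝒱
  obtain ⟨b, hb⟩ := om_bdd34804 {β} (Set.countable_singleton β)
  rw [mem_atTop_sets]
  exact ⟨b, fun c hc => lt_of_lt_of_le (hb β rfl) hc⟩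

theorem exists_pair {X : Type} [TopologicalSpace X] [CompactSpace X] [T2Space X] {F : Set X}
    (hF : IsClosed F) (hn : ¬ SecondCountableTopology F) (S : Set (Cp X)) (hS : S.Countable) :
    ∃ (x y : X) (f : Cp X), x ∈ F ∧ y ∈ F ∧ (∀ g ∈ S, g.1 x = g.1 y) ∧ f.1 x = 0 ∧ f.1 y = 1 ∧
      ∀ z, 0 ≤ f.1 z ∧ f.1 z ≤ 1 := by
  classical
  by_cases hex : ∃ x ∈ F, ∃ y ∈ F, x ≠ y ∧ ∀ g ∈ S, g.1 x = g.1 y
  · obtain ⟨x, hx, y, hy, hxy, hg⟩ := hex
    obtain ⟨f, hf0, hf1, hf⟩ := exists_continuous_zero_one_of_isClosed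
      (isClosed_singleton (x := x)) (isClosed_singleton (x := y))
      (Set.disjoint_singleton.2 hxy)
    refine ⟨x, y, ⟨f, f.continuous⟩, hx, hy, hg, hf0 rfl, hf1 rfl, fun z => ?_⟩
    exact ⟨(hf z).1, (hf z).2⟩
  · exfalso
    apply hn
    have hinj : ∀ x ∈ F, ∀ y ∈ F, (∀ g ∈ S, g.1 x = g.1 y) → x = y := by
      intro x hx y hy hg
      by_contra hxy
      exact hex ⟨x, hx, y, hy, hxy, hg⟩
    haveI : Countable S := hS.to_subtype
    haveI : CompactSpace F := isCompact_iff_compactSpace.1 hF.isCompact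
    obtain ⟨Φ, hΦ⟩ : ∃ Φ : F → (S → ℝ), Φ = fun x g => g.1.1 x.1 := ⟨_, rfl⟩
    have hcont : Continuous Φ := by
      rw [hΦ]
      exact continuous_pi fun g => g.1.2.comp continuous_subtype_val
    have hi : Function.Injective Φ := by
      intro x y hxy
      apply Subtype.ext
      apply hinj x.1 x.2 y.1 y.2
      intro g hg
      have := congrFun hxy ⟨g, hg⟩
      rw [hΦ] at this
      exact this
    have hemb := hcont.isClosedEmbedding hi
    exact hemb.isEmbedding.secondCountableTopology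

theorem lindelof_Cp (F : Type) [TopologicalSpace F] [CompactSpace F] [T2Space F]
    [SecondCountableTopology F] : LindelofSpace (Cp F) := by
  let g : C(F, ℝ) → Cp F := fun f => ⟨f, f.continuous⟩
  have hg : Continuous g := by
    apply Continuous.subtype_mk
    exact continuous_pi fun x => continuous_eval_const x
  have hs : Function.Surjective g := fun f => ⟨⟨f.1, f.2⟩, rfl⟩
  have h1 : IsLindelof (Set.univ : Set C(F, ℝ)) := isLindelof_univ
  have h2 := h1.image hg
  rw [Set.image_univ, hs.range_eq] at h2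
  exact ⟨h2⟩

theorem ext_lindelof (F : Type) [TopologicalSpace F] [LindelofSpace (Cp F)] {C : Type}
    (g : C → Cp F) (hg : ∀ h : Cp F, ∃ U ∈ 𝓝 h, {c | g c ∈ U}.Subsingleton) (v : C → ℝ) :
    ∃ w : Cp (Cp F), ∀ c, w.1 (g c) = v c := by
  have hinj : ∀ c c', g c = g c' → c = c' := by
    intro c c' h
    obtain ⟨U, hU, hs⟩ := hg (g c)
    have h1 : g c ∈ U := mem_of_mem_nhds hU
    exact hs h1 (by rw [mem_ofPred_eq, ← h]; exact h1)
  have hclosed : ∀ R : Set (Cp F), R ⊆ range g → IsClosed R := by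
    intro R hR
    rw [← isOpen_compl_iff, isOpen_iff_mem_nhds]
    intro h hh
    obtain ⟨U, hU, hs⟩ := hg h
    by_cases hex : ∃ c, g c ∈ U ∧ g c ≠ h
    · obtain ⟨c0, hc0, hne⟩ := hex
      have h1 : U ∩ {g c0}ᶜ ∈ 𝓝 h :=
        Filter.inter_mem hU (isOpen_compl_singleton.mem_nhds (fun h2 => hne h2.symm))
      refine Filter.mem_of_superset h1 ?_
      rintro z ⟨hz1, hz2⟩ hzR
      obtain ⟨c, hc⟩ := hR hzR
      have h3 : c = c0 := hs (by rw [mem_ofPred_eq, hc]; exact hz1) hc0
      exact hz2 (by rw [← hc, h3]; rfl)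
    · refine Filter.mem_of_superset hU ?_
      intro z hz hzR
      obtain ⟨c, hc⟩ := hR hzR
      apply hex
      refine ⟨c, by rw [hc]; exact hz, ?_⟩
      intro h2
      apply hh
      rw [← h2, hc]
      exact hzR
  obtain ⟨f, hf⟩ : ∃ f : range g → ℝ, ∀ c, f ⟨g c, mem_range_self c⟩ = v c := by
    refine ⟨fun r => v r.2.choose, fun c => ?_⟩
    have h1 : (mem_range_self (f := g) c).choose = c :=
      hinj _ _ (mem_range_self (f := g) c).choose_spec
    show v (mem_range_self (f := g) c).choose = v c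
    rw [h1]
  have hfc : Continuous f := by
    rw [continuous_iff_isClosed]
    intro K _
    have h1 : f ⁻¹' K = Subtype.val ⁻¹' (Subtype.val '' (f ⁻¹' K)) := by
      rw [preimage_image_eq _ Subtype.val_injective]
    rw [h1]
    apply IsClosed.preimage continuous_subtype_val
    apply hclosed
    rintro _ ⟨z, _, rfl⟩
    exact z.2
  obtain ⟨w, hw⟩ := ContinuousMap.exists_restrict_eq (hclosed (range g) (Subset.refl _)) ⟨f, hfc⟩
  refine ⟨⟨w, w.continuous⟩, fun c => ?_⟩
  have h1 := congrArg (fun k : C(range g, ℝ) => k ⟨g c, mem_range_self c⟩) hw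
  exact h1.trans (hf c)

theorem exists_countable_image {X : Type} [TopologicalSpace X] [CompactSpace X] {C : Type}
    [Countable C] (g : C → Cp X) :
    ∃ A : Set X, A.Countable ∧ ∀ x, ∃ y ∈ closure A, ∀ c, (g c).1 x = (g c).1 y := by
  classical
  let Φ : X → (C → ℝ) := fun x c => (g c).1 x
  have hΦ : Continuous Φ := continuous_pi fun c => (g c).2
  obtain ⟨s, hs, hd⟩ := TopologicalSpace.exists_countable_dense (range Φ)
  let pre : range Φ → X := fun p => p.2.choose
  have hpre : ∀ p : range Φ, Φ (pre p) = p.1 := fun p => p.2.choose_spec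
  refine ⟨pre '' s, hs.image _, fun x => ?_⟩
  have hcl : IsClosed (Φ '' closure (pre '' s)) :=
    ((isClosed_closure.isCompact).image hΦ).isClosed
  have hsub : (Subtype.val '' s : Set (C → ℝ)) ⊆ Φ '' closure (pre '' s) := by
    rintro _ ⟨p, hp, rfl⟩
    exact ⟨pre p, subset_closure (mem_image_of_mem _ hp), hpre p⟩
  have hx : (⟨Φ x, mem_range_self x⟩ : range Φ) ∈ closure s := hd _
  have hx2 : Φ x ∈ closure (Subtype.val '' s : Set (C → ℝ)) :=
    image_closure_subset_closure_image continuous_subtype_val (mem_image_of_mem _ hx)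
  have hx3 : Φ x ∈ Φ '' closure (pre '' s) := closure_minimal hsub hcl hx2
  obtain ⟨y, hy, hyx⟩ := hx3
  exact ⟨y, hy, fun c => (congrFun hyx c).symm⟩

theorem restrict_discrete {X : Type} [TopologicalSpace X] [CompactSpace X] {F : Set X}
    (hF : IsClosed F) {C : Type} (g : C → Cp X)
    (hsurj : ∀ x, ∃ y ∈ F, ∀ c, (g c).1 x = (g c).1 y)
    (hg : ∀ h : Cp X, ∃ U ∈ 𝓝 h, {c | g c ∈ U}.Subsingleton) :
    ∀ h : Cp F, ∃ U ∈ 𝓝 h,
      {c | (⟨fun x : F => (g c).1 x, (g c).2.comp continuous_subtype_val⟩ : Cp F) ∈ U}.Subsingleton := by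
  intro h
  set gR : C → Cp F := fun c => ⟨fun x : F => (g c).1 x, (g c).2.comp continuous_subtype_val⟩
    with hgR
  by_cases hcl : h ∈ closure (range gR)
  · have hev : ∀ (x : F), Continuous fun k : Cp F => k.1 x := fun x =>
      (continuous_apply x).comp continuous_subtype_val
    have hconst : ∀ x y : F, (∀ c, (g c).1 x = (g c).1 y) → h.1 x = h.1 y := by
      intro x y hxy
      have h1 : IsClosed {k : Cp F | k.1 x = k.1 y} := isClosed_eq (hev x) (hev y)
      have h2 : range gR ⊆ {k : Cp F | k.1 x = k.1 y} := by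
        rintro _ ⟨c, rfl⟩
        exact hxy c
      exact closure_minimal h2 h1 hcl
    choose y hyF hy using hsurj
    let Φ : X → (C → ℝ) := fun x c => (g c).1 x
    have hΦ : Continuous Φ := continuous_pi fun c => (g c).2
    let ht : X → ℝ := fun x => h.1 ⟨y x, hyF x⟩
    have hht : Continuous ht := by
      rw [continuous_iff_isClosed]
      intro K hK
      have h1 : IsClosed (Subtype.val '' (h.1 ⁻¹' K) : Set X) :=
        hF.isClosedEmbedding_subtypeVal.isClosedMap _ (hK.preimage h.2)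
      have h2 : IsClosed (Φ '' (Subtype.val '' (h.1 ⁻¹' K) : Set X)) :=
        (h1.isCompact.image hΦ).isClosed
      have h3 : ht ⁻¹' K = Φ ⁻¹' (Φ '' (Subtype.val '' (h.1 ⁻¹' K) : Set X)) := by
        ext x
        constructor
        · intro hx
          refine ⟨y x, ⟨⟨y x, hyF x⟩, hx, rfl⟩, ?_⟩
          funext c
          exact (hy x c).symm
        · rintro ⟨z, ⟨⟨z', hz'⟩, hzK, rfl⟩, hΦz⟩
          show h.1 ⟨y x, hyF x⟩ ∈ K
          have h4 : h.1 ⟨y x, hyF x⟩ = h.1 ⟨z', hz'⟩ := by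
            apply hconst
            intro c
            have h5 := congrFun hΦz c
            show (g c).1 (y x) = (g c).1 z'
            rw [← hy x c]
            exact h5.symm
          rw [h4]
          exact hzK
      rw [h3]
      exact h2.preimage hΦ
    obtain ⟨U, hU, hsub⟩ := hg ⟨ht, hht⟩
    rw [mem_nhds_induced] at hU
    obtain ⟨V, hV, hVU⟩ := hU
    let ψ : Cp F → (X → ℝ) := fun k x => k.1 ⟨y x, hyF x⟩
    have hψ : Continuous ψ := continuous_pi fun x => hev ⟨y x, hyF x⟩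
    refine ⟨ψ ⁻¹' V, hψ.continuousAt hV, ?_⟩
    intro c hc c' hc'
    have key : ∀ c, gR c ∈ ψ ⁻¹' V → g c ∈ U := by
      intro c hc
      apply hVU
      show (g c).1 ∈ V
      have h6 : ψ (gR c) = (g c).1 := by
        funext x
        exact (hy x c).symm
      rw [← h6]
      exact hc
    exact hsub (key c hc) (key c' hc')
  · refine ⟨(closure (range gR))ᶜ, isClosed_closure.isOpen_compl.mem_nhds hcl, ?_⟩
    intro c hc
    exact absurd (subset_closure (mem_range_self c)) hc

theorem exists_net {X : Type} [TopologicalSpace X] [CompactSpace X] (S : Finset (Cp X)) :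
    ∃ D : Set (Cp X), D.Countable ∧ ∀ (g : Cp X) (ε : ℝ), 0 < ε →
      (∀ x y, (∀ s ∈ S, s.1 x = s.1 y) → |g.1 x - g.1 y| < ε) →
        ∃ h ∈ D, ∀ x, |g.1 x - h.1 x| < 2 * ε := by
  classical
  let Φ : X → (S → ℝ) := fun x s => s.1.1 x
  have hΦ : Continuous Φ := continuous_pi (fun s => s.1.2)
  let Q : Set (S → ℝ) := Set.range Φ
  have hQ : IsCompact Q := isCompact_range hΦ
  haveI : CompactSpace Q := isCompact_iff_compactSpace.mp hQ
  obtain ⟨d, hdc, hdd⟩ := TopologicalSpace.exists_countable_dense C(Q, ℝ)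
  let Φ' : X → Q := fun x => ⟨Φ x, x, rfl⟩
  have hΦ' : Continuous Φ' := hΦ.subtype_mk _
  refine ⟨(fun k : C(Q,ℝ) => (⟨fun x => k (Φ' x), k.continuous.comp hΦ'⟩ : Cp X)) '' d,
    hdc.image _, ?_⟩
  intro g ε hε hfib
  have key : ∃ k0 : C(Q, ℝ), ∀ q : Q, k0 q ∈ (⋂ x, ⋂ (_ : Φ' x = q), Metric.ball (g.1 x) ε) := by
    apply exists_continuous_forall_mem_convex_of_local_const
      (t := fun q : Q => ⋂ x, ⋂ (_ : Φ' x = q), Metric.ball (g.1 x) ε)
    · intro q
      exact convex_iInter fun x => convex_iInter fun _ => convex_ball _ _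
    · intro q
      obtain ⟨x0, hx0⟩ : ∃ x0, Φ' x0 = q := by
        obtain ⟨q, x0, rfl⟩ := q
        exact ⟨x0, rfl⟩
      refine ⟨g.1 x0, ?_⟩
      have hB : IsClosed {x : X | ε ≤ |g.1 x0 - g.1 x|} :=
        isClosed_le continuous_const ((continuous_const.sub g.2).abs)
      have hBc : IsCompact (Φ' '' {x : X | ε ≤ |g.1 x0 - g.1 x|}) := hB.isCompact.image hΦ'
      have hBcl : IsClosed (Φ' '' {x : X | ε ≤ |g.1 x0 - g.1 x|}) := hBc.isClosed
      have hq : q ∉ Φ' '' {x : X | ε ≤ |g.1 x0 - g.1 x|} := by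
        rintro ⟨x, hx, hxq⟩
        have h1 : Φ' x0 = Φ' x := by rw [hx0, hxq]
        have h2 : Φ x0 = Φ x := congrArg Subtype.val h1
        have h3 := hfib x0 x (fun s hs => congrFun h2 ⟨s, hs⟩)
        exact absurd h3 (not_lt.mpr hx)
      filter_upwards [hBcl.isOpen_compl.mem_nhds hq] with y hy
      rw [Set.mem_iInter]
      intro x
      rw [Set.mem_iInter]
      intro hxy
      rw [Metric.mem_ball, Real.dist_eq]
      by_contra hcon
      exact hy ⟨x, not_lt.mp hcon, hxy⟩
  obtain ⟨k0, hk0⟩ := key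
  obtain ⟨k, hkd, hk⟩ := hdd.exists_dist_lt k0 hε
  refine ⟨_, ⟨k, hkd, rfl⟩, ?_⟩
  intro x
  have h1 := hk0 (Φ' x)
  rw [Set.mem_iInter] at h1
  have h2 := h1 x
  rw [Set.mem_iInter] at h2
  have h3 := h2 rfl
  rw [Metric.mem_ball, Real.dist_eq] at h3
  have h4 : dist (k0 (Φ' x)) (k (Φ' x)) < ε :=
    lt_of_le_of_lt (ContinuousMap.dist_apply_le_dist (Φ' x)) hk
  rw [Real.dist_eq] at h4
  show |g.1 x - k (Φ' x)| < 2 * ε
  rw [abs_lt] at *
  constructor <;> linarith [h3.1, h3.2, h4.1, h4.2]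

theorem exists_finset {X : Type} [TopologicalSpace X] [CompactSpace X] (H : Set (Cp X))
    (g : Cp X) (hg : g ∈ closure H) (ε : ℝ) (hε : 0 < ε) :
    ∃ S : Finset (Cp X), (S : Set (Cp X)) ⊆ H ∧
      ∀ x y, (∀ s ∈ S, s.1 x = s.1 y) → |g.1 x - g.1 y| < ε := by
  have hev : ∀ x : X, Continuous (fun k : Cp X => k.1 x) := fun x =>
    (continuous_apply x).comp continuous_subtype_val
  have h1 : ∀ x y, (∀ h ∈ H, h.1 x = h.1 y) → g.1 x = g.1 y := by
    intro x y hxy
    have hc : IsClosed {k : Cp X | k.1 x = k.1 y} := isClosed_eq (hev x) (hev y)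
    exact closure_minimal (fun k hk => hxy k hk) hc hg
  have hK : IsCompact {p : X × X | ε ≤ |g.1 p.1 - g.1 p.2|} := by
    apply IsClosed.isCompact
    exact isClosed_le continuous_const
      (((g.2.comp continuous_fst).sub (g.2.comp continuous_snd)).abs)
  obtain ⟨b', hb', hfin, hcov⟩ := hK.elim_finite_subcover_image (b := H)
    (c := fun s : Cp X => {p : X × X | s.1 p.1 ≠ s.1 p.2})
    (fun s _ => isOpen_ne_fun (s.2.comp continuous_fst) (s.2.comp continuous_snd))
    (by
      intro p hp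
      rw [mem_iUnion₂]
      by_contra hcon
      push Not at hcon
      have h2 := h1 p.1 p.2 (fun h hh => by
        have := hcon h hh
        simpa using this)
      have h3 : ε ≤ |g.1 p.1 - g.1 p.2| := hp
      rw [h2, sub_self, abs_zero] at h3
      exact absurd h3 (not_le.mpr hε))
  refine ⟨hfin.toFinset, ?_, ?_⟩
  · intro s hs
    exact hb' (by simpa using hs)
  · intro x y hxy
    by_contra hcon
    push Not at hcon
    have h4 := hcov (show (x, y) ∈ {p : X × X | ε ≤ |g.1 p.1 - g.1 p.2|} from hcon)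
    rw [mem_iUnion₂] at h4
    obtain ⟨s, hs, h5⟩ := h4
    exact h5 (hxy s (by simpa using hs))

theorem ed_iio (a : Om) : (Set.Iio a).Countable := by
  rw [Cardinal.countable_iff_lt_aleph_one]
  exact Cardinal.mk_Iio_toType_ord_lt a

theorem ed_basic {X : Type} [TopologicalSpace X] (O : Set (Cp X)) (hO : IsOpen O) (k : Cp X) (hk : k ∈ O) :
    ∃ (ε : ℝ) (I : Finset X), 0 < ε ∧ {k2 : Cp X | ∀ x ∈ I, |k2.1 x - k.1 x| < ε} ⊆ O := by
  classical
  obtain ⟨O', hO', rfl⟩ := isOpen_induced_iff.1 hO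
  obtain ⟨I, u, hu, hI⟩ := isOpen_pi_iff.1 hO' k.1 hk
  have h1 : ∀ x : X, ∃ e : ℝ, 0 < e ∧ (x ∈ I → Metric.ball (k.1 x) e ⊆ u x) := by
    intro x
    by_cases hx : x ∈ I
    · obtain ⟨e, he, hb⟩ := Metric.isOpen_iff.1 (hu x hx).1 (k.1 x) (hu x hx).2
      exact ⟨e, he, fun _ => hb⟩
    · exact ⟨1, one_pos, fun h => absurd h hx⟩
  choose e he hb using h1
  obtain ⟨ε, hε, hεI⟩ : ∃ ε : ℝ, 0 < ε ∧ ∀ x ∈ I, ε ≤ e x := by
    rcases I.eq_empty_or_nonempty with rfl | hne
    · exact ⟨1, one_pos, by simp⟩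
    · refine ⟨I.inf' hne e, ?_, fun x hx => Finset.inf'_le _ hx⟩
      rw [Finset.lt_inf'_iff]
      exact fun x _ => he x
  refine ⟨ε, I, hε, fun k2 hk2 => hI ?_⟩
  intro x hx
  have hx' : x ∈ I := hx
  apply hb x hx'
  rw [Metric.mem_ball, Real.dist_eq]
  exact (hk2 x hx').trans_le (hεI x hx')

theorem exists_discrete {X : Type} [TopologicalSpace X] [CompactSpace X]
    (hL : ¬ LindelofSpace (Cp X))
    (hnet : ∀ S : Finset (Cp X), ∃ D : Set (Cp X), D.Countable ∧ ∀ (g : Cp X) (ε : ℝ), 0 < ε →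
      (∀ x y, (∀ s ∈ S, s.1 x = s.1 y) → |g.1 x - g.1 y| < ε) →
        ∃ h ∈ D, ∀ x, |g.1 x - h.1 x| < 2 * ε)
    (hfin : ∀ (H : Set (Cp X)) (g : Cp X), g ∈ closure H → ∀ ε : ℝ, 0 < ε →
      ∃ S : Finset (Cp X), (S : Set (Cp X)) ⊆ H ∧
        ∀ x y, (∀ s ∈ S, s.1 x = s.1 y) → |g.1 x - g.1 y| < ε) :
    ∃ g : Om → Cp X, ∀ h : Cp X, ∃ U ∈ 𝓝 h, {a | g a ∈ U}.Subsingleton := by
  classical
  -- cover
  have hcov : ∃ (ι : Type) (U : ι → Set (Cp X)), (∀ i, IsOpen (U i)) ∧ (∀ k, ∃ i, k ∈ U i) ∧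
      ∀ t : Set ι, t.Countable → ∃ k, ∀ i ∈ t, k ∉ U i := by
    by_contra hcon
    apply hL
    refine ⟨isLindelof_of_countable_subcover ?_⟩
    intro ι U hU hc
    by_contra hno
    apply hcon
    refine ⟨ι, U, hU, fun k => ?_, fun t ht => ?_⟩
    · exact Set.mem_iUnion.1 (hc (Set.mem_univ k))
    · by_contra hall
      apply hno
      refine ⟨t, ht, fun k _ => ?_⟩
      push Not at hall
      obtain ⟨i, hi, hk⟩ := hall k
      exact Set.mem_biUnion hi hk
  obtain ⟨ι, U, hU, hc, hno⟩ := hcov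
  choose D hDc hD using hnet
  let P : Cp X → ℚ → ι → Prop := fun h q i =>
    ∃ I : Finset X, {k : Cp X | ∀ x ∈ I, |k.1 x - h.1 x| < (q : ℝ)} ⊆ U i
  obtain ⟨k00, -⟩ := hno ∅ Set.countable_empty
  haveI hιne : Nonempty ι := ⟨(hc k00).choose⟩
  haveI hCne : Nonempty (Cp X) := ⟨k00⟩
  let ii : Cp X → ℚ → ι := fun h q => Classical.epsilon (P h q)
  have hii : ∀ h q, (∃ i, P h q i) → P h q (ii h q) := fun h q hh => Classical.epsilon_spec hh
  let W : Set (Cp X) → Set (Cp X) := fun A =>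
    {k | ∃ S : Finset (Cp X), (S : Set (Cp X)) ⊆ A ∧ ∃ h ∈ D S, ∃ q : ℚ, k ∈ U (ii h q)}
  have hWmono : ∀ A B : Set (Cp X), A ⊆ B → W A ⊆ W B := by
    rintro A B hAB k ⟨S, hS, h, hh, q, hk⟩
    exact ⟨S, hS.trans hAB, h, hh, q, hk⟩
  have hWc : ∀ A : Set (Cp X), A.Countable → ∃ k, k ∉ W A := by
    intro A hA
    have hfs : {S : Finset (Cp X) | (S : Set (Cp X)) ⊆ A}.Countable := by
      have h1 := Set.countable_ofPred_finite_subset hA
      have h2 : {S : Finset (Cp X) | (S : Set (Cp X)) ⊆ A} =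
          (fun S : Finset (Cp X) => (S : Set (Cp X))) ⁻¹' {t : Set (Cp X) | t.Finite ∧ t ⊆ A} := by
        ext S
        constructor
        · intro hS
          exact ⟨S.finite_toSet, hS⟩
        · intro hS
          exact hS.2
      rw [h2]
      exact h1.preimage_of_injOn Finset.coe_injective.injOn
    have hJ : (⋃ S ∈ {S : Finset (Cp X) | (S : Set (Cp X)) ⊆ A}, ⋃ h ∈ D S,
        Set.range (fun q : ℚ => ii h q)).Countable :=
      hfs.biUnion fun S _ => (hDc S).biUnion fun h _ => Set.countable_range _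
    obtain ⟨k, hk⟩ := hno _ hJ
    refine ⟨k, ?_⟩
    rintro ⟨S, hS, h, hh, q, hkU⟩
    refine hk (ii h q) ?_ hkU
    exact Set.mem_biUnion hS (Set.mem_biUnion hh ⟨q, rfl⟩)
  have hg : ∃ g : Om → Cp X, ∀ a, g a ∉ W (g '' Set.Iio a) := by
    let F : (a : Om) → ((b : Om) → b < a → Cp X) → Cp X := fun a IH =>
      Classical.epsilon (fun k => k ∉ W {k | ∃ b, ∃ hb : b < a, IH b hb = k})
    let g : Om → Cp X := (wellFounded_lt : WellFounded ((· < ·) : Om → Om → Prop)).fix F
    refine ⟨g, fun a => ?_⟩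
    have h1 : g a = F a (fun b _ => g b) := WellFounded.fix_eq _ F a
    have h2 : {k | ∃ b, ∃ _ : b < a, g b = k} = g '' Set.Iio a := by
      ext k
      constructor
      · rintro ⟨b, hb, rfl⟩
        exact ⟨b, hb, rfl⟩
      · rintro ⟨b, hb, rfl⟩
        exact ⟨b, hb, rfl⟩
    have h3 : ∃ k, k ∉ W {k | ∃ b, ∃ _ : b < a, g b = k} := by
      rw [h2]
      exact hWc _ ((ed_iio a).image g)
    have h4 : F a (fun b _ => g b) ∉ W {k | ∃ b, ∃ _ : b < a, g b = k} :=
      Classical.epsilon_spec h3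
    rw [h2] at h4
    rw [h1]
    exact h4
  obtain ⟨g, hg⟩ := hg
  have key : ∀ (A : Set (Cp X)) (k : Cp X), k ∈ closure A → k ∈ W A := by
    intro A k hk
    obtain ⟨i0, hi0⟩ := hc k
    obtain ⟨ε, I, hε, hI⟩ := ed_basic (U i0) (hU i0) k hi0
    obtain ⟨q, hq0, hq1⟩ := exists_rat_btwn (half_pos hε)
    obtain ⟨S, hSA, hS⟩ := hfin A k hk ((q : ℝ) / 2) (half_pos hq0)
    obtain ⟨h, hhD, hh⟩ := hD S k ((q : ℝ) / 2) (half_pos hq0) hS
    have hh' : ∀ x, |k.1 x - h.1 x| < (q : ℝ) := by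
      intro x
      have h1 := hh x
      linarith
    have hP : P h q i0 := by
      refine ⟨I, fun k2 hk2 => hI ?_⟩
      intro x hx
      have h1 : |k2.1 x - h.1 x| < (q : ℝ) := hk2 x hx
      have h2 := hh' x
      have h3 : |k2.1 x - k.1 x| ≤ |k2.1 x - h.1 x| + |h.1 x - k.1 x| := abs_sub_le _ _ _
      rw [abs_sub_comm (h.1 x) (k.1 x)] at h3
      linarith
    obtain ⟨I', hI'⟩ := hii h q ⟨i0, hP⟩
    exact ⟨S, hSA, h, hhD, q, hI' (fun x _ => hh' x)⟩
  refine ⟨g, fun h => ?_⟩
  by_cases hcl : h ∈ closure (Set.range g)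
  swap
  · refine ⟨(closure (Set.range g))ᶜ, isClosed_closure.isOpen_compl.mem_nhds hcl, ?_⟩
    intro a ha b hb
    exact absurd (subset_closure (Set.mem_range_self a)) ha
  have hOne : Nonempty Om := by
    obtain ⟨k, hk⟩ := closure_nonempty_iff.1 ⟨h, hcl⟩
    obtain ⟨a, -⟩ := hk
    exact ⟨a⟩
  have hC : ∃ c, h ∈ W (g '' Set.Iic c) := by
    obtain ⟨S, hS, h1, hh1, q, hU1⟩ := key _ _ hcl
    rw [← Set.image_univ, Finset.subset_set_image_iff] at hS
    obtain ⟨s', -, hs'⟩ := hS
    obtain ⟨c, hcb⟩ := s'.exists_le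
    refine ⟨c, S, ?_, h1, hh1, q, hU1⟩
    rw [← hs', Finset.coe_image]
    exact Set.image_mono fun a ha => hcb a ha
  obtain ⟨c, hcC, hcmin⟩ := (wellFounded_lt : WellFounded ((· < ·) : Om → Om → Prop)).has_min
    {c | h ∈ W (g '' Set.Iic c)} hC
  obtain ⟨S, hS, h1, hh1, q, hU1⟩ := hcC
  have hncl : h ∉ closure (g '' Set.Iio c) := by
    intro hcl2
    obtain ⟨k0, c0, hc0, -⟩ := closure_nonempty_iff.1 ⟨h, hcl2⟩
    obtain ⟨S', hS', h1', hh1', q', hU1'⟩ := key _ _ hcl2
    rw [Finset.subset_set_image_iff] at hS'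
    obtain ⟨s', hs'c, hs'⟩ := hS'
    have hne : (insert c0 s').Nonempty := Finset.insert_nonempty _ _
    have hc1 : (insert c0 s').max' hne < c := by
      rw [Finset.max'_lt_iff]
      intro y hy
      rw [Finset.mem_insert] at hy
      rcases hy with rfl | hy
      · exact hc0
      · exact hs'c hy
    refine hcmin _ ?_ hc1
    refine ⟨S', ?_, h1', hh1', q', hU1'⟩
    rw [← hs', Finset.coe_image]
    refine Set.image_mono fun a ha => ?_
    exact Finset.le_max' _ _ (Finset.mem_insert_of_mem ha)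
  refine ⟨U (ii h1 q) ∩ (closure (g '' Set.Iio c))ᶜ,
    Filter.inter_mem ((hU _).mem_nhds hU1) (isClosed_closure.isOpen_compl.mem_nhds hncl), ?_⟩
  have honly : ∀ a, g a ∈ U (ii h1 q) ∩ (closure (g '' Set.Iio c))ᶜ → a = c := by
    rintro a ⟨ha1, ha2⟩
    rcases lt_trichotomy a c with hlt | heq | hgt
    · exact absurd (subset_closure (Set.mem_image_of_mem g (show a ∈ Set.Iio c from hlt))) ha2
    · exact heq
    · exfalso
      apply hg a
      refine ⟨S, hS.trans (Set.image_mono fun b hb => ?_), h1, hh1, q, ha1⟩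
      exact lt_of_le_of_lt hb hgt
  intro a ha b hb
  rw [honly a ha, honly b hb]

theorem no_discrete {X : Type} [TopologicalSpace X]
    [LindelofSpace (Cp (Cp X))] (g : Om → Cp X)
    (hext : ∀ (C : Set Om), C.Countable → ∀ v : Om → ℝ, ∃ w : Cp (Cp X), ∀ c ∈ C, w.1 (g c) = v c) :
    False := by
  have hunc : ¬ Countable Om := by
    rw [← Cardinal.mk_le_aleph0_iff]
    have h1 : #Om = ℵ₁ := Cardinal.mk_ord_toType _
    rw [h1]
    exact not_le.mpr Cardinal.aleph0_lt_aleph_one
  let U : {p : Om × Om // p.1 ≠ p.2} → Set (Cp (Cp X)) :=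
    fun p => {w | |w.1 (g p.1.1) - w.1 (g p.1.2)| < 1}
  have hopen : ∀ p, IsOpen (U p) := by
    intro p
    apply isOpen_lt _ continuous_const
    apply Continuous.abs
    apply Continuous.sub
    · exact (continuous_apply (g p.1.1)).comp continuous_subtype_val
    · exact (continuous_apply (g p.1.2)).comp continuous_subtype_val
  have hcov : (univ : Set (Cp (Cp X))) ⊆ ⋃ p, U p := by
    intro w _
    rw [mem_iUnion]
    by_contra hcon
    push Not at hcon
    apply hunc
    have hinj : Function.Injective (fun a : Om => ⌊w.1 (g a)⌋) := by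
      intro a b hab
      by_contra hne
      exact hcon ⟨(a, b), hne⟩ (Int.abs_sub_lt_one_of_floor_eq_floor hab)
    exact hinj.countable
  obtain ⟨r, hr, hrc⟩ := isLindelof_univ.elim_countable_subcover U hopen hcov
  let C : Set Om := (fun p : {p : Om × Om // p.1 ≠ p.2} => p.1.1) '' r ∪
    (fun p : {p : Om × Om // p.1 ≠ p.2} => p.1.2) '' r
  have hC : C.Countable := (hr.image _).union (hr.image _)
  obtain ⟨f, hf⟩ := Set.countable_iff_exists_injOn.mp hC
  obtain ⟨w, hw⟩ := hext C hC (fun a => (f a : ℝ))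
  have hwm := hrc (mem_univ w)
  simp only [mem_iUnion] at hwm
  obtain ⟨p, hp, hwp⟩ := hwm
  have h1 : p.1.1 ∈ C := Or.inl ⟨p, hp, rfl⟩
  have h2 : p.1.2 ∈ C := Or.inr ⟨p, hp, rfl⟩
  have h3 : |w.1 (g p.1.1) - w.1 (g p.1.2)| < 1 := hwp
  rw [hw _ h1, hw _ h2] at h3
  have h4 : (|(f p.1.1 : ℤ) - (f p.1.2 : ℤ)| : ℤ) < 1 := by exact_mod_cast h3
  have h5 : (f p.1.1 : ℤ) = f p.1.2 := by
    rw [Int.abs_lt_one_iff, sub_eq_zero] at h4
    exact h4
  exact p.2 (hf h1 h2 (by exact_mod_cast h5))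

theorem rec_family {X : Type} [TopologicalSpace X] [CompactSpace X] [T2Space X] {F : Set X}
    (hF : IsClosed F) (hn : ¬ SecondCountableTopology F) :
    ∃ (x y : Om → X) (f : Om → Cp X), (∀ α, x α ∈ F) ∧ (∀ α, y α ∈ F) ∧
      (∀ α β, β < α → (f β).1 (x α) = (f β).1 (y α)) ∧ (∀ α, (f α).1 (x α) = 0) ∧
      (∀ α, (f α).1 (y α) = 1) ∧ ∀ α z, 0 ≤ (f α).1 z ∧ (f α).1 z ≤ 1 := by
  obtain ⟨D, hD⟩ := exists_rec (I := Om) (T := X × X × Cp X)
    (fun a f t => t.1 ∈ F ∧ t.2.1 ∈ F ∧
      (∀ b (hb : b < a), (f b hb).2.2.1 t.1 = (f b hb).2.2.1 t.2.1) ∧ t.2.2.1 t.1 = 0 ∧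
      t.2.2.1 t.2.1 = 1 ∧ ∀ z, 0 ≤ t.2.2.1 z ∧ t.2.2.1 z ≤ 1) (by
      intro a f
      have := countable_Iio a
      obtain ⟨x, y, g, hx, hy, h1, h2, h3, h4⟩ := exists_pair hF hn
        (Set.range fun b : {b : Om // b < a} => (f b.1 b.2).2.2) (Set.countable_range _)
      exact ⟨(x, y, g), hx, hy, fun b hb => h1 _ ⟨⟨b, hb⟩, rfl⟩, h2, h3, h4⟩)
  exact ⟨fun α => (D α).1, fun α => (D α).2.1, fun α => (D α).2.2, fun α => (hD α).1,
    fun α => (hD α).2.1, fun α β hb => (hD α).2.2.1 β hb, fun α => (hD α).2.2.2.1,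
    fun α => (hD α).2.2.2.2.1, fun α => (hD α).2.2.2.2.2⟩

/-- the space of parameters -/
abbrev SS : Type := (ℕ → ℝ) × ℝ × ℝ × (ℕ → ℝ) × (ℕ → ℝ)

def GRi : Set SS := {p | ∀ n, p.1 n ≤ 2/3 ∨ 1 ≤ |p.2.2.2.1 n - p.2.2.1|}
def GLo : Set SS := {p | ∀ n, 1/3 ≤ p.1 n ∨ 1 ≤ |p.2.2.2.1 n - p.2.1|}

theorem isClosed_GRi : IsClosed GRi := by
  unfold GRi
  rw [Set.ofPred_forall]
  refine isClosed_iInter fun n => ?_
  have h1 : Continuous fun p : SS => p.1 n := by fun_prop
  have h2 : Continuous fun p : SS => |p.2.2.2.1 n - p.2.2.1| := by fun_prop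
  exact (isClosed_le h1 continuous_const).union (isClosed_le continuous_const h2)

theorem isClosed_GLo : IsClosed GLo := by
  unfold GLo
  rw [Set.ofPred_forall]
  refine isClosed_iInter fun n => ?_
  have h1 : Continuous fun p : SS => p.1 n := by fun_prop
  have h2 : Continuous fun p : SS => |p.2.2.2.1 n - p.2.1| := by fun_prop
  exact (isClosed_le continuous_const h1).union (isClosed_le continuous_const h2)

theorem near_pt {X : Type} [TopologicalSpace X] (d : ℕ → X) (y : X)
    (hy : y ∈ closure (Set.range d)) (g f : Cp X) (ε : ℝ) (hε : 0 < ε) :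
    ∃ n, |g.1 (d n) - g.1 y| < ε ∧ |f.1 (d n) - f.1 y| < 1 := by
  have h1 : {z | |g.1 z - g.1 y| < ε} ∈ 𝓝 y := by
    have hc : Continuous fun z => |g.1 z - g.1 y| := (g.2.sub continuous_const).abs
    exact (isOpen_lt hc continuous_const).mem_nhds (by simpa using hε)
  have h2 : {z | |f.1 z - f.1 y| < 1} ∈ 𝓝 y := by
    have hc : Continuous fun z => |f.1 z - f.1 y| := (f.2.sub continuous_const).abs
    exact (isOpen_lt hc continuous_const).mem_nhds (by simp)
  obtain ⟨z, hz, n, rfl⟩ := mem_closure_iff_nhds.1 hy _ (Filter.inter_mem h1 h2)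
  exact ⟨n, hz.1, hz.2⟩

theorem second_countable_closure (hCA : SmallSetsCoanalytic) {X : Type} [TopologicalSpace X]
    [CompactSpace X] [T2Space X] [LindelofSpace (Cp (Cp X))] (A : Set X) (hA : A.Countable) :
    SecondCountableTopology (closure A) := by
  by_contra hn
  have hne : A.Nonempty := by
    by_contra h0
    rw [Set.not_nonempty_iff_eq_empty] at h0
    subst h0
    apply hn
    have : IsEmpty (closure (∅ : Set X)) := by
      rw [closure_empty]
      infer_instance
    have : DiscreteTopology (closure (∅ : Set X)) := ⟨by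
      apply le_antisymm
      · intro s _
        have : s = ∅ := Set.eq_empty_of_isEmpty s
        rw [this]
        exact isOpen_empty
      · exact bot_le⟩
    infer_instance
  have hinf : Infinite X := by
    by_contra hfin
    rw [not_infinite_iff_finite] at hfin
    exact hn inferInstance
  obtain ⟨d, rfl⟩ := hA.exists_eq_range hne
  obtain ⟨x, y, f, hx, hy, hxy, hf0, hf1, hf01⟩ := rec_family isClosed_closure hn
  let r : Om → ℕ → ℝ := fun α n => (f α).1 (d n)
  have hZ : #(Set.range r) ≤ ℵ₁ := by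
    refine mk_range_le.trans ?_
    simp
  obtain ⟨Gw, hGw, hG1, hG2⟩ := exists_code (hCA _ hZ)
  obtain ⟨a, b, hab, hbump⟩ := exists_bumps X
  let GW : Set SS := {p | (p.1, p.2.2.2.2) ∈ Gw}
  have hGWc : IsClosed GW := by
    have hc : Continuous fun p : SS => (p.1, p.2.2.2.2) := by fun_prop
    exact hGw.preimage hc
  have hGc : IsClosed (GRi ∪ GLo ∪ GW) := (isClosed_GRi.union isClosed_GLo).union hGWc
  obtain ⟨ρ, hρc, hρ0, hρ⟩ := exists_rho SS hGc
  let p : (ℕ → ℝ) → X → X → Cp X → SS := fun r x y g =>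
    (r, g.1 x, g.1 y, (fun n => g.1 (d n)), fun n => g.1 (a n) - g.1 b)
  have hpc : ∀ r x y, Continuous (p r x y) := by
    intro r x y
    have he : ∀ z : X, Continuous fun g : Cp X => g.1 z := fun z =>
      (continuous_apply z).comp continuous_subtype_val
    refine continuous_const.prodMk ((he x).prodMk ((he y).prodMk (Continuous.prodMk ?_ ?_)))
    · exact continuous_pi fun n => he _
    · exact continuous_pi fun n => (he _).sub (he _)
  have hpG : ∀ α g, p (r α) (x α) (y α) g ∉ GRi ∪ GLo ∪ GW := by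
    rintro α g ((h | h) | h)
    · obtain ⟨n, h1, h2⟩ := near_pt d (y α) (hy α) (f α) g (1/3) (by norm_num)
      rw [hf1 α] at h1
      rcases h n with h3 | h3
      · have h4 : (f α).1 (d n) ≤ 2/3 := h3
        rw [abs_lt] at h1
        linarith [h1.1]
      · have h4 : 1 ≤ |g.1 (d n) - g.1 (y α)| := h3
        linarith
    · obtain ⟨n, h1, h2⟩ := near_pt d (x α) (hx α) (f α) g (1/3) (by norm_num)
      rw [hf0 α] at h1
      rcases h n with h3 | h3
      · have h4 : 1/3 ≤ (f α).1 (d n) := h3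
        rw [abs_lt] at h1
        linarith [h1.2]
      · have h4 : 1 ≤ |g.1 (d n) - g.1 (x α)| := h3
        linarith
    · exact hG1 _ _ h (fun ε hε => hab g ε hε) ⟨α, rfl⟩
  let w : Om → Cp (Cp X) := fun α => ⟨fun g => (ρ (p (r α) (x α) (y α) g))⁻¹,
    (hρc.comp (hpc _ _ _)).inv₀ fun g h => hpG α g ((hρ _).1 h)⟩
  let k : Om → X × X × (ℕ → unitInterval) := fun α =>
    (x α, y α, fun n => ⟨(f α).1 (d n), hf01 α _⟩)
  obtain ⟨𝒱, w0, k0, hw, hk, hV⟩ := exists_ultra (Cp (Cp X)) (X × X × (ℕ → unitInterval)) w k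
  have hkx : Tendsto x 𝒱 (𝓝 k0.1) := (continuous_fst.tendsto k0).comp hk
  have hky : Tendsto y 𝒱 (𝓝 k0.2.1) := ((continuous_fst.comp continuous_snd).tendsto k0).comp hk
  have hkr : Tendsto r 𝒱 (𝓝 (fun n => (k0.2.2 n : ℝ))) := by
    rw [tendsto_pi_nhds]
    intro n
    have hc : Continuous fun q : X × X × (ℕ → unitInterval) => (q.2.2 n : ℝ) := by fun_prop
    exact (hc.tendsto k0).comp hk
  obtain ⟨x0, y0, r0⟩ := k0
  dsimp only at hkx hky hkr
  set r1 : ℕ → ℝ := fun n => (r0 n : ℝ) with hr1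
  have hp : ∀ g : Cp X, p r1 x0 y0 g ∉ GRi ∪ GLo ∪ GW := by
    intro g hg
    have h1 : Tendsto (fun α => p (r α) (x α) (y α) g) 𝒱 (𝓝 (p r1 x0 y0 g)) := by
      refine hkr.prodMk_nhds (((g.2.tendsto x0).comp hkx).prodMk_nhds
        (((g.2.tendsto y0).comp hky).prodMk_nhds (tendsto_const_nhds.prodMk_nhds
          tendsto_const_nhds)))
    have h2 : Tendsto (fun α => ρ (p (r α) (x α) (y α) g)) 𝒱 (𝓝 (ρ (p r1 x0 y0 g))) :=
      (hρc.tendsto _).comp h1
    have h3 : Tendsto (fun α => (w α).1 g) 𝒱 (𝓝 (w0.1 g)) :=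
      (((continuous_apply g).comp continuous_subtype_val).tendsto w0).comp hw
    have h4 := h3.mul h2
    have h5 : (fun α => (w α).1 g * ρ (p (r α) (x α) (y α) g)) = fun _ => (1 : ℝ) := by
      funext α
      exact inv_mul_cancel₀ fun h => hpG α g ((hρ _).1 h)
    rw [h5] at h4
    have h6 := tendsto_nhds_unique h4 tendsto_const_nhds
    rw [(hρ _).2 hg, mul_zero] at h6
    exact zero_ne_one h6
  by_cases hr : r1 ∈ Set.range r
  · obtain ⟨β, hβ⟩ := hr
    have hv : (f β).1 x0 = (f β).1 y0 := by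
      have h1 : Tendsto (fun α => (f β).1 (x α)) 𝒱 (𝓝 ((f β).1 x0)) :=
        ((f β).2.tendsto x0).comp hkx
      have h2 : Tendsto (fun α => (f β).1 (y α)) 𝒱 (𝓝 ((f β).1 y0)) :=
        ((f β).2.tendsto y0).comp hky
      refine tendsto_nhds_unique_of_eventuallyEq h1 h2 ?_
      filter_upwards [hV β] with α hα
      exact hxy α β hα
    rcases le_total ((f β).1 y0) (1/2) with h | h
    · refine hp ⟨fun z => max 0 (6 * ((f β).1 z - 1/2)),
        continuous_const.max (continuous_const.mul ((f β).2.sub continuous_const))⟩ (Or.inl (Or.inl ?_))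
      intro n
      rcases le_or_gt ((f β).1 (d n)) (2/3) with h1 | h1
      · left
        change r1 n ≤ 2/3
        rw [← hβ]
        exact h1
      · right
        change 1 ≤ |max 0 (6 * ((f β).1 (d n) - 1/2)) - max 0 (6 * ((f β).1 y0 - 1/2))|
        rw [max_eq_left (a := (0:ℝ)) (b := 6 * ((f β).1 y0 - 1/2)) (by linarith),
          max_eq_right (a := (0:ℝ)) (by linarith), sub_zero, abs_of_nonneg (by linarith)]
        linarith
    · refine hp ⟨fun z => max 0 (6 * (1/2 - (f β).1 z)),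
        continuous_const.max (continuous_const.mul (continuous_const.sub (f β).2))⟩ (Or.inl (Or.inr ?_))
      intro n
      rcases le_or_gt (1/3) ((f β).1 (d n)) with h1 | h1
      · left
        change 1/3 ≤ r1 n
        rw [← hβ]
        exact h1
      · right
        change 1 ≤ |max 0 (6 * (1/2 - (f β).1 (d n))) - max 0 (6 * (1/2 - (f β).1 x0))|
        rw [max_eq_left (a := (0:ℝ)) (b := 6 * (1/2 - (f β).1 x0)) (by rw [hv]; linarith),
          max_eq_right (a := (0:ℝ)) (by linarith), sub_zero, abs_of_nonneg (by linarith)]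
        linarith
  · obtain ⟨t, ht0, ht, htG⟩ := hG2 r1 hr
    obtain ⟨g, hg⟩ := hbump t ht0 ht
    refine hp g (Or.inr ?_)
    change (r1, fun n => g.1 (a n) - g.1 b) ∈ Gw
    have : (fun n => g.1 (a n) - g.1 b) = t := funext hg
    rw [this]
    exact htG


theorem exists_ext {X : Type} [TopologicalSpace X] [CompactSpace X] [T2Space X]
    (hm : ∀ A : Set X, A.Countable → SecondCountableTopology (closure A))
    {C : Type} [Countable C] (g : C → Cp X)
    (hg : ∀ h : Cp X, ∃ U ∈ 𝓝 h, {c | g c ∈ U}.Subsingleton) (v : C → ℝ) :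
    ∃ w : Cp (Cp X), ∀ c, w.1 (g c) = v c := by
  obtain ⟨A, hA, hsurj⟩ := exists_countable_image g
  have i1 := hm A hA
  have i2 : CompactSpace (closure A) := isCompact_iff_compactSpace.1 isClosed_closure.isCompact
  have i3 := lindelof_Cp (closure A)
  have h1 := restrict_discrete isClosed_closure g hsurj hg
  obtain ⟨w, hw⟩ := ext_lindelof (closure A)
    (fun c => (⟨fun x : closure A => (g c).1 x, (g c).2.comp continuous_subtype_val⟩ :
      Cp (closure A))) h1 v
  have hc : Continuous fun k : Cp X =>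
      (⟨fun x : closure A => k.1 x, k.2.comp continuous_subtype_val⟩ : Cp (closure A)) := by
    refine Continuous.subtype_mk ?_ _
    exact continuous_pi fun x => (continuous_apply _).comp continuous_subtype_val
  exact ⟨⟨fun k => w.1 ⟨fun x : closure A => k.1 x, k.2.comp continuous_subtype_val⟩,
    w.2.comp hc⟩, hw⟩

theorem positive (hCA : SmallSetsCoanalytic) (X : Type) [TopologicalSpace X] [CompactSpace X]
    [T2Space X] (hX : LindelofSpace (Cp (Cp X))) : LindelofSpace (Cp X) ∧ OmegaMonolithic X := by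
  have hm : ∀ A : Set X, A.Countable → SecondCountableTopology (closure A) :=
    fun A hA => second_countable_closure hCA A hA
  constructor
  · by_contra hL
    obtain ⟨g, hg⟩ := exists_discrete hL exists_net exists_finset
    refine no_discrete g fun C hC v => ?_
    have : Countable C := hC.to_subtype
    obtain ⟨w, hw⟩ := exists_ext hm (fun c : C => g c.1) (fun h => by
      obtain ⟨U, hU, hs⟩ := hg h
      exact ⟨U, hU, fun c hc c' hc' => Subtype.ext (hs hc hc')⟩) (fun c => v c.1)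
    exact ⟨w, fun c hc => hw ⟨c, hc⟩⟩
  · intro A hA
    have i1 := hm A hA
    refine ⟨TopologicalSpace.countableBasis (closure A),
      TopologicalSpace.countable_countableBasis _, fun U hU x hx => ?_⟩
    obtain ⟨M, hM, h1, h2⟩ :=
      (TopologicalSpace.isBasis_countableBasis (closure A)).exists_subset_of_mem_open hx hU
    exact ⟨M, hM, h1, h2⟩

end Pool.Agent.Helper647.CPP.Pos
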